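import Mathlib

/-!
# MP_800ada_gt: the definitions used in the statement
-/

namespace Pool.Agent.Lib.MP_800ada_gt

open Matrix LaurentPolynomial

/-- Conjugate transpose with respect to an involution `σ`. -/
def ct {R : Type*} [CommRing R] (σ : R →+* R) {ι κ : Type*} (A : Matrix ι κ R) : Matrix κ ι R :=
  (A.map σ)ᵀ

/-- The quotient `Frac(R)/R`. -/
abbrev FracMod (R : Type) [CommRing R] [IsDomain R] : Type :=
  FractionRing R ⧸ LinearMap.range (Algebra.linearMap R (FractionRing R))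

/-- The cokernel `R^ι / A R^ι` of `A`. -/
abbrev Cok {R : Type} [CommRing R] {ι : Type} [Fintype ι] [DecidableEq ι] (A : Matrix ι ι R) :
    Type := (ι → R) ⧸ LinearMap.range A.mulVecLin

/-- The class of `ā^T A⁻¹ b` in `Frac(R)/R`. -/
noncomputable def lk {R : Type} [CommRing R] [IsDomain R] (σ : R →+* R) {ι : Type} [Fintype ι]
    [DecidableEq ι] (A : Matrix ι ι R) (a b : ι → R) : FracMod R :=
  Submodule.Quotient.mk ((fun i => algebraMap R (FractionRing R) (σ (a i))) ⬝ᵥ
    ((A.map (algebraMap R (FractionRing R)))⁻¹ *ᵥ fun i => algebraMap R (FractionRing R) (b i)))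

/-- `Λ = ℤ[t^{±1}]`. -/
abbrev Lam : Type := LaurentPolynomial ℤ

/-- The involution `t ↦ t⁻¹` of `Λ`. -/
noncomputable def bar : Lam →+* Lam := ((invert : Lam ≃ₐ[ℤ] Lam) : Lam →+* Lam)

/-- Evaluation at `t = 1`. -/
noncomputable def ev1 : Lam →+* ℤ := LaurentPolynomial.eval₂ (RingHom.id ℤ) 1

/-- `M` is congruent over `ℤ` to a diagonal matrix with entries `±1`. -/
def DiagPM {ι : Type*} [Fintype ι] [DecidableEq ι] (M : Matrix ι ι ℤ) : Prop :=
  ∃ (P : Matrix ι ι ℤ) (d : ι → ℤ), IsUnit P.det ∧ (∀ i, d i = 1 ∨ d i = -1) ∧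
    M = Pᵀ * Matrix.diagonal d * P

/-- `A` is a hermitian matrix over `Λ` with nonzero determinant whose pairing
`(a, b) ↦ ā^T A⁻¹ b` on `Λⁿ/AΛⁿ` is isometric to the pairing `lam` on `H`. -/
def Presents {n : ℕ} (A : Matrix (Fin n) (Fin n) Lam) {H : Type} [AddCommGroup H] [Module Lam H]
    (lam : H → H → FracMod Lam) : Prop :=
  ct bar A = A ∧ A.det ≠ 0 ∧ ∃ f : Cok A ≃ₗ[Lam] H, ∀ a b : Fin n → Lam,
    lam (f (Submodule.Quotient.mk a)) (f (Submodule.Quotient.mk b)) = lk bar A a b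

/-- The sizes of the hermitian matrices presenting `lam`. Its minimum is `n₀(K)` if `lam` is the
Blanchfield pairing of the knot `K`. -/
def sizes0 {H : Type} [AddCommGroup H] [Module Lam H] (lam : H → H → FracMod Lam) : Set ℕ :=
  {n | ∃ A : Matrix (Fin n) (Fin n) Lam, Presents A lam}

/-- The sizes of the hermitian matrices `A` presenting `lam` with `A(1)` congruent over `ℤ` to a
diagonal matrix with entries `±1`. Its minimum is `n(K)` if `lam` is the Blanchfield pairing of the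
knot `K`. -/
def sizes {H : Type} [AddCommGroup H] [Module Lam H] (lam : H → H → FracMod Lam) : Set ℕ :=
  {n | ∃ A : Matrix (Fin n) (Fin n) Lam, Presents A lam ∧ DiagPM (A.map ev1)}

/-- `1 - t` acts surjectively on the `Λ`-module `H`. -/
def OneSubOnto (H : Type) [AddCommGroup H] [Module Lam H] : Prop :=
  ∀ x : H, ∃ y : H, x = (1 - T 1 : Lam) • y

/-- The presentation matrix `tV - Vᵀ` of the Alexander module. -/
noncomputable def seif {m : ℕ} (V : Matrix (Fin m) (Fin m) ℤ) : Matrix (Fin m) (Fin m) Lam :=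
  (T 1 : Lam) • V.map C - Vᵀ.map C

/-- The value `ā^T (1-t) (tV - Vᵀ)⁻¹ b` in `ℚ(t)/Λ`. -/
noncomputable def blVal {m : ℕ} (V : Matrix (Fin m) (Fin m) ℤ) (a b : Fin m → Lam) : FracMod Lam :=
  Submodule.Quotient.mk ((fun i => algebraMap Lam (FractionRing Lam) (bar (a i))) ⬝ᵥ
    ((algebraMap Lam (FractionRing Lam) (1 - T 1)) •
      ((seif V).map (algebraMap Lam (FractionRing Lam)))⁻¹) *ᵥ
    fun i => algebraMap Lam (FractionRing Lam) (b i))

/-- The pairing `(a, b) ↦ ā^T (1-t) (tV - Vᵀ)⁻¹ b` on `Λ^m/(tV - Vᵀ)Λ^m` (computed on some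
representatives): the Blanchfield pairing of a knot with Seifert matrix `V`. -/
noncomputable def blanch {m : ℕ} (V : Matrix (Fin m) (Fin m) ℤ) (x y : Cok (seif V)) :
    FracMod Lam :=
  blVal V (Quotient.out x) (Quotient.out y)

/-- The pairing `blanch V` does not depend on the representatives: it is given by the formula
`(a, b) ↦ ā^T (1-t) (tV - Vᵀ)⁻¹ b`. -/
def BlanchWellDefined {m : ℕ} (V : Matrix (Fin m) (Fin m) ℤ) : Prop :=
  ∀ a b : Fin m → Lam,
    blanch V (Submodule.Quotient.mk a) (Submodule.Quotient.mk b) = blVal V a b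

end Pool.Agent.Lib.MP_800ada_gt
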