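import Pool.Agent.Lib.MP_800ada_gt.Defs

/-!
# MP_800ada_gt: hermitian matrices over a commutative ring with involution, neighbour steps
-/

namespace Pool.Agent.Lib.MP_800ada_gt

open Matrix

section Generic

variable {R : Type*} [CommRing R] (σ : R →+* R)

variable {ι κ l o : Type*}

lemma ct_apply (A : Matrix ι κ R) (i : ι) (j : κ) : ct σ A j i = σ (A i j) := rfl

lemma ct_mul [Fintype κ] (A : Matrix ι κ R) (B : Matrix κ l R) :
    ct σ (A * B) = ct σ B * ct σ A := by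
  unfold ct
  rw [Matrix.map_mul, transpose_mul]

lemma ct_one [DecidableEq ι] : ct σ (1 : Matrix ι ι R) = 1 := by
  unfold ct
  rw [Matrix.map_one _ (map_zero σ) (map_one σ), transpose_one]

lemma ct_zero : ct σ (0 : Matrix ι κ R) = 0 := by
  ext i j; simp [ct]

lemma ct_neg (A : Matrix ι κ R) : ct σ (-A) = - ct σ A := by
  ext i j; simp [ct]

lemma ct_ct (hσ : ∀ x, σ (σ x) = x) (A : Matrix ι κ R) : ct σ (ct σ A) = A := by
  ext i j; simp [ct, hσ]

lemma ct_fromBlocks (A : Matrix ι κ R) (B : Matrix ι l R) (C : Matrix o κ R) (D : Matrix o l R) :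
    ct σ (fromBlocks A B C D) = fromBlocks (ct σ A) (ct σ C) (ct σ B) (ct σ D) := by
  unfold ct
  rw [fromBlocks_map, fromBlocks_transpose]

lemma ct_submatrix {ι' κ' : Type*} (A : Matrix ι κ R) (f : ι' → ι) (g : κ' → κ) :
    ct σ (A.submatrix f g) = (ct σ A).submatrix g f := rfl

lemma det_ct [Fintype ι] [DecidableEq ι] (A : Matrix ι ι R) : (ct σ A).det = σ A.det := by
  unfold ct
  rw [det_transpose]
  exact (RingHom.map_det σ A).symm

/-- The plane `[[0,1],[1,c]]`. -/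
def pl (c : R) : Matrix (Fin 2) (Fin 2) R := !![0, 1; 1, c]

/-- Its inverse. -/
def plinv (c : R) : Matrix (Fin 2) (Fin 2) R := !![-c, 1; 1, 0]

lemma pl_mul_plinv (c : R) : pl c * plinv c = 1 := by
  ext i j; fin_cases i <;> fin_cases j <;> simp [pl, plinv]

lemma plinv_mul_pl (c : R) : plinv c * pl c = 1 := by
  ext i j; fin_cases i <;> fin_cases j <;> simp [pl, plinv]

lemma ct_pl {c : R} (hc : σ c = c) : ct σ (pl c) = pl c := by
  ext i j; fin_cases i <;> fin_cases j <;> simp [pl, ct, hc]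

lemma ct_plinv {c : R} (hc : σ c = c) : ct σ (plinv c) = plinv c := by
  ext i j; fin_cases i <;> fin_cases j <;> simp [plinv, ct, hc]

lemma det_pl (c : R) : (pl c).det = -1 := by
  simp [pl, det_fin_two]

/-- Splitting off a plane (Schur complement). -/
lemma schur [Fintype ι] [DecidableEq ι] (hσ : ∀ x, σ (σ x) = x) (X : Matrix ι ι R)
    (Y : Matrix ι (Fin 2) R) {c : R} (hc : σ c = c) :
    ct σ (fromBlocks 1 0 (-(plinv c * ct σ Y)) 1) * fromBlocks X Y (ct σ Y) (pl c) *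
      fromBlocks 1 0 (-(plinv c * ct σ Y)) 1 =
      fromBlocks (X - Y * plinv c * ct σ Y) 0 0 (pl c) := by
  rw [ct_fromBlocks, ct_one, ct_zero, ct_neg, ct_mul, ct_ct σ hσ, ct_plinv σ hc, ct_one,
    fromBlocks_multiply, fromBlocks_multiply]
  have h1 : pl c * (plinv c * ct σ Y) = ct σ Y := by
    rw [← Matrix.mul_assoc, pl_mul_plinv, Matrix.one_mul]
  have h2 : Y * plinv c * pl c = Y := by
    rw [Matrix.mul_assoc, plinv_mul_pl, Matrix.mul_one]
  congr 1
  · simp only [Matrix.one_mul, Matrix.mul_one, Matrix.neg_mul, Matrix.mul_neg, h2]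
    simp [sub_eq_add_neg]
  · simp only [Matrix.one_mul, Matrix.mul_one, Matrix.neg_mul, h2, Matrix.mul_zero]
    simp
  · simp only [Matrix.zero_mul, Matrix.one_mul, Matrix.mul_one, Matrix.mul_neg, zero_add]
    rw [h1]
    simp
  · simp

lemma schur_inv [Fintype ι] [DecidableEq ι] (W : Matrix (Fin 2) ι R) :
    (fromBlocks 1 0 (-W) 1 : Matrix (ι ⊕ Fin 2) (ι ⊕ Fin 2) R) * fromBlocks 1 0 W 1 = 1 := by
  rw [fromBlocks_multiply]
  simp [← fromBlocks_one]

section Step

variable [Fintype κ] [DecidableEq κ]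

/-- The new basis, index type `κ ⊕ {i, j}`; the plane is `{w, u}`. -/
def stE (a α β ε δ : R) : Matrix ((κ ⊕ Fin 2) ⊕ Fin 2) ((κ ⊕ Fin 2) ⊕ Fin 2) R :=
  fromBlocks (fromBlocks 1 0 0 !![-σ β, 0; 0, 0]) (fromRows 0 !![0, σ ε; 1, 0])
    (fromCols 0 !![σ a, 0; 0, 1]) !![α, σ δ; β, 0]

/-- Its inverse. -/
def stE' (a α β ε δ : R) : Matrix ((κ ⊕ Fin 2) ⊕ Fin 2) ((κ ⊕ Fin 2) ⊕ Fin 2) R :=
  fromBlocks (fromBlocks 1 0 0 !![-σ δ, -(σ ε * α); 0, -β]) (fromRows 0 !![σ ε, 0; 0, 1])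
    (fromCols 0 !![0, 1; σ a, -(σ β * α)]) !![0, 0; σ β, 0]

lemma stE_mul (a α β ε δ : R) (h : ε * a + δ * β = 1) :
    stE (κ := κ) σ a α β ε δ * stE' σ a α β ε δ = 1 := by
  have h' : σ ε * σ a + σ δ * σ β = 1 := by
    rw [← map_mul, ← map_mul, ← map_add, h, map_one]
  ext ((i | i) | i) ((j | j) | j)
  · simp [stE, stE', Matrix.mul_apply, Fintype.sum_sum_type, Matrix.one_apply]
  · fin_cases j <;> simp [stE, stE', Matrix.mul_apply, Fintype.sum_sum_type, Matrix.one_apply]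
  · fin_cases j <;> simp [stE, stE', Matrix.mul_apply, Fintype.sum_sum_type, Matrix.one_apply]
  · fin_cases i <;> simp [stE, stE', Matrix.mul_apply, Fintype.sum_sum_type, Matrix.one_apply]
  · fin_cases i <;> fin_cases j <;>
      simp [stE, stE', Matrix.mul_apply, Fintype.sum_sum_type, Matrix.one_apply]
    · linear_combination h'
    · ring
  · fin_cases i <;> fin_cases j <;>
      simp [stE, stE', Matrix.mul_apply, Fintype.sum_sum_type, Matrix.one_apply]
    · ring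
  · fin_cases i <;> simp [stE, stE', Matrix.mul_apply, Fintype.sum_sum_type, Matrix.one_apply]
  · fin_cases i <;> fin_cases j <;>
      simp [stE, stE', Matrix.mul_apply, Fintype.sum_sum_type, Matrix.one_apply]
    · ring
    · linear_combination (-α) * h'
  · fin_cases i <;> fin_cases j <;>
      simp [stE, stE', Matrix.mul_apply, Fintype.sum_sum_type, Matrix.one_apply]
    · linear_combination h'

/-- Neighbour step on the index type `κ ⊕ {i, j}`. -/
lemma step_aux (hσ : ∀ x, σ (σ x) = x) (A : Matrix (κ ⊕ Fin 2) (κ ⊕ Fin 2) R) (hA : ct σ A = A)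
    (α β ε δ : R)
    (h1 : A (Sum.inr 1) (Sum.inr 1) + σ α * β + σ β * α + σ β * β = 0)
    (h2 : ε * A (Sum.inr 0) (Sum.inr 1) + δ * β = 1) :
    ∃ (A' : Matrix (κ ⊕ Fin 2) (κ ⊕ Fin 2) R) (c : R)
      (P Q : Matrix ((κ ⊕ Fin 2) ⊕ Fin 2) ((κ ⊕ Fin 2) ⊕ Fin 2) R),
      ct σ A' = A' ∧ σ c = c ∧ P * Q = 1 ∧ Q * P = 1 ∧
      ct σ P * fromBlocks A' 0 0 (pl c) * P = fromBlocks A 0 0 (pl 1) ∧
      P *ᵥ (Sum.elim (Pi.single (Sum.inr 1) 1) ![α, β]) = Pi.single (Sum.inr 0) 1 := by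
  set E := stE (κ := κ) σ (A (Sum.inr 0) (Sum.inr 1)) α β ε δ with hE
  set E' := stE' (κ := κ) σ (A (Sum.inr 0) (Sum.inr 1)) α β ε δ with hE'
  have hEE' : E * E' = 1 := stE_mul σ _ α β ε δ h2
  have hE'E : E' * E = 1 := mul_eq_one_comm.mp hEE'
  set N : Matrix ((κ ⊕ Fin 2) ⊕ Fin 2) ((κ ⊕ Fin 2) ⊕ Fin 2) R := fromBlocks A 0 0 (pl 1) with hN
  have hNs : ct σ N = N := by
    rw [hN, ct_fromBlocks, hA, ct_zero, ct_zero, ct_pl σ (map_one σ)]
  set G := ct σ E * N * E with hG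
  have hGs : ct σ G = G := by
    rw [hG, ct_mul, ct_mul, ct_ct σ hσ, hNs, Matrix.mul_assoc]
  have hAij : ∀ i j, σ (A i j) = A j i := by
    intro i j
    have := congrFun (congrFun hA j) i
    rwa [ct_apply] at this
  set c : R := ε * σ ε * A (Sum.inr 0) (Sum.inr 0) with hc
  have hcs : σ c = c := by
    rw [hc, map_mul, map_mul, hσ, hAij]; ring
  have h2' : σ ε * A (Sum.inr 1) (Sum.inr 0) + σ δ * σ β = 1 := by
    rw [← hAij, ← map_mul, ← map_mul, ← map_add, h2, map_one]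
  have hG22 : G.toBlocks₂₂ = pl c := by
    ext i j
    fin_cases i <;> fin_cases j <;>
      simp [hG, hE, hN, stE, pl, toBlocks₂₂, Matrix.mul_apply, Fintype.sum_sum_type, ct_apply]
    · linear_combination h1
    · linear_combination h2'
    · rw [hσ, hσ]; linear_combination h2
    · rw [hσ, hc]; ring
  have hG' : G = fromBlocks G.toBlocks₁₁ G.toBlocks₁₂ (ct σ G.toBlocks₁₂) (pl c) := by
    conv_lhs => rw [← fromBlocks_toBlocks G, hG22]
    congr 1
    ext i j
    have := congrFun (congrFun hGs (Sum.inr i)) (Sum.inl j)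
    exact this.symm
  set Y := G.toBlocks₁₂ with hY
  set W := plinv c * ct σ Y with hW
  set F : Matrix ((κ ⊕ Fin 2) ⊕ Fin 2) ((κ ⊕ Fin 2) ⊕ Fin 2) R := fromBlocks 1 0 (-W) 1 with hF
  set F' : Matrix ((κ ⊕ Fin 2) ⊕ Fin 2) ((κ ⊕ Fin 2) ⊕ Fin 2) R := fromBlocks 1 0 W 1 with hF'
  have hFF' : F * F' = 1 := schur_inv W
  have hF'F : F' * F = 1 := mul_eq_one_comm.mp hFF'
  have hS := schur σ hσ G.toBlocks₁₁ Y hcs
  rw [← hG'] at hS
  have hPQ : (F' * E') * (E * F) = 1 := by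
    rw [Matrix.mul_assoc, ← Matrix.mul_assoc E', hE'E, Matrix.one_mul, hF'F]
  have hQP : (E * F) * (F' * E') = 1 := mul_eq_one_comm.mp hPQ
  refine ⟨G.toBlocks₁₁ - Y * plinv c * ct σ Y, c, F' * E', E * F, ?_, hcs, hPQ, hQP, ?_, ?_⟩
  · have : ct σ (G.toBlocks₁₁ - Y * plinv c * ct σ Y) =
        ct σ G.toBlocks₁₁ - ct σ (Y * plinv c * ct σ Y) := by
      ext i j; simp [ct_apply]
    rw [this, ct_mul, ct_mul, ct_ct σ hσ, ct_plinv σ hcs, Matrix.mul_assoc]
    congr 1
    ext i j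
    exact congrFun (congrFun hGs (Sum.inl i)) (Sum.inl j)
  · rw [← hS, hG]
    have e1 : ct σ (F' * E') * (ct σ F * (ct σ E * N * E) * F) * (F' * E') =
        (ct σ (F' * E') * ct σ (E * F)) * N * ((E * F) * (F' * E')) := by
      rw [ct_mul σ E F]
      simp only [Matrix.mul_assoc]
    rw [e1, ← ct_mul, hQP, ct_one, Matrix.one_mul, Matrix.mul_one]
  · have hz : (E * F) *ᵥ Pi.single (Sum.inr 0) 1 = Sum.elim (Pi.single (Sum.inr 1) 1) ![α, β] := by
      rw [← Matrix.mulVec_mulVec]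
      have h3 : F *ᵥ Pi.single (Sum.inr 0) 1 = Pi.single (Sum.inr 0) 1 := by
        rw [Matrix.mulVec_single_one]
        ext (i | i)
        · simp [hF]
        · fin_cases i <;> simp [hF, Matrix.one_apply]
      rw [h3, Matrix.mulVec_single_one]
      ext ((i | i) | i)
      · simp [hE, stE]
      · fin_cases i <;> simp [hE, stE]
      · fin_cases i <;> simp [hE, stE]
    rw [← hz, Matrix.mulVec_mulVec, hPQ, Matrix.one_mulVec]

end Step

section Reindex

variable [Fintype ι] [DecidableEq ι]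

/-- `ι ≃ {l // l ≠ i, j} ⊕ {i, j}`. -/
def splitEquiv (i j : ι) (hij : i ≠ j) : ι ≃ {l : ι // l ≠ i ∧ l ≠ j} ⊕ Fin 2 where
  toFun x := if h : x = i then Sum.inr 0 else if h' : x = j then Sum.inr 1 else Sum.inl ⟨x, h, h'⟩
  invFun x := Sum.elim (fun l => l.1) ![i, j] x
  left_inv x := by
    by_cases h : x = i
    · simp [h]
    · by_cases h' : x = j
      · have : ¬ j = i := fun h => hij h.symm
        simp [h', this]
      · simp [h, h']
  right_inv x := by
    rcases x with x | x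
    · simp [x.2.1, x.2.2]
    · have : ¬ j = i := fun h => hij h.symm
      fin_cases x <;> simp [this]

/-- Neighbour step. -/
lemma step (hσ : ∀ x, σ (σ x) = x) (A : Matrix ι ι R) (hA : ct σ A = A) (i j : ι) (hij : i ≠ j)
    (α β ε δ : R)
    (h1 : A j j + σ α * β + σ β * α + σ β * β = 0)
    (h2 : ε * A i j + δ * β = 1) :
    ∃ (A' : Matrix ι ι R) (c : R) (P Q : Matrix (ι ⊕ Fin 2) (ι ⊕ Fin 2) R),
      ct σ A' = A' ∧ σ c = c ∧ P * Q = 1 ∧ Q * P = 1 ∧
      ct σ P * fromBlocks A' 0 0 (pl c) * P = fromBlocks A 0 0 (pl 1) ∧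
      P *ᵥ (Sum.elim (Pi.single j 1) ![α, β]) = Pi.single (Sum.inr 0) 1 := by
  set e := splitEquiv i j hij with he
  have hei : e.symm (Sum.inr 0) = i := by simp [he, splitEquiv]
  have hej : e.symm (Sum.inr 1) = j := by simp [he, splitEquiv]
  have hej' : e j = Sum.inr 1 := by rw [← Equiv.eq_symm_apply]; exact hej.symm
  set f := Equiv.sumCongr e (Equiv.refl (Fin 2)) with hf
  obtain ⟨A', c, P, Q, hA', hc, hPQ, hQP, hP, hz⟩ := step_aux σ hσ (A.submatrix e.symm e.symm)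
    (by rw [ct_submatrix, hA]) α β ε δ (by rw [submatrix_apply, hej]; exact h1)
    (by rw [submatrix_apply, hei, hej]; exact h2)
  refine ⟨A'.submatrix e e, c, P.submatrix f f, Q.submatrix f f, ?_, hc, ?_, ?_, ?_, ?_⟩
  · rw [ct_submatrix, hA']
  · rw [submatrix_mul_equiv, hPQ, submatrix_one_equiv]
  · rw [submatrix_mul_equiv, hQP, submatrix_one_equiv]
  · have h3 : fromBlocks (A'.submatrix e e) 0 0 (pl c) = (fromBlocks A' 0 0 (pl c)).submatrix f f := by
      ext (x | x) (y | y) <;> simp [hf]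
    have h4 : fromBlocks A 0 0 (pl 1) =
        (fromBlocks (A.submatrix e.symm e.symm) 0 0 (pl 1)).submatrix f f := by
      ext (x | x) (y | y) <;> simp [hf]
    rw [h3, h4, ct_submatrix, submatrix_mul_equiv, submatrix_mul_equiv, hP]
  · have h5 : (Sum.elim (Pi.single j 1) ![α, β] : ι ⊕ Fin 2 → R) =
        (Sum.elim (Pi.single (Sum.inr 1) 1) ![α, β]) ∘ f := by
      ext (x | x)
      · simp only [Sum.elim_inl, Function.comp_apply, hf, Equiv.sumCongr_apply, Sum.map_inl]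
        by_cases hx : x = j
        · rw [hx, hej']; simp
        · rw [Pi.single_eq_of_ne hx, Pi.single_eq_of_ne]
          intro h
          apply hx
          rw [← hej', e.apply_eq_iff_eq] at h
          exact h
      · simp [hf]
    rw [h5]
    ext x
    have h6 := congrFun hz (f x)
    have h7 : (P.submatrix f f *ᵥ ((Sum.elim (Pi.single (Sum.inr 1) 1) ![α, β]) ∘ f)) x =
        (P *ᵥ (Sum.elim (Pi.single (Sum.inr 1) 1) ![α, β])) (f x) := by
      simp only [mulVec, dotProduct, submatrix_apply, Function.comp_apply]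
      exact Equiv.sum_comp f (fun y => P (f x) y * (Sum.elim (Pi.single (Sum.inr 1) 1) ![α, β]) y)
    rw [h7, h6]
    rcases x with x | x
    · simp [hf]
    · simp [hf, Pi.single_apply]

/-- `z^⊥/z` is determined by `z`. -/
lemma uniq (D M' : Matrix ι ι R) (T : Matrix (ι ⊕ Fin 2) (ι ⊕ Fin 2) R) (c1 c2 : R)
    (h : ct σ T * fromBlocks D 0 0 (pl c1) * T = fromBlocks M' 0 0 (pl c2))
    (hT : T *ᵥ Pi.single (Sum.inr 0) 1 = Pi.single (Sum.inr 0) 1) :
    ct σ T.toBlocks₁₁ * D * T.toBlocks₁₁ = M' := by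
  rw [← fromBlocks_toBlocks T, ct_fromBlocks, fromBlocks_multiply, fromBlocks_multiply,
    fromBlocks_inj] at h
  obtain ⟨h11, -, h21, -⟩ := h
  simp only [Matrix.mul_zero, add_zero, zero_add] at h11 h21
  have hcol : ∀ x, T x (Sum.inr 0) = (Pi.single (Sum.inr 0) 1 : ι ⊕ Fin 2 → R) x := by
    intro x
    rw [← hT, mulVec_single_one]; rfl
  have h12 : ∀ l, T.toBlocks₁₂ l 0 = 0 := by
    intro l
    have := hcol (Sum.inl l)
    simpa [toBlocks₁₂] using this
  have h220 : T.toBlocks₂₂ 0 0 = 1 := by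
    have := hcol (Sum.inr 0)
    simpa [toBlocks₂₂] using this
  have h221 : T.toBlocks₂₂ 1 0 = 0 := by
    have := hcol (Sum.inr 1)
    simpa [toBlocks₂₂] using this
  have hrow : ∀ l, T.toBlocks₂₁ 1 l = 0 := by
    intro l
    have := congrFun (congrFun h21 0) l
    simp only [Matrix.add_apply, Matrix.zero_apply] at this
    have e1 : (ct σ T.toBlocks₁₂ * D * T.toBlocks₁₁) 0 l = 0 := by
      rw [Matrix.mul_assoc, Matrix.mul_apply]
      apply Finset.sum_eq_zero
      intro x _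
      rw [ct_apply, h12, map_zero, zero_mul]
    have e2 : (ct σ T.toBlocks₂₂ * pl c1 * T.toBlocks₂₁) 0 l = T.toBlocks₂₁ 1 l := by
      rw [Matrix.mul_assoc, Matrix.mul_apply, Fin.sum_univ_two, ct_apply, ct_apply, h220, h221]
      simp [pl, Matrix.mul_apply, Fin.sum_univ_two]
    rw [e1, e2, zero_add] at this
    exact this
  have hzero : ct σ T.toBlocks₂₁ * pl c1 * T.toBlocks₂₁ = 0 := by
    ext x y
    rw [Matrix.mul_assoc, Matrix.mul_apply, Fin.sum_univ_two, ct_apply, ct_apply, hrow, map_zero,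
      zero_mul, add_zero, Matrix.mul_apply, Fin.sum_univ_two, hrow]
    simp [pl]
  rw [hzero, add_zero] at h11
  exact h11

end Reindex

end Generic

end Pool.Agent.Lib.MP_800ada_gt
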