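import Pool.Agent.Lib.MP_800ada_gt.Main

/-!
# MP_800ada_gt: presentations of pairings, knots (Seifert matrices)
-/

namespace Pool.Agent.Lib.MP_800ada_gt

open Matrix LaurentPolynomial

lemma Presents.of_liso {n : ℕ} {A B : Matrix (Fin n) (Fin n) Lam} {H : Type} [AddCommGroup H]
    [Module Lam H] {lam : H → H → FracMod Lam} (hA : Presents A lam) (hB : ct bar B = B)
    (hdB : B.det ≠ 0) (h : LIso bar A B) : Presents B lam := by
  obtain ⟨hA1, hA2, f, hf⟩ := hA
  obtain ⟨g, hg⟩ := h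
  refine ⟨hB, hdB, g.symm.trans f, ?_⟩
  intro a b
  obtain ⟨a1, ha1⟩ := Submodule.Quotient.mk_surjective _ (g.symm (Submodule.Quotient.mk a))
  obtain ⟨b1, hb1⟩ := Submodule.Quotient.mk_surjective _ (g.symm (Submodule.Quotient.mk b))
  rw [LinearEquiv.trans_apply, LinearEquiv.trans_apply, ← ha1, ← hb1, hf]
  apply hg
  · rw [ha1, LinearEquiv.apply_symm_apply]
  · rw [hb1, LinearEquiv.apply_symm_apply]

/-- If `1 - t` acts surjectively then `A(1)` is unimodular. -/
lemma Presents.unimodular {n : ℕ} {A : Matrix (Fin n) (Fin n) Lam} {H : Type} [AddCommGroup H]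
    [Module Lam H] {lam : H → H → FracMod Lam} (hA : Presents A lam)
    (hH : OneSubOnto H) : IsUnit (ev1 A.det) := by
  obtain ⟨-, -, f, -⟩ := hA
  have key : ∀ v : Fin n → Lam, ∃ x : Fin n → ℤ, (A.map ev1) *ᵥ x = fun i => ev1 (v i) := by
    intro v
    obtain ⟨y, hy⟩ := hH (f (Submodule.Quotient.mk v))
    obtain ⟨y1, hy1⟩ := Submodule.Quotient.mk_surjective _ (f.symm y)
    have h1 : (Submodule.Quotient.mk v : Cok A) = Submodule.Quotient.mk ((1 - T 1 : Lam) • y1) := by
      rw [Submodule.Quotient.mk_smul, hy1, ← f.symm.map_smul, ← hy, LinearEquiv.symm_apply_apply]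
    rw [Submodule.Quotient.eq] at h1
    obtain ⟨x, hx⟩ := h1
    refine ⟨fun i => ev1 (x i), ?_⟩
    rw [← ev1_mulVec]
    ext i
    have : A *ᵥ x = v - (1 - T 1 : Lam) • y1 := hx
    rw [this]
    simp [ev1_T]
  choose x hx using fun i : Fin n => key (Pi.single i 1)
  have hright : (A.map ev1) * (Matrix.of fun a b => x b a) = 1 := by
    ext a b
    have := congrFun (hx b) a
    rw [Matrix.mul_apply]
    simp only [Matrix.of_apply]
    have e : ∑ j, (A.map ev1) a j * x b j = ((A.map ev1) *ᵥ x b) a := rfl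
    rw [e, this, Matrix.one_apply, Pi.single_apply]
    split_ifs <;> simp
  rw [← det_map_ev1]
  have h2 := congrArg Matrix.det hright
  rw [det_mul, det_one] at h2
  exact IsUnit.of_mul_eq_one _ h2

lemma ev1_seif {m : ℕ} (V : Matrix (Fin m) (Fin m) ℤ) : (seif V).map ev1 = V - Vᵀ := by
  ext i j
  simp [seif, ev1_T, ev1_C]

lemma seif_det_ne {m : ℕ} (V : Matrix (Fin m) (Fin m) ℤ) (hV : (V - Vᵀ).det = 1) :
    (seif V).det ≠ 0 := by
  intro h
  have := det_map_ev1 (seif V)
  rw [ev1_seif, hV, h, map_zero] at this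
  exact one_ne_zero this

lemma bar_seif {m : ℕ} (V : Matrix (Fin m) (Fin m) ℤ) (i j : Fin m) :
    bar (seif V i j) = - T (-1) * seif V j i := by
  simp only [seif, Matrix.sub_apply, Matrix.smul_apply, Matrix.map_apply, Matrix.transpose_apply,
    smul_eq_mul, map_sub, map_mul, bar_T, bar_C]
  linear_combination (C (V j i) : Lam) * T_mul_T

lemma blVal_add_right {m : ℕ} (V : Matrix (Fin m) (Fin m) ℤ) (hV : (V - Vᵀ).det = 1)
    (a b x : Fin m → Lam) : blVal V a (b + (seif V) *ᵥ x) = blVal V a b := by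
  unfold blVal
  set φ := algebraMap Lam (FractionRing Lam) with hφ
  have h1 : (fun i => φ ((b + (seif V) *ᵥ x) i)) =
      (fun i => φ (b i)) + ((seif V).map φ) *ᵥ (fun i => φ (x i)) := by
    rw [hφ, ← alg_mulVec]
    ext i
    simp
  rw [h1, mulVec_add, smul_mulVec, smul_mulVec, mulVec_mulVec,
    nonsing_inv_mul _ (det_map_ne _ (seif_det_ne V hV)), one_mulVec]
  apply mk_eq_of_sub (r := (fun i => bar (a i)) ⬝ᵥ ((1 - T 1 : Lam) • x))
  rw [dotProduct_add, add_sub_cancel_left]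
  simp [dotProduct, hφ]

lemma blVal_add_left {m : ℕ} (V : Matrix (Fin m) (Fin m) ℤ) (hV : (V - Vᵀ).det = 1)
    (a b x : Fin m → Lam) : blVal V (a + (seif V) *ᵥ x) b = blVal V a b := by
  unfold blVal
  set φ := algebraMap Lam (FractionRing Lam) with hφ
  have h1 : (fun i => φ (bar ((a + (seif V) *ᵥ x) i))) =
      (fun i => φ (bar (a i))) + (fun i => φ (- T (-1) * bar (x i))) ᵥ* ((seif V).map φ) := by
    ext i
    simp only [Pi.add_apply, map_add, mulVec, vecMul, dotProduct, map_sum, map_mul, bar_seif,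
      map_apply, map_neg]
    congr 1
    apply Finset.sum_congr rfl
    intro j _
    ring
  rw [h1, add_dotProduct, ← dotProduct_mulVec, smul_mulVec, mulVec_smul, mulVec_mulVec,
    mul_nonsing_inv _ (det_map_ne _ (seif_det_ne V hV)), one_mulVec]
  apply mk_eq_of_sub (r := (fun i => - T (-1) * bar (x i)) ⬝ᵥ ((1 - T 1 : Lam) • b))
  rw [add_sub_cancel_left]
  simp [dotProduct, hφ]

lemma blanch_mk {m : ℕ} (V : Matrix (Fin m) (Fin m) ℤ) (hV : (V - Vᵀ).det = 1) :
    BlanchWellDefined V := by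
  intro a b
  unfold blanch
  have h : ∀ c : Fin m → Lam, ∃ x, Quotient.out (Submodule.Quotient.mk c : Cok (seif V)) =
      c + (seif V) *ᵥ x := by
    intro c
    have h1 : (Submodule.Quotient.mk (Quotient.out (Submodule.Quotient.mk c : Cok (seif V))) :
        Cok (seif V)) = Submodule.Quotient.mk c := by
      exact Quotient.out_eq _
    rw [Submodule.Quotient.eq] at h1
    obtain ⟨x, hx⟩ := h1
    refine ⟨x, ?_⟩
    have : (seif V) *ᵥ x = _ := hx
    rw [this]
    abel
  obtain ⟨x, hx⟩ := h a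
  obtain ⟨y, hy⟩ := h b
  rw [hx, hy, blVal_add_left V hV, blVal_add_right V hV]

lemma seif_surj {m : ℕ} (V : Matrix (Fin m) (Fin m) ℤ) (hV : (V - Vᵀ).det = 1) :
    OneSubOnto (Cok (seif V)) := by
  intro x
  obtain ⟨v, rfl⟩ := Submodule.Quotient.mk_surjective _ x
  have hu : IsUnit (V - Vᵀ).det := by rw [hV]; exact isUnit_one
  set W : Matrix (Fin m) (Fin m) Lam := ((V - Vᵀ)⁻¹).map C with hW
  have h1 : (V - Vᵀ).map C * W = 1 := by
    rw [hW, ← Matrix.map_mul, mul_nonsing_inv _ hu, Matrix.map_one _ (map_zero _) (map_one _)]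
  have h2 : seif V = (V - Vᵀ).map C - (1 - T 1 : Lam) • V.map C := by
    ext1 i j
    simp only [seif, Matrix.sub_apply, Matrix.smul_apply, Matrix.map_apply, smul_eq_mul, map_sub]
    ring
  refine ⟨Submodule.Quotient.mk ((V.map C) *ᵥ (W *ᵥ v)), ?_⟩
  rw [← Submodule.Quotient.mk_smul, Submodule.Quotient.eq]
  refine ⟨W *ᵥ v, ?_⟩
  rw [mulVecLin_apply, h2, sub_mulVec, mulVec_mulVec, h1, one_mulVec, smul_mulVec]

theorem sizes_eq (hZs : ZSmallProp) (hZo : ZOddProp) (hZe : ZEvenProp)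
    {H : Type} [AddCommGroup H] [Module Lam H] (lam : H → H → FracMod Lam)
    (hH : OneSubOnto H) : sizes lam = sizes0 lam := by
  ext n
  constructor
  · rintro ⟨A, hA, -⟩
    exact ⟨A, hA⟩
  · rintro ⟨A, hA⟩
    obtain ⟨A', hA', hd', hL, hD⟩ := main_alg hZs hZo hZe A hA.1 hA.2.1 (hA.unimodular hH)
    exact ⟨A', hA.of_liso hA' hd' hL, hD⟩

end Pool.Agent.Lib.MP_800ada_gt
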