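import Pool.Agent.Lib.MP_800ada_gt.Z93b

/-!
# MP_800ada_gt: odd unimodular lattices of rank at most two
-/

namespace Pool.Agent.Lib.MP_800ada_gt

open Matrix

section
variable {ι : Type*} [Fintype ι] [DecidableEq ι]

lemma DiagPM.of_congr {M P : Matrix ι ι ℤ} (hP : IsUnit P.det) (h : DiagPM (Pᵀ * M * P)) :
    DiagPM M := by
  obtain ⟨Q, d, hQ, hd, hM⟩ := h
  have h1 : P * P⁻¹ = 1 := mul_nonsing_inv P hP
  have h2 : P⁻¹ᵀ * Pᵀ = 1 := by rw [← transpose_mul, h1, transpose_one]
  refine ⟨Q * P⁻¹, d, ?_, hd, ?_⟩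
  · rw [det_mul]
    refine hQ.mul ?_
    rw [isUnit_nonsing_inv_det_iff]; exact hP
  · calc M = (P⁻¹ᵀ * Pᵀ) * M * (P * P⁻¹) := by rw [h1, h2]; simp
      _ = P⁻¹ᵀ * (Pᵀ * M * P) * P⁻¹ := by simp only [Matrix.mul_assoc]
      _ = P⁻¹ᵀ * (Qᵀ * diagonal d * Q) * P⁻¹ := by rw [hM]
      _ = (Q * P⁻¹)ᵀ * diagonal d * (Q * P⁻¹) := by
          rw [transpose_mul]; simp only [Matrix.mul_assoc]

lemma DiagPM.of_reindex {κ : Type*} [Fintype κ] [DecidableEq κ] {M : Matrix ι ι ℤ} (e : ι ≃ κ)
    (h : DiagPM (M.submatrix e.symm e.symm)) : DiagPM M := by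
  obtain ⟨Q, d, hQ, hd, hM⟩ := h
  refine ⟨Q.submatrix e e, d ∘ e, by rw [det_submatrix_equiv_self]; exact hQ,
    fun i => hd _, ?_⟩
  have h1 : M = (M.submatrix e.symm e.symm).submatrix e e := by
    rw [submatrix_submatrix]; simp
  rw [h1, hM, ← submatrix_mul_equiv _ _ _ e, ← submatrix_mul_equiv _ _ _ e]
  congr 2
  ext i j
  by_cases hij : i = j
  · subst hij; simp
  · have : e i ≠ e j := fun h => hij (e.injective h)
    simp [diagonal_apply, hij]

lemma DiagPM.of_one (h1 : Fintype.card ι = 1) (M : Matrix ι ι ℤ) (hu : IsUnit M.det) :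
    DiagPM M := by
  have hsub : Subsingleton ι := Fintype.card_le_one_iff_subsingleton.mp h1.le
  refine ⟨1, fun i => M i i, by simp, fun i => ?_, ?_⟩
  · rw [det_eq_elem_of_card_eq_one h1 i] at hu
    exact Int.isUnit_iff.mp hu
  · ext i j
    have : i = j := Subsingleton.elim i j
    subst this
    simp

end

/-- definite case: descent on the off-diagonal entry. -/
lemma diagPM_det_one (n : ℕ) : ∀ (a b c : ℤ), b.natAbs = n → a * c - b * b = 1 →
    DiagPM (!![a, b; b, c] : Matrix (Fin 2) (Fin 2) ℤ) := by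
  induction n using Nat.strong_induction_on with
  | _ n ih =>
    intro a b c hb hdet
    by_cases hb0 : b = 0
    · subst hb0
      have hac : a * c = 1 := by linarith
      refine ⟨1, ![a, c], by simp, ?_, ?_⟩
      · intro i
        fin_cases i
        · exact Int.isUnit_iff.mp (IsUnit.of_mul_eq_one _ hac)
        · exact Int.isUnit_iff.mp (IsUnit.of_mul_eq_one _ ((mul_comm c a).trans hac))
      · ext i j
        fin_cases i <;> fin_cases j <;> simp
    · -- one of `|a|`, `|c|` is at most `|b|`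
      have ha0 : a ≠ 0 := by
        rintro rfl
        nlinarith [mul_self_nonneg b]
      have hc0 : c ≠ 0 := by
        rintro rfl
        nlinarith [mul_self_nonneg b]
      have hor : a.natAbs ≤ b.natAbs ∨ c.natAbs ≤ b.natAbs := by
        by_contra hcon
        push Not at hcon
        obtain ⟨h1, h2⟩ := hcon
        have h3 : a.natAbs * c.natAbs = b.natAbs * b.natAbs + 1 := by
          have e1 : a * c = b * b + 1 := by linarith
          have e2 : (a * c).natAbs = (b * b + 1).natAbs := by rw [e1]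
          rw [Int.natAbs_mul] at e2
          rw [e2]
          have e3 : (b * b).natAbs = b.natAbs * b.natAbs := Int.natAbs_mul b b
          have e4 : 0 ≤ b * b := mul_self_nonneg b
          omega
        have hbpos : 0 < b.natAbs := Int.natAbs_pos.mpr hb0
        nlinarith
      rcases hor with h | h
      · -- replace `e2` by `e2 + k e1`
        obtain ⟨k, hk⟩ : ∃ k : ℤ, (b + k * a).natAbs < n := by
          rw [← hb]
          rcases lt_or_gt_of_ne ha0 with h1 | h1 <;> rcases lt_or_gt_of_ne hb0 with h2 | h2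
          · exact ⟨-1, by omega⟩
          · exact ⟨1, by omega⟩
          · exact ⟨1, by omega⟩
          · exact ⟨-1, by omega⟩
        have := ih _ hk a (b + k * a) (c + 2 * k * b + k ^ 2 * a) rfl (by linear_combination hdet)
        refine DiagPM.of_congr (P := !![1, k; 0, 1]) (by simp [det_fin_two]) ?_
        have e : (!![1, k; 0, 1] : Matrix (Fin 2) (Fin 2) ℤ)ᵀ * !![a, b; b, c] * !![1, k; 0, 1] =
            !![a, b + k * a; b + k * a, c + 2 * k * b + k ^ 2 * a] := by
          ext i j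
          fin_cases i <;> fin_cases j <;>
            simp [mul_apply, Fin.sum_univ_two] <;> ring
        rw [e]; exact this
      · obtain ⟨k, hk⟩ : ∃ k : ℤ, (b + k * c).natAbs < n := by
          rw [← hb]
          rcases lt_or_gt_of_ne hc0 with h1 | h1 <;> rcases lt_or_gt_of_ne hb0 with h2 | h2
          · exact ⟨-1, by omega⟩
          · exact ⟨1, by omega⟩
          · exact ⟨1, by omega⟩
          · exact ⟨-1, by omega⟩
        have := ih _ hk (a + 2 * k * b + k ^ 2 * c) (b + k * c) c rfl (by linear_combination hdet)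
        refine DiagPM.of_congr (P := !![1, 0; k, 1]) (by simp [det_fin_two]) ?_
        have e : (!![1, 0; k, 1] : Matrix (Fin 2) (Fin 2) ℤ)ᵀ * !![a, b; b, c] * !![1, 0; k, 1] =
            !![a + 2 * k * b + k ^ 2 * c, b + k * c; b + k * c, c] := by
          ext i j
          fin_cases i <;> fin_cases j <;>
            simp [mul_apply, Fin.sum_univ_two] <;> ring
        rw [e]; exact this

lemma diagPM_two (T2 : T2Prop) (M : Matrix (Fin 2) (Fin 2) ℤ) (hs : M.IsSymm) (hu : IsUnit M.det)
    (ho : ∃ i, Odd (M i i)) : DiagPM M := by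
  have h10 : M 1 0 = M 0 1 := hs.apply 0 1
  have hM : M = !![M 0 0, M 0 1; M 0 1, M 1 1] := by
    ext i j
    fin_cases i <;> fin_cases j <;> simp [h10]
  have hdet : M.det = M 0 0 * M 1 1 - M 0 1 * M 0 1 := by rw [det_fin_two, h10]
  rcases Int.isUnit_iff.mp hu with h | h
  · rw [hM]
    exact diagPM_det_one _ _ _ _ rfl (by rw [← hdet, h])
  · have hform : ∀ x y : ℤ, (![x, y] : Fin 2 → ℤ) ⬝ᵥ M *ᵥ ![x, y] =
        M 0 0 * x ^ 2 + 2 * M 0 1 * x * y + M 1 1 * y ^ 2 := by
      intro x y
      simp only [mulVec, dotProduct, Fin.sum_univ_two, cons_val_zero, cons_val_one, h10]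
      ring
    rw [h] at hdet
    set a := M 0 0 with ha
    set b := M 0 1 with hb
    set c := M 1 1 with hc
    by_cases ha0 : a = 0
    · rw [ha0] at hdet hform
      have hbb : b * b = 1 := by linarith
      refine T2 (Fin 2) M hs hu ho ⟨![b * (|c| + 1), 1], ?_⟩ ⟨![-b * (|c| + 1), 1], ?_⟩
      · rw [hform]
        have := neg_abs_le c
        have e : 0 * (b * (|c| + 1)) ^ 2 + 2 * b * (b * (|c| + 1)) * 1 + c * 1 ^ 2 =
            2 * (b * b) * (|c| + 1) + c := by ring
        rw [e, hbb]; linarith [abs_nonneg c]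
      · rw [hform]
        have := le_abs_self c
        have e : 0 * (-b * (|c| + 1)) ^ 2 + 2 * b * (-b * (|c| + 1)) * 1 + c * 1 ^ 2 =
            -2 * (b * b) * (|c| + 1) + c := by ring
        rw [e, hbb]; linarith [abs_nonneg c]
    · have e1 : (![1, 0] : Fin 2 → ℤ) ⬝ᵥ M *ᵥ ![1, 0] = a := by rw [hform]; ring
      have e2 : (![-b, a] : Fin 2 → ℤ) ⬝ᵥ M *ᵥ ![-b, a] = -a := by
        rw [hform]
        linear_combination (-a) * hdet
      rcases lt_or_gt_of_ne ha0 with h' | h'
      · exact T2 (Fin 2) M hs hu ho ⟨_, by rw [e2]; linarith⟩ ⟨_, by rw [e1]; exact h'⟩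
      · exact T2 (Fin 2) M hs hu ho ⟨_, by rw [e1]; exact h'⟩ ⟨_, by rw [e2]; linarith⟩

theorem zsmall (T2 : T2Prop) : ZSmallProp := by
  intro ι _ _ M hs hu ho hc
  obtain ⟨i, hi⟩ := ho
  have hpos : 0 < Fintype.card ι := Fintype.card_pos_iff.mpr ⟨i⟩
  rcases (by omega : Fintype.card ι = 1 ∨ Fintype.card ι = 2) with h1 | h2
  · exact DiagPM.of_one h1 M hu
  · let e : ι ≃ Fin 2 := Fintype.equivFinOfCardEq h2
    refine DiagPM.of_reindex e (diagPM_two T2 _ (hs.submatrix e.symm)
      (by rw [det_submatrix_equiv_self]; exact hu) ⟨e i, ?_⟩)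
    simpa using hi

end Pool.Agent.Lib.MP_800ada_gt
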