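import Pool.Agent.Lib.MP_800ada_gt.Small90

/-!
# MP_800ada_gt: odd indefinite unimodular lattices are diagonalizable, given isotropic vectors
-/

namespace Pool.Agent.Lib.MP_800ada_gt

open Matrix

/-- indefinite unimodular integral forms are isotropic. -/
def IsoProp : Prop := ∀ (ι : Type) [Fintype ι] [DecidableEq ι] (M : Matrix ι ι ℤ), M.IsSymm →
  IsUnit M.det → (∃ x : ι → ℤ, 0 < x ⬝ᵥ M *ᵥ x) → (∃ x : ι → ℤ, x ⬝ᵥ M *ᵥ x < 0) →
  ∃ x : ι → ℤ, x ≠ 0 ∧ x ⬝ᵥ M *ᵥ x = 0

section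
variable {ι κ o : Type*} [Fintype ι] [DecidableEq ι] [Fintype κ] [DecidableEq κ]
  [Fintype o] [DecidableEq o]

/-- isometry of integral forms. -/
def ZIso (M : Matrix ι ι ℤ) (N : Matrix κ κ ℤ) : Prop :=
  ∃ (P : Matrix κ ι ℤ) (Q : Matrix ι κ ℤ), P * Q = 1 ∧ Q * P = 1 ∧ M = Pᵀ * N * P

lemma form_pull (P : Matrix κ ι ℤ) (N : Matrix κ κ ℤ) (x y : ι → ℤ) :
    x ⬝ᵥ (Pᵀ * N * P) *ᵥ y = (P *ᵥ x) ⬝ᵥ N *ᵥ (P *ᵥ y) := by
  rw [Matrix.mul_assoc, ← mulVec_mulVec, dotProduct_mulVec, vecMul_transpose, ← mulVec_mulVec]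

lemma ZIso.refl (M : Matrix ι ι ℤ) : ZIso M M := ⟨1, 1, by simp, by simp, by simp⟩

lemma ZIso.symm {M : Matrix ι ι ℤ} {N : Matrix κ κ ℤ} (h : ZIso M N) : ZIso N M := by
  obtain ⟨P, Q, h1, h2, h3⟩ := h
  refine ⟨Q, P, h2, h1, ?_⟩
  have h4 : Qᵀ * Pᵀ = 1 := by rw [← transpose_mul, h1, transpose_one]
  rw [h3]
  calc N = (Qᵀ * Pᵀ) * N * (P * Q) := by rw [h1, h4]; simp
    _ = Qᵀ * (Pᵀ * N * P) * Q := by simp only [Matrix.mul_assoc]

lemma ZIso.trans {M : Matrix ι ι ℤ} {N : Matrix κ κ ℤ} {K : Matrix o o ℤ} (h : ZIso M N)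
    (h' : ZIso N K) : ZIso M K := by
  obtain ⟨P, Q, h1, h2, h3⟩ := h
  obtain ⟨P', Q', h1', h2', h3'⟩ := h'
  refine ⟨P' * P, Q * Q', ?_, ?_, ?_⟩
  · rw [Matrix.mul_assoc, ← Matrix.mul_assoc P, h1, Matrix.one_mul, h1']
  · rw [Matrix.mul_assoc, ← Matrix.mul_assoc Q', h2', Matrix.one_mul, h2]
  · rw [h3, h3', transpose_mul]; simp only [Matrix.mul_assoc]

lemma ZIso.reindex (M : Matrix ι ι ℤ) (e : ι ≃ κ) : ZIso M (M.submatrix e.symm e.symm) := by
  refine ⟨(1 : Matrix ι ι ℤ).submatrix e.symm id, (1 : Matrix ι ι ℤ).submatrix id e.symm,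
    ?_, ?_, ?_⟩
  · ext a b
    simp [mul_apply, one_apply]
  · have : (1 : Matrix ι ι ℤ).submatrix id e.symm * (1 : Matrix ι ι ℤ).submatrix e.symm id =
      (1 * 1 : Matrix ι ι ℤ).submatrix id id := submatrix_mul_equiv _ _ _ _ _
    rw [this]; simp
  · ext a b
    have h1 : ((1 : Matrix ι ι ℤ).submatrix e.symm id)ᵀ * M.submatrix e.symm e.symm =
        M.submatrix id e.symm := by
      rw [transpose_submatrix, transpose_one]
      have := submatrix_mul_equiv (1 : Matrix ι ι ℤ) M (id : ι → ι) e.symm e.symm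
      rw [this, Matrix.one_mul]
    have h2 : M.submatrix id e.symm * (1 : Matrix ι ι ℤ).submatrix e.symm id = M := by
      have := submatrix_mul_equiv M (1 : Matrix ι ι ℤ) (id : ι → ι) e.symm (id : ι → ι)
      rw [this, Matrix.mul_one]; simp
    rw [h1, h2]

/-- exchange of two orthogonal summands. -/
def swap3 (α β γ : Type*) : α ⊕ (β ⊕ γ) ≃ β ⊕ (α ⊕ γ) where
  toFun := Sum.elim (fun a => Sum.inr (Sum.inl a)) (Sum.elim (fun b => Sum.inl b)
    (fun c => Sum.inr (Sum.inr c)))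
  invFun := Sum.elim (fun a => Sum.inr (Sum.inl a)) (Sum.elim (fun b => Sum.inl b)
    (fun c => Sum.inr (Sum.inr c)))
  left_inv := by rintro (a | b | c) <;> rfl
  right_inv := by rintro (a | b | c) <;> rfl

lemma ZIso.swap (A : Matrix ι ι ℤ) (B : Matrix κ κ ℤ) (C : Matrix o o ℤ) :
    ZIso (fromBlocks A 0 0 (fromBlocks B 0 0 C)) (fromBlocks B 0 0 (fromBlocks A 0 0 C)) := by
  have h := ZIso.reindex (fromBlocks A 0 0 (fromBlocks B 0 0 C)) (swap3 ι κ o)
  have e : (fromBlocks A 0 0 (fromBlocks B 0 0 C)).submatrix (swap3 ι κ o).symm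
      (swap3 ι κ o).symm = fromBlocks B 0 0 (fromBlocks A 0 0 C) := by
    ext (a | a | a) (b | b | b) <;> rfl
  rw [e] at h
  exact h

lemma ZIso.card {M : Matrix ι ι ℤ} {N : Matrix κ κ ℤ} (h : ZIso M N) :
    Fintype.card ι = Fintype.card κ := by
  obtain ⟨P, Q, h1, h2, -⟩ := h
  exact Matrix.square_of_invertible Q P h2 h1

lemma DiagPM.of_iso {M : Matrix ι ι ℤ} {N : Matrix κ κ ℤ} (h : ZIso M N) (hN : DiagPM N) :
    DiagPM M := by
  have hc := h.card
  obtain ⟨P, Q, h1, h2, h3⟩ := h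
  let e : ι ≃ κ := Fintype.equivOfCardEq hc
  refine DiagPM.of_reindex e.symm.symm ?_
  have h4 : M.submatrix e.symm e.symm = (P.submatrix id e.symm)ᵀ * N * P.submatrix id e.symm := by
    rw [h3]
    ext i j
    simp [mul_apply]
  have h5 : IsUnit (P.submatrix id e.symm).det := by
    have : Q.submatrix e.symm id * P.submatrix id e.symm = 1 := by
      have h6 : (Q * P).submatrix e.symm e.symm = (1 : Matrix κ κ ℤ) := by rw [h2]; simp
      rw [← h6]
      ext i j
      simp [mul_apply]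
    have := congrArg Matrix.det this
    rw [det_mul, det_one, mul_comm] at this
    exact IsUnit.of_mul_eq_one _ this
  have h7 : IsUnit (P.submatrix id e.symm)⁻¹.det := by
    rw [isUnit_nonsing_inv_det_iff]; exact h5
  refine DiagPM.of_congr (P := (P.submatrix id e.symm)⁻¹) h7 ?_
  have h8 : P.submatrix id e.symm * (P.submatrix id e.symm)⁻¹ = 1 := mul_nonsing_inv _ h5
  have h9 : (P.submatrix id e.symm)⁻¹ᵀ * (P.submatrix id e.symm)ᵀ = 1 := by
    rw [← transpose_mul, h8, transpose_one]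
  have h10 : (P.submatrix id e.symm)⁻¹ᵀ * M.submatrix e.symm.symm.symm e.symm.symm.symm *
      (P.submatrix id e.symm)⁻¹ = N := by
    rw [Equiv.symm_symm, h4]
    calc _ = ((P.submatrix id e.symm)⁻¹ᵀ * (P.submatrix id e.symm)ᵀ) * N *
          (P.submatrix id e.symm * (P.submatrix id e.symm)⁻¹) := by
            simp only [Matrix.mul_assoc]
      _ = N := by rw [h8, h9]; simp
  rw [h10]
  exact hN

lemma DiagPM.sum {A : Matrix ι ι ℤ} {B : Matrix κ κ ℤ} (hA : DiagPM A) (hB : DiagPM B) :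
    DiagPM (fromBlocks A 0 0 B) := by
  obtain ⟨P, d, hP, hd, hA⟩ := hA
  obtain ⟨P', d', hP', hd', hB⟩ := hB
  refine ⟨fromBlocks P 0 0 P', Sum.elim d d', ?_, ?_, ?_⟩
  · rw [det_fromBlocks_zero₂₁]; exact hP.mul hP'
  · rintro (i | i)
    · exact hd i
    · exact hd' i
  · rw [← fromBlocks_diagonal, fromBlocks_transpose, fromBlocks_multiply, fromBlocks_multiply,
      hA, hB]
    simp

/-- the rank one form. -/
def one1 (ε : ℤ) : Matrix Unit Unit ℤ := fun _ _ => ε

lemma DiagPM.one1 {ε : ℤ} (h : ε = 1 ∨ ε = -1) : DiagPM (one1 ε) :=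
  ⟨1, fun _ => ε, by simp, fun _ => h, by ext i j; simp [MP_800ada_gt.one1]⟩

lemma form_blocks (A : Matrix ι ι ℤ) (B : Matrix κ κ ℤ) (x y : ι ⊕ κ → ℤ) :
    x ⬝ᵥ fromBlocks A 0 0 B *ᵥ y = (x ∘ Sum.inl) ⬝ᵥ A *ᵥ (y ∘ Sum.inl) +
      (x ∘ Sum.inr) ⬝ᵥ B *ᵥ (y ∘ Sum.inr) := by
  rw [fromBlocks_mulVec]
  simp [dotProduct, Fintype.sum_sum_type]

lemma form_one1 (ε : ℤ) (x y : Unit → ℤ) : x ⬝ᵥ one1 ε *ᵥ y = ε * x () * y () := by
  simp [dotProduct, mulVec, one1]; ring

/-- A symmetric integral matrix with even diagonal has even quadratic form. -/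
lemma even_form90 (M : Matrix ι ι ℤ) (hs : M.IsSymm) (he : ∀ i, Even (M i i)) (x : ι → ℤ) :
    Even (x ⬝ᵥ M *ᵥ x) := by
  have key : ∀ s : Finset ι, Even (∑ i ∈ s, ∑ j ∈ s, x i * (M i j * x j)) := by
    intro s
    induction s using Finset.induction_on with
    | empty => simp
    | insert a s ha ih =>
      rw [Finset.sum_insert ha]
      have h1 : ∀ i, ∑ j ∈ insert a s, x i * (M i j * x j) =
          x i * (M i a * x a) + ∑ j ∈ s, x i * (M i j * x j) := fun i => Finset.sum_insert ha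
      simp only [h1]
      rw [Finset.sum_add_distrib]
      have h2 : ∑ i ∈ s, x i * (M i a * x a) = ∑ j ∈ s, x a * (M a j * x j) := by
        apply Finset.sum_congr rfl
        intro i _
        rw [← hs.apply a i]
        ring
      rw [h2]
      have h3 : Even (x a * (M a a * x a)) := by
        obtain ⟨q, hq⟩ := he a
        exact ⟨x a * q * x a, by rw [hq]; ring⟩
      obtain ⟨q, hq⟩ := h3
      obtain ⟨q', hq'⟩ := ih
      refine ⟨q + q' + ∑ j ∈ s, x a * (M a j * x j), ?_⟩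
      rw [hq, hq']
      ring
  have h := key Finset.univ
  have e : x ⬝ᵥ M *ᵥ x = ∑ i, ∑ j, x i * (M i j * x j) := by
    simp only [dotProduct, mulVec, Finset.mul_sum]
  rw [e]
  exact h

/-- splitting off a vector of norm `±1`. -/
lemma split_vec (M : Matrix ι ι ℤ) (hs : M.IsSymm) (hu : IsUnit M.det) (e : ι → ℤ) (ε : ℤ)
    (hε : ε * ε = 1) (he : e ⬝ᵥ M *ᵥ e = ε) (j : ι) :
    ∃ (N : Matrix {k // k ≠ j} {k // k ≠ j} ℤ) (P : Matrix (Unit ⊕ {k // k ≠ j}) ι ℤ)
      (Q : Matrix ι (Unit ⊕ {k // k ≠ j}) ℤ), N.IsSymm ∧ IsUnit N.det ∧ P * Q = 1 ∧ Q * P = 1 ∧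
      M = Pᵀ * fromBlocks (one1 ε) 0 0 N * P ∧ P *ᵥ e = Sum.elim (fun _ => 1) 0 := by
  have hr : (ε • (M *ᵥ e)) ⬝ᵥ e = 1 := by
    rw [smul_dotProduct, dotProduct_comm, he, smul_eq_mul, hε]
  obtain ⟨P0, hP0, hP0e⟩ := exists_col j e _ hr
  set N0 := P0ᵀ * M * P0 with hN0
  have hN0s : N0.IsSymm := by
    rw [hN0, Matrix.IsSymm, transpose_mul, transpose_mul, transpose_transpose, hs.eq,
      Matrix.mul_assoc]
  have hN0u : IsUnit N0.det := by
    rw [hN0, det_mul, det_mul, det_transpose]; exact (hP0.mul hu).mul hP0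
  have hN0j : N0 j j = ε := by rw [hN0, entry_eq, hP0e, he]
  let g : ι ≃ Unit ⊕ {k // k ≠ j} :=
    (Equiv.sumCompl (fun k => k = j)).symm.trans (Equiv.sumCongr (Equiv.ofUnique _ _) (Equiv.refl _))
  have hg : g.symm (Sum.inl ()) = j := by
    simp only [g, Equiv.symm_trans_apply, Equiv.symm_symm, Equiv.sumCongr_symm,
      Equiv.sumCongr_apply, Sum.map_inl, Equiv.sumCompl_apply_inl]
    exact (((Equiv.ofUnique {k // k = j} Unit).symm ())).2
  have hgj : g j = Sum.inl () := by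
    rw [← Equiv.eq_symm_apply]; exact hg.symm
  set N1 := N0.submatrix g.symm g.symm with hN1
  have hN1u : IsUnit N1.det := by rw [hN1, det_submatrix_equiv_self]; exact hN0u
  set b : Matrix Unit {k // k ≠ j} ℤ := N1.toBlocks₁₂ with hb
  set D : Matrix {k // k ≠ j} {k // k ≠ j} ℤ := N1.toBlocks₂₂ with hD
  have hN1s : N1.IsSymm := hN0s.submatrix _
  have hN1b : N1 = fromBlocks (one1 ε) b bᵀ D := by
    rw [← fromBlocks_toBlocks N1]
    congr 1
    · ext x y
      simp [toBlocks₁₁, hN1, one1, hg, hN0j]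
    · ext x y
      have := congrFun (congrFun hN1s (Sum.inr x)) (Sum.inl y)
      rw [transpose_apply] at this
      simp only [toBlocks₂₁, of_apply, transpose_apply, hb, toBlocks₁₂]
      exact this.symm
  have hDs : Dᵀ = D := by
    ext x y
    have := congrFun (congrFun hN1s (Sum.inr x)) (Sum.inr y)
    exact this
  set N := D - ε • (bᵀ * b) with hN
  set S : Matrix (Unit ⊕ {k // k ≠ j}) (Unit ⊕ {k // k ≠ j}) ℤ := fromBlocks 1 (ε • b) 0 1 with hS
  set T : Matrix (Unit ⊕ {k // k ≠ j}) (Unit ⊕ {k // k ≠ j}) ℤ := fromBlocks 1 (-ε • b) 0 1 with hT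
  have hST : S * T = 1 := by
    rw [hS, hT, fromBlocks_multiply, ← fromBlocks_one]
    congr 1 <;> simp
  have hTS : T * S = 1 := by
    rw [hS, hT, fromBlocks_multiply, ← fromBlocks_one]
    congr 1 <;> simp
  have hε1 : ∀ A : Matrix Unit {k // k ≠ j} ℤ, one1 ε * A = ε • A := by
    intro A; ext x y; simp [one1, mul_apply]
  have hkey : N1 = Sᵀ * fromBlocks (one1 ε) 0 0 N * S := by
    rw [hN1b, hS, fromBlocks_transpose, fromBlocks_multiply, fromBlocks_multiply]
    have h1 : (ε • b)ᵀ * one1 ε = bᵀ := by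
      ext x y
      simp only [mul_apply, transpose_apply, Matrix.smul_apply, smul_eq_mul, one1,
        Finset.univ_unique, Finset.sum_singleton]
      have : (default : Unit) = y := rfl
      rw [this]
      linear_combination (b y x) * hε
    congr 1
    · simp
    · simp [hε1, smul_smul, hε]
    · rw [h1]; simp
    · simp only [h1, add_zero, one_mul, transpose_one, mul_one, hN,
        Matrix.mul_zero, zero_add, Matrix.mul_smul]
      abel
  have hdetS : S.det * T.det = 1 := by rw [← det_mul, hST, det_one]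
  have hPP : P0 * P0⁻¹ = 1 := mul_nonsing_inv P0 hP0
  have hPP' : P0⁻¹ * P0 = 1 := nonsing_inv_mul P0 hP0
  refine ⟨N, S.submatrix id g * P0⁻¹, P0 * T.submatrix g id, ?_, ?_, ?_, ?_, ?_, ?_⟩
  · rw [hN, Matrix.IsSymm, transpose_sub, transpose_smul, transpose_mul, transpose_transpose, hDs]
  · have h1 : IsUnit (Sᵀ * fromBlocks (one1 ε) 0 0 N * S).det := by rw [← hkey]; exact hN1u
    rw [det_mul, det_mul, det_fromBlocks_zero₂₁] at h1
    exact isUnit_of_mul_isUnit_right (isUnit_of_mul_isUnit_right (isUnit_of_mul_isUnit_left h1))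
  · calc S.submatrix id g * P0⁻¹ * (P0 * T.submatrix g id)
        = S.submatrix id g * (P0⁻¹ * P0) * T.submatrix g id := by simp only [Matrix.mul_assoc]
      _ = S.submatrix id g * T.submatrix g id := by rw [hPP', Matrix.mul_one]
      _ = (S * T).submatrix id id := submatrix_mul_equiv _ _ _ _ _
      _ = 1 := by rw [hST]; rfl
  · calc P0 * T.submatrix g id * (S.submatrix id g * P0⁻¹)
        = P0 * (T.submatrix g id * S.submatrix id g) * P0⁻¹ := by simp only [Matrix.mul_assoc]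
      _ = P0 * (T * S).submatrix g g * P0⁻¹ := by
          rw [show T.submatrix g id * S.submatrix id g = (T * S).submatrix g g from by
            rw [← submatrix_mul_equiv T S g (Equiv.refl _) g]; rfl]
      _ = 1 := by rw [hTS]; simp [hPP]
  · have h0 : N0 = (S.submatrix id g)ᵀ * fromBlocks (one1 ε) 0 0 N * S.submatrix id g := by
      have h1 : N0 = N1.submatrix g g := by rw [hN1, submatrix_submatrix]; simp
      rw [h1, hkey]
      ext x y
      simp [mul_apply]
    have h2 : P0⁻¹ᵀ * P0ᵀ = 1 := by rw [← transpose_mul, hPP, transpose_one]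
    calc M = (P0⁻¹ᵀ * P0ᵀ) * M * (P0 * P0⁻¹) := by rw [h2, hPP]; simp
      _ = P0⁻¹ᵀ * N0 * P0⁻¹ := by rw [hN0]; simp only [Matrix.mul_assoc]
      _ = _ := by rw [h0, transpose_mul]; simp only [Matrix.mul_assoc]
  · have h3 : P0⁻¹ *ᵥ e = Pi.single j 1 := by
      rw [← hP0e, mulVec_mulVec, hPP', one_mulVec]
    rw [← mulVec_mulVec, h3]
    ext x
    rw [mulVec_single_one, col_apply, submatrix_apply, hgj, hS]
    rcases x with x | x
    · simp
    · simp

/-- vectors of nonzero norm. -/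
lemma exists_norm_ne [Nonempty ι] (M : Matrix ι ι ℤ) (hs : M.IsSymm) (hu : IsUnit M.det) :
    ∃ x : ι → ℤ, x ⬝ᵥ M *ᵥ x ≠ 0 := by
  by_contra h
  push Not at h
  have hM : M = 0 := by
    ext i j
    have h1 := h (Pi.single i 1 + Pi.single j 1)
    have h2 := h (Pi.single i 1)
    have h3 := h (Pi.single j 1)
    simp only [add_dotProduct, mulVec_add, dotProduct_add] at h1
    rw [h2, h3, bil_symm hs (Pi.single j 1) (Pi.single i 1), bil_single] at h1
    simp only [Matrix.zero_apply]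
    linarith
  rw [hM, det_zero] at hu
  exact not_isUnit_zero hu

/-- a hyperbolic splitting: orthogonal vectors of norms `1` and `-1`. -/
lemma exists_pair (M : Matrix ι ι ℤ) (hs : M.IsSymm) (hu : IsUnit M.det) (ho : ∃ i, Odd (M i i))
    (x : ι → ℤ) (hx : x ≠ 0) (hxx : x ⬝ᵥ M *ᵥ x = 0) :
    ∃ e f : ι → ℤ, e ⬝ᵥ M *ᵥ e = 1 ∧ f ⬝ᵥ M *ᵥ f = -1 ∧ e ⬝ᵥ M *ᵥ f = 0 := by
  obtain ⟨i, hi⟩ := ho
  obtain ⟨P, hP, -, c, hc⟩ := exists_reduce Finset.univ (Finset.mem_univ i) x
  have hPP : P⁻¹ * P = 1 := nonsing_inv_mul P hP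
  have hPP' : P * P⁻¹ = 1 := mul_nonsing_inv P hP
  have hPs : P *ᵥ x = c • Pi.single i 1 := by
    ext k
    rw [hc k (Finset.mem_univ k)]
    by_cases hk : k = i
    · subst hk; simp
    · simp [hk]
  set w := P⁻¹ *ᵥ Pi.single i 1 with hw
  have hxw : x = c • w := by
    rw [hw, ← mulVec_smul, ← hPs, mulVec_mulVec, hPP, one_mulVec]
  have hc0 : c ≠ 0 := by
    rintro rfl
    rw [zero_smul] at hxw
    exact hx hxw
  have hww : w ⬝ᵥ M *ᵥ w = 0 := by
    rw [hxw, mulVec_smul, smul_dotProduct, dotProduct_smul, smul_eq_mul, smul_eq_mul] at hxx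
    have := (mul_eq_zero.mp hxx).resolve_left hc0
    exact (mul_eq_zero.mp this).resolve_left hc0
  set y := M⁻¹ *ᵥ (Pi.single i 1 ᵥ* P) with hy
  have hyw : y ⬝ᵥ M *ᵥ w = 1 := by
    rw [bil_symm hs, hy, mulVec_mulVec, mul_nonsing_inv _ hu, one_mulVec, dotProduct_comm,
      ← dotProduct_mulVec, hw, mulVec_mulVec, hPP', one_mulVec]
    simp
  obtain ⟨z, hzw, m, hm⟩ : ∃ z : ι → ℤ, z ⬝ᵥ M *ᵥ w = 1 ∧ Odd (z ⬝ᵥ M *ᵥ z) := by
    rcases Int.even_or_odd (y ⬝ᵥ M *ᵥ y) with hev | hodd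
    · set k := (Pi.single i 1 : ι → ℤ) ⬝ᵥ M *ᵥ w with hk
      refine ⟨Pi.single i 1 + (1 - k) • y, ?_, ?_⟩
      · rw [add_dotProduct, smul_dotProduct, ← hk, hyw, smul_eq_mul]; ring
      · simp only [add_dotProduct, mulVec_add, dotProduct_add, smul_dotProduct, mulVec_smul,
          dotProduct_smul, smul_eq_mul, bil_single]
        rw [bil_symm hs y (Pi.single i 1)]
        obtain ⟨a, ha⟩ := hi
        obtain ⟨b, hb⟩ := hev
        refine ⟨a + (1 - k) * ((Pi.single i 1 : ι → ℤ) ⬝ᵥ M *ᵥ y) + (1 - k) ^ 2 * b, ?_⟩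
        rw [ha, hb]; ring
    · exact ⟨y, hyw, hodd⟩
  refine ⟨z - m • w, z - (m + 1) • w, ?_, ?_, ?_⟩
  · simp only [sub_dotProduct, mulVec_sub, dotProduct_sub, smul_dotProduct, mulVec_smul,
      dotProduct_smul, smul_eq_mul]
    rw [hm, hww, bil_symm hs w z, hzw]; ring
  · simp only [sub_dotProduct, mulVec_sub, dotProduct_sub, smul_dotProduct, mulVec_smul,
      dotProduct_smul, smul_eq_mul]
    rw [hm, hww, bil_symm hs w z, hzw]; ring
  · simp only [sub_dotProduct, mulVec_sub, dotProduct_sub, smul_dotProduct, mulVec_smul,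
      dotProduct_smul, smul_eq_mul]
    rw [hm, hww, bil_symm hs w z, hzw]; ring

end

lemma t2_aux (H : IsoProp) (n : ℕ) : ∀ (ι : Type) [Fintype ι] [DecidableEq ι] (M : Matrix ι ι ℤ),
    Fintype.card ι = n → M.IsSymm → IsUnit M.det → (∃ i, Odd (M i i)) →
    (∃ x : ι → ℤ, 0 < x ⬝ᵥ M *ᵥ x) → (∃ x : ι → ℤ, x ⬝ᵥ M *ᵥ x < 0) → DiagPM M := by
  induction n using Nat.strong_induction_on with
  | _ n ih =>
    intro ι _ _ M hn hs hu ho hpos hneg
    obtain ⟨x, hx, hxx⟩ := H ι M hs hu hpos hneg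
    obtain ⟨e, f, he, hf, hef⟩ := exists_pair M hs hu ho x hx hxx
    obtain ⟨i, hi⟩ := ho
    obtain ⟨N, P, Q, hNs, hNu, hPQ, hQP, hMN, hPe⟩ := split_vec M hs hu e 1 (by norm_num) he i
    have hcardN : Fintype.card {k // k ≠ i} + 1 = n := by
      have := (ZIso.card (M := M) ⟨P, Q, hPQ, hQP, hMN⟩)
      rw [Fintype.card_sum] at this
      simp only [Fintype.card_unit] at this
      omega
    set z := (P *ᵥ f) ∘ Sum.inr with hz
    have h0 : (P *ᵥ f) (Sum.inl ()) = 0 := by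
      rw [hMN, form_pull, hPe, form_blocks, form_one1] at hef
      simpa using hef
    have hzz : z ⬝ᵥ N *ᵥ z = -1 := by
      rw [hMN, form_pull, form_blocks, form_one1] at hf
      simp only [Function.comp_apply] at hf
      rw [h0] at hf
      simpa using hf
    have hNodd : ∃ i, Odd (N i i) := by
      by_contra hcon
      push Not at hcon
      have := even_form90 N hNs (fun i => Int.not_odd_iff_even.mp (hcon i)) z
      rw [hzz] at this
      exact absurd this (by decide)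
    have hne : Nonempty {k // k ≠ i} := by
      obtain ⟨k, -⟩ := hNodd
      exact ⟨k⟩
    obtain ⟨j⟩ := hne
    obtain ⟨L, P', Q', hLs, hLu, hPQ', hQP', hNL, hPz⟩ :=
      split_vec N hNs hNu z (-1) (by norm_num) hzz j
    have hisoM : ZIso M (fromBlocks (one1 1) 0 0 N) := ⟨P, Q, hPQ, hQP, hMN⟩
    have hisoN : ZIso N (fromBlocks (one1 (-1)) 0 0 L) := ⟨P', Q', hPQ', hQP', hNL⟩
    by_cases hemp : Nonempty {k : {k // k ≠ i} // k ≠ j}
    · obtain ⟨v, hv⟩ := exists_norm_ne L hLs hLu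
      rcases lt_or_gt_of_ne hv with hv | hv
      · -- split off `-1` instead
        set K : Matrix (Unit ⊕ {k : {k // k ≠ i} // k ≠ j}) (Unit ⊕ {k : {k // k ≠ i} // k ≠ j}) ℤ :=
          fromBlocks (one1 1) 0 0 L with hK
        have hKs : K.IsSymm := by
          rw [hK]
          apply Matrix.IsSymm.fromBlocks _ (by simp) hLs
          ext a b
          rfl
        have hKu : IsUnit K.det := by
          rw [hK, det_fromBlocks_zero₂₁, det_unique]
          simpa [one1] using hLu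
        have hKD : DiagPM K := by
          refine ih (n - 1) (by omega) _ K ?_ hKs hKu ⟨Sum.inl (), ?_⟩ ⟨Sum.elim (fun _ => 1) 0, ?_⟩
            ⟨Sum.elim 0 v, ?_⟩
          · have := hisoN.card
            rw [Fintype.card_sum] at this ⊢
            omega
          · rw [hK]; simp [one1]
          · rw [hK, form_blocks, form_one1]; simp
          · rw [hK, form_blocks, form_one1]
            simpa using hv
        have hD2 : DiagPM (fromBlocks (one1 (-1)) 0 0 K) := (DiagPM.one1 (Or.inr rfl)).sum hKD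
        refine DiagPM.of_iso (N := fromBlocks (one1 (-1)) 0 0 K) ?_ hD2
        refine hisoM.trans ?_
        -- swap
        have hsw : ZIso (fromBlocks (one1 1) 0 0 (fromBlocks (one1 (-1)) 0 0 L))
            (fromBlocks (one1 (-1)) 0 0 K) := by
          exact ZIso.swap _ _ _
        refine ZIso.trans ?_ hsw
        refine ⟨fromBlocks 1 0 0 P', fromBlocks 1 0 0 Q', ?_, ?_, ?_⟩
        · rw [fromBlocks_multiply, ← fromBlocks_one]
          congr 1 <;> simp [hPQ']
        · rw [fromBlocks_multiply, ← fromBlocks_one]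
          congr 1 <;> simp [hQP']
        · rw [fromBlocks_transpose, fromBlocks_multiply, fromBlocks_multiply]
          congr 1
          · simp
          · simp
          · simp
          · simpa using hNL
      · refine DiagPM.of_iso hisoM ((DiagPM.one1 (Or.inl rfl)).sum ?_)
        refine ih (n - 1) (by omega) _ N (by omega) hNs hNu hNodd ⟨Q' *ᵥ (Sum.elim 0 v), ?_⟩
          ⟨z, by rw [hzz]; norm_num⟩
        rw [hNL, form_pull, mulVec_mulVec, hPQ', one_mulVec, form_blocks, form_one1]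
        simpa using hv
    · refine DiagPM.of_iso hisoM ((DiagPM.one1 (Or.inl rfl)).sum ?_)
      refine DiagPM.of_one ?_ N hNu
      rw [hisoN.card, Fintype.card_sum, Fintype.card_unit]
      have : IsEmpty {k : {k // k ≠ i} // k ≠ j} := not_nonempty_iff.mp hemp
      rw [Fintype.card_eq_zero]

/-- T2, given isotropic vectors. -/
theorem t2_of_iso (H : IsoProp) : T2Prop := by
  intro ι _ _ M hs hu ho hpos hneg
  exact t2_aux H _ ι M rfl hs hu ho hpos hneg

end Pool.Agent.Lib.MP_800ada_gt
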