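import Pool.Agent.Lib.MP_800ada_gt.Z93a

/-!
# MP_800ada_gt: the even step over `ℤ`
-/

namespace Pool.Agent.Lib.MP_800ada_gt

open Matrix

section
variable {ι : Type*} [Fintype ι] [DecidableEq ι]

lemma entry_eq (P M : Matrix ι ι ℤ) (i j : ι) :
    (Pᵀ * M * P) i j = (P *ᵥ Pi.single i 1) ⬝ᵥ M *ᵥ (P *ᵥ Pi.single j 1) := by
  have h1 : (Pᵀ * M * P) i j = ((Pᵀ * M * P) *ᵥ Pi.single j 1) i := by
    rw [mulVec_single_one, col_apply]
  have h2 : ((Pᵀ * M * P) *ᵥ Pi.single j 1) i =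
      Pi.single i 1 ⬝ᵥ ((Pᵀ * M * P) *ᵥ Pi.single j 1) := by simp
  rw [h1, h2, Matrix.mul_assoc, ← mulVec_mulVec, dotProduct_mulVec, vecMul_transpose,
    ← mulVec_mulVec]

lemma bil_symm {M : Matrix ι ι ℤ} (hs : M.IsSymm) (x y : ι → ℤ) :
    x ⬝ᵥ M *ᵥ y = y ⬝ᵥ M *ᵥ x := by
  rw [dotProduct_mulVec, ← mulVec_transpose, hs.eq, dotProduct_comm]

lemma bil_single (M : Matrix ι ι ℤ) (a b : ι) :
    (Pi.single a 1 : ι → ℤ) ⬝ᵥ M *ᵥ Pi.single b 1 = M a b := by
  rw [mulVec_single_one]; simp [col_apply]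

/-- rank at least three. -/
lemma zeven_three (M : Matrix ι ι ℤ) (hs : M.IsSymm) (hu : IsUnit M.det)
    (he : ∀ i, Even (M i i)) (h3 : 3 ≤ Fintype.card ι) :
    ∃ (P : Matrix ι ι ℤ) (i j : ι), IsUnit P.det ∧ i ≠ j ∧ (Pᵀ * M * P) i j = 1 ∧
      4 ∣ (Pᵀ * M * P) j j := by
  obtain ⟨s, r, hrs, h4⟩ : ∃ s r : ι → ℤ, r ⬝ᵥ s = 1 ∧ 4 ∣ s ⬝ᵥ M *ᵥ s := by
    obtain ⟨a, b, c, hab, hac, hbc⟩ := Fintype.two_lt_card_iff.mp h3
    obtain ⟨α, hα⟩ := he a
    obtain ⟨β, hβ⟩ := he b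
    obtain ⟨γ, hγ⟩ := he c
    set ea : ι → ℤ := Pi.single a 1 with hea
    set eb : ι → ℤ := Pi.single b 1 with heb
    set ec : ι → ℤ := Pi.single c 1 with hec
    have haa : ea ⬝ᵥ M *ᵥ ea = α + α := by rw [hea, bil_single, hα]
    have hbb : eb ⬝ᵥ M *ᵥ eb = β + β := by rw [heb, bil_single, hβ]
    have hcc : ec ⬝ᵥ M *ᵥ ec = γ + γ := by rw [hec, bil_single, hγ]
    have hba : eb ⬝ᵥ M *ᵥ ea = ea ⬝ᵥ M *ᵥ eb := bil_symm hs _ _
    have hca : ec ⬝ᵥ M *ᵥ ea = ea ⬝ᵥ M *ᵥ ec := bil_symm hs _ _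
    have hcb : ec ⬝ᵥ M *ᵥ eb = eb ⬝ᵥ M *ᵥ ec := bil_symm hs _ _
    set p := ea ⬝ᵥ M *ᵥ eb with hp
    set q := ea ⬝ᵥ M *ᵥ ec with hq
    set t := eb ⬝ᵥ M *ᵥ ec with ht
    have n1 : (ea + eb) ⬝ᵥ M *ᵥ (ea + eb) = 2 * (α + β + p) := by
      simp only [add_dotProduct, mulVec_add, dotProduct_add]
      rw [haa, hbb, hba]; ring
    have n2 : (ea + ec) ⬝ᵥ M *ᵥ (ea + ec) = 2 * (α + γ + q) := by
      simp only [add_dotProduct, mulVec_add, dotProduct_add]
      rw [haa, hcc, hca]; ring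
    have n3 : (eb + ec) ⬝ᵥ M *ᵥ (eb + ec) = 2 * (β + γ + t) := by
      simp only [add_dotProduct, mulVec_add, dotProduct_add]
      rw [hbb, hcc, hcb]; ring
    have n4 : (ea + eb + ec) ⬝ᵥ M *ᵥ (ea + eb + ec) = 2 * (α + β + γ + p + q + t) := by
      simp only [add_dotProduct, mulVec_add, dotProduct_add]
      rw [haa, hbb, hcc, hba, hca, hcb]; ring
    by_cases h1 : (2 : ℤ) ∣ α
    · refine ⟨ea, ea, by simp [hea], ?_⟩
      rw [haa]; omega
    by_cases h2 : (2 : ℤ) ∣ β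
    · refine ⟨eb, eb, by simp [heb], ?_⟩
      rw [hbb]; omega
    by_cases h3 : (2 : ℤ) ∣ γ
    · refine ⟨ec, ec, by simp [hec], ?_⟩
      rw [hcc]; omega
    by_cases h4 : (2 : ℤ) ∣ p
    · refine ⟨ea + eb, ea, by simp [hea, heb, hab], ?_⟩
      rw [n1]; omega
    by_cases h5 : (2 : ℤ) ∣ q
    · refine ⟨ea + ec, ea, by simp [hea, hec, hac], ?_⟩
      rw [n2]; omega
    by_cases h6 : (2 : ℤ) ∣ t
    · refine ⟨eb + ec, eb, by simp [heb, hec, hbc], ?_⟩
      rw [n3]; omega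
    · refine ⟨ea + eb + ec, ea, by simp [hea, heb, hec, hab, hac], ?_⟩
      rw [n4]; omega
  obtain ⟨P, i, j, hP, hij, h1, hPs⟩ := exists_basis M hs hu h3 s r hrs
  refine ⟨P, i, j, hP, hij, h1, ?_⟩
  rw [entry_eq, hPs]; exact h4

end

/-- rank two. -/
lemma zeven_two (M : Matrix (Fin 2) (Fin 2) ℤ) (hs : M.IsSymm) (hu : IsUnit M.det)
    (he : ∀ i, Even (M i i)) :
    ∃ (P : Matrix (Fin 2) (Fin 2) ℤ) (i j : Fin 2), IsUnit P.det ∧ i ≠ j ∧
      (Pᵀ * M * P) i j = 1 ∧ 4 ∣ (Pᵀ * M * P) j j := by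
  obtain ⟨α, hα⟩ := he 0
  obtain ⟨γ, hγ⟩ := he 1
  have h10 : M 1 0 = M 0 1 := hs.apply 0 1
  set β := M 0 1 with hβ
  have hdet : M.det = 4 * α * γ - β ^ 2 := by
    rw [det_fin_two, hα, hγ, h10, ← hβ]; ring
  have hdisc : β ^ 2 - 4 * α * γ = 1 := by
    rw [hdet, Int.isUnit_iff] at hu
    rcases hu with h | h
    · exfalso
      rcases Int.even_or_odd' β with ⟨k, hk | hk⟩
      · have : 4 * (α * γ - k ^ 2) = 1 := by rw [hk] at h; linarith
        omega
      · have : 4 * (α * γ - k ^ 2 - k) = 2 := by rw [hk] at h; linarith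
        omega
    · linarith
  -- isotropic primitive vector
  obtain ⟨s, r, hrs, hiso⟩ : ∃ s r : Fin 2 → ℤ, r ⬝ᵥ s = 1 ∧ s ⬝ᵥ M *ᵥ s = 0 := by
    have hform : ∀ x y : ℤ, (![x, y] : Fin 2 → ℤ) ⬝ᵥ M *ᵥ ![x, y] =
        2 * (α * x ^ 2 + β * x * y + γ * y ^ 2) := by
      intro x y
      simp only [mulVec, dotProduct, Fin.sum_univ_two, cons_val_zero, cons_val_one, hα, hγ, h10,
        ← hβ]
      ring
    by_cases hα0 : α = 0
    · refine ⟨![1, 0], ![1, 0], by simp, ?_⟩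
      rw [hform, hα0]; ring
    · obtain ⟨k, hk⟩ : ∃ k, β = 2 * k + 1 := by
        rcases Int.even_or_odd' β with ⟨k, hk | hk⟩
        · exfalso
          have : 4 * (k ^ 2 - α * γ) = 1 := by rw [hk] at hdisc; linarith
          omega
        · exact ⟨k, hk⟩
      have hkk : k ^ 2 + k = α * γ := by
        rw [hk] at hdisc; linarith
      set g : ℤ := (Int.gcd k α : ℤ) with hg
      have hg0 : g ≠ 0 := by
        rw [hg]; intro h
        have : Int.gcd k α = 0 := by exact_mod_cast h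
        exact hα0 ((Int.gcd_eq_zero_iff.mp this).2)
      obtain ⟨x, hx⟩ : g ∣ k := Int.gcd_dvd_left ..
      obtain ⟨y, hy⟩ : g ∣ α := Int.gcd_dvd_right ..
      have hbez : Int.gcdA k α * x + Int.gcdB k α * y = 1 := by
        have h := Int.gcd_eq_gcd_ab k α
        rw [← hg] at h
        have : g * (Int.gcdA k α * x + Int.gcdB k α * y) = g * 1 := by
          linear_combination (-Int.gcdA k α) * hx - (Int.gcdB k α) * hy - h
        exact mul_left_cancel₀ hg0 this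
      refine ⟨![-x, y], ![-Int.gcdA k α, Int.gcdB k α], ?_, ?_⟩
      · simp [dotProduct, Fin.sum_univ_two]; linarith
      · rw [hform]
        have : g ^ 2 * (α * (-x) ^ 2 + β * (-x) * y + γ * y ^ 2) = g ^ 2 * 0 := by
          have e : g ^ 2 * (α * (-x) ^ 2 + β * (-x) * y + γ * y ^ 2) =
              α * (g * x) ^ 2 - β * (g * x) * (g * y) + γ * (g * y) ^ 2 := by ring
          rw [e, ← hx, ← hy, hk]
          linear_combination (-α) * hkk
        have := mul_left_cancel₀ (pow_ne_zero 2 hg0) this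
        rw [this]; ring
  obtain ⟨P, hP, hPs⟩ := exists_col (1 : Fin 2) s r hrs
  set N := Pᵀ * M * P with hN
  have hN11 : N 1 1 = 0 := by rw [hN, entry_eq, hPs, hiso]
  have hNs : N 1 0 = N 0 1 := by
    rw [hN, entry_eq, entry_eq]; exact bil_symm hs _ _
  have hNu : IsUnit N.det := by
    rw [hN, det_mul, det_mul, det_transpose]; exact (hP.mul hu).mul hP
  have hN01 : IsUnit (N 0 1) := by
    rw [det_fin_two, hN11, hNs] at hNu
    have : IsUnit (N 0 1 * N 0 1) := by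
      have := hNu.neg
      simpa using this
    exact isUnit_of_mul_isUnit_left this
  have hcc : N 0 1 * N 0 1 = 1 := by
    rcases Int.isUnit_iff.mp hN01 with h | h <;> rw [h] <;> norm_num
  set D : Matrix (Fin 2) (Fin 2) ℤ := !![N 0 1, 0; 0, 1] with hD
  have hDu : IsUnit D.det := by rw [hD, det_fin_two]; simpa using hN01
  refine ⟨P * D, 0, 1, ?_, by decide, ?_, ?_⟩
  · rw [det_mul]; exact hP.mul hDu
  · have : (P * D)ᵀ * M * (P * D) = Dᵀ * N * D := by
      rw [hN, transpose_mul]; simp only [Matrix.mul_assoc]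
    rw [this]
    simp only [hD, mul_apply, Fin.sum_univ_two, transpose_apply, of_apply, cons_val', cons_val_zero,
      cons_val_one, cons_val_fin_one]
    rw [hN11]; linarith
  · have : (P * D)ᵀ * M * (P * D) = Dᵀ * N * D := by
      rw [hN, transpose_mul]; simp only [Matrix.mul_assoc]
    rw [this]
    simp only [hD, mul_apply, Fin.sum_univ_two, transpose_apply, of_apply, cons_val', cons_val_zero,
      cons_val_one, cons_val_fin_one]
    rw [hN11]; simp

theorem zeven : ZEvenProp := by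
  intro ι _ _ _ M hs hu he
  rcases Nat.lt_or_ge (Fintype.card ι) 3 with hlt | h3
  · have hpos : 0 < Fintype.card ι := Fintype.card_pos
    rcases (by omega : Fintype.card ι = 1 ∨ Fintype.card ι = 2) with h1 | h2
    · exfalso
      obtain ⟨k⟩ := ‹Nonempty ι›
      rw [det_eq_elem_of_card_eq_one h1 k] at hu
      obtain ⟨a, ha⟩ := he k
      rw [ha, Int.isUnit_iff] at hu
      omega
    · let e : ι ≃ Fin 2 := Fintype.equivFinOfCardEq h2
      obtain ⟨P, i, j, hP, hij, h1, h4⟩ := zeven_two (M.submatrix e.symm e.symm)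
        (hs.submatrix e.symm) (by rw [det_submatrix_equiv_self]; exact hu) (fun i => he _)
      have key : ((P.submatrix e e)ᵀ * M * P.submatrix e e) =
          (Pᵀ * M.submatrix e.symm e.symm * P).submatrix e e := by
        rw [← submatrix_mul_equiv _ _ _ e, ← submatrix_mul_equiv _ _ _ e, transpose_submatrix,
          submatrix_submatrix]
        simp
      refine ⟨P.submatrix e e, e.symm i, e.symm j, by rw [det_submatrix_equiv_self]; exact hP,
        fun h => hij (e.symm.injective h), ?_, ?_⟩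
      · rw [key]; simpa using h1
      · rw [key]; simpa using h4
  · exact zeven_three M hs hu he h3

end Pool.Agent.Lib.MP_800ada_gt
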