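import Pool.Agent.Lib.MP_800ada_gt.Z93c

/-!
# MP_800ada_gt: the odd step over `ℤ`, conclusion
-/

namespace Pool.Agent.Lib.MP_800ada_gt

open Matrix

section
variable {ι : Type*} [Fintype ι] [DecidableEq ι]

lemma w_eq : (Pi.single (Sum.inr 0) 1 : ι ⊕ Fin 2 → ℤ) = mkv 0 1 0 := by
  ext k
  rcases k with k | k
  · simp [mkv]
  · fin_cases k <;> simp [mkv]

omit [Fintype ι] in
/-- an equivalence sending the two last indices to `a`, `b`. -/
lemma exists_equiv (a b : ι ⊕ Fin 2) (hab : a ≠ b) :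
    ∃ σ : ι ⊕ Fin 2 ≃ ι ⊕ Fin 2, σ (Sum.inr 0) = a ∧ σ (Sum.inr 1) = b := by
  set b' := Equiv.swap (Sum.inr 0) a b with hb'
  have h1 : b' ≠ Sum.inr 0 := by
    intro h
    rw [hb'] at h
    have : b = a := by
      apply (Equiv.swap (Sum.inr 0) a).injective
      rw [h, Equiv.swap_apply_right]
    exact hab this.symm
  refine ⟨(Equiv.swap (Sum.inr 1) b').trans (Equiv.swap (Sum.inr 0) a), ?_, ?_⟩
  · rw [Equiv.trans_apply, Equiv.swap_apply_of_ne_of_ne (by simp) (Ne.symm h1),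
      Equiv.swap_apply_left]
  · rw [Equiv.trans_apply, Equiv.swap_apply_left, hb']
    exact Equiv.swap_apply_self _ _ _

/-- change of coordinates from `diag δ` to `NM (diag d)`. -/
def recoord (σ : ι ⊕ Fin 2 ≃ ι ⊕ Fin 2) : (ι ⊕ Fin 2 → ℤ) →ₗ[ℤ] (ι ⊕ Fin 2 → ℤ) where
  toFun v := mkv (fun i => v (σ (Sum.inl i))) (v (σ (Sum.inr 1)))
    (v (σ (Sum.inr 0)) - v (σ (Sum.inr 1)))
  map_add' x y := by
    ext k
    rcases k with k | k
    · simp [mkv]
    · fin_cases k <;> simp [mkv]; ring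
  map_smul' c x := by
    ext k
    rcases k with k | k
    · simp [mkv]
    · fin_cases k <;> simp [mkv]; ring

lemma diag_bil {κ : Type*} [Fintype κ] [DecidableEq κ] (δ x y : κ → ℤ) :
    x ⬝ᵥ diagonal δ *ᵥ y = ∑ k, δ k * (x k * y k) := by
  rw [dotProduct]
  apply Finset.sum_congr rfl
  intro k _
  rw [mulVec_diagonal]; ring

lemma recoord_iso (σ : ι ⊕ Fin 2 ≃ ι ⊕ Fin 2) (δ : ι ⊕ Fin 2 → ℤ) (h0 : δ (σ (Sum.inr 0)) = 1)
    (h1 : δ (σ (Sum.inr 1)) = -1) (x y : ι ⊕ Fin 2 → ℤ) :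
    recoord σ x ⬝ᵥ NM (diagonal fun i => δ (σ (Sum.inl i))) *ᵥ recoord σ y =
      x ⬝ᵥ diagonal δ *ᵥ y := by
  rw [recoord]
  simp only [LinearMap.coe_mk, AddHom.coe_mk]
  rw [bilNM, diag_bil, diag_bil, ← Equiv.sum_comp σ, Fintype.sum_sum_type, Fin.sum_univ_two, h0, h1]
  ring

/-- existence of a good vector with odd last coordinate. -/
lemma exists_good {ι : Type} [Fintype ι] [DecidableEq ι] (T2 : T2Prop) (M : Matrix ι ι ℤ)
    (hs : M.IsSymm) (hu : IsUnit M.det) (ho : ∃ i, Odd (M i i)) :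
    ∃ (s : ι → ℤ) (α m : ℤ), Xgood M (mkv s α m) ∧ Odd m := by
  have hNu : IsUnit (NM M).det := by rw [NM_det]; exact hu.neg
  obtain ⟨Q, δ, hQ, hδ, hN⟩ := T2 (ι ⊕ Fin 2) (NM M) (NM_symm hs) hNu
    ⟨Sum.inr 1, by simp [NM]⟩
    ⟨mkv 0 0 1, by rw [bilNM]; simp⟩ ⟨mkv 0 (-1) 1, by rw [bilNM]; simp⟩
  have hbil : ∀ x y, x ⬝ᵥ NM M *ᵥ y = (Q *ᵥ x) ⬝ᵥ diagonal δ *ᵥ (Q *ᵥ y) := by
    intro x y
    rw [hN, Matrix.mul_assoc, ← mulVec_mulVec, dotProduct_mulVec, vecMul_transpose,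
      ← mulVec_mulVec]
  have hQQ : Q * Q⁻¹ = 1 := mul_nonsing_inv Q hQ
  set w := Q *ᵥ mkv (0 : ι → ℤ) 1 0 with hw
  -- parity facts
  have hodd : ∃ k, Odd (w k) := by
    by_contra hcon
    push Not at hcon
    have h1 : mkv (0 : ι → ℤ) 1 0 ⬝ᵥ NM M *ᵥ mkv 0 0 1 = 1 := by rw [bilNM]; simp
    rw [hbil, diag_bil, ← hw] at h1
    have h2 : (2 : ℤ) ∣ ∑ k, δ k * (w k * (Q *ᵥ mkv 0 0 1) k) := by
      apply Finset.dvd_sum
      intro k _
      have := (Int.not_odd_iff_even.mp (hcon k)).two_dvd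
      exact Dvd.dvd.mul_left (this.mul_right _) _
    rw [h1] at h2
    omega
  have heven : ∃ k, Even (w k) := by
    by_contra hcon
    push Not at hcon
    obtain ⟨i0, hi0⟩ := ho
    have h1 : mkv (0 : ι → ℤ) 1 0 ⬝ᵥ NM M *ᵥ mkv (Pi.single i0 1) 0 0 = 0 := by
      rw [bilNM]; simp
    have h2 : mkv (Pi.single i0 1 : ι → ℤ) 0 0 ⬝ᵥ NM M *ᵥ mkv (Pi.single i0 1) 0 0 = M i0 i0 := by
      rw [bilNM, bil_single]; simp
    rw [hbil, diag_bil, ← hw] at h1
    rw [hbil, diag_bil] at h2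
    set y := Q *ᵥ mkv (Pi.single i0 1 : ι → ℤ) 0 0
    have h3 : (2 : ℤ) ∣ ∑ k, (δ k * (w k * y k) - δ k * (y k * y k)) := by
      apply Finset.dvd_sum
      intro k _
      obtain ⟨a, ha⟩ := Int.not_even_iff_odd.mp (hcon k)
      rcases Int.even_or_odd' (y k) with ⟨c, hc | hc⟩
      · exact ⟨δ k * (w k * c - y k * c), by rw [hc]; ring⟩
      · exact ⟨δ k * y k * (a - c), by rw [ha, hc]; ring⟩
    rw [Finset.sum_sub_distrib, h1, h2] at h3
    obtain ⟨c, hc⟩ := hi0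
    omega
  have hiso : ∑ k, δ k * (w k * w k) = 0 := by
    rw [← diag_bil, hw, ← hbil, bilNM]; simp
  have hw0 : ∃ k, w k ≠ 0 := by
    obtain ⟨k, hk⟩ := hodd
    exact ⟨k, by rintro h; rw [h] at hk; simp at hk⟩
  -- both signs occur
  have hplus : ∃ a, δ a = 1 := by
    by_contra hcon
    push Not at hcon
    have hneg : ∀ k, δ k = -1 := fun k => (hδ k).resolve_left (hcon k)
    obtain ⟨k, hk⟩ := hw0
    have h1 : ∀ i ∈ Finset.univ, δ i * (w i * w i) ≤ 0 := fun i _ => by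
      rw [hneg]; nlinarith [mul_self_nonneg (w i)]
    have : ∑ k, δ k * (w k * w k) < 0 :=
      Finset.sum_neg' h1 ⟨k, Finset.mem_univ k, by rw [hneg]; nlinarith [mul_self_pos.mpr hk]⟩
    omega
  have hminus : ∃ b, δ b = -1 := by
    by_contra hcon
    push Not at hcon
    have hneg : ∀ k, δ k = 1 := fun k => (hδ k).resolve_right (hcon k)
    obtain ⟨k, hk⟩ := hw0
    have h1 : ∀ i ∈ Finset.univ, 0 ≤ δ i * (w i * w i) := fun i _ => by
      rw [hneg]; nlinarith [mul_self_nonneg (w i)]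
    have : 0 < ∑ k, δ k * (w k * w k) :=
      Finset.sum_pos' h1 ⟨k, Finset.mem_univ k, by rw [hneg]; nlinarith [mul_self_pos.mpr hk]⟩
    omega
  obtain ⟨a, b, ha, hb, hab⟩ : ∃ a b, δ a = 1 ∧ δ b = -1 ∧ Odd (w a - w b) := by
    by_contra hcon
    push Not at hcon
    obtain ⟨a, ha⟩ := hplus
    obtain ⟨b, hb⟩ := hminus
    obtain ⟨k, hk⟩ := hodd
    obtain ⟨l, hl⟩ := heven
    have e1 : ∀ a b, δ a = 1 → δ b = -1 → Even (w a - w b) := fun a b ha hb =>
      Int.not_odd_iff_even.mp (hcon a b ha hb)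
    have e2 := e1 a b ha hb
    have e3 : Even (w a - w k) := by
      rcases hδ k with h | h
      · have := (e1 a b ha hb).sub (e1 k b h hb)
        have e : w a - w b - (w k - w b) = w a - w k := by ring
        rwa [e] at this
      · exact e1 a k ha h
    have e4 : Even (w a - w l) := by
      rcases hδ l with h | h
      · have := (e1 a b ha hb).sub (e1 l b h hb)
        have e : w a - w b - (w l - w b) = w a - w l := by ring
        rwa [e] at this
      · exact e1 a l ha h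
    have e5 := e4.sub e3
    have e6 : w a - w l - (w a - w k) = w k - w l := by ring
    rw [e6] at e5
    obtain ⟨p, hp⟩ := e5
    obtain ⟨q, hq⟩ := hk
    obtain ⟨r, hr⟩ := hl
    omega
  have hne : a ≠ b := by rintro rfl; rw [ha] at hb; norm_num at hb
  obtain ⟨σ, hσa, hσb⟩ := exists_equiv a b hne
  set xh : ι ⊕ Fin 2 → ℤ := Pi.single a 1 + Pi.single b 1 with hxh
  set x := Q⁻¹ *ᵥ xh with hx
  have hQx : Q *ᵥ x = xh := by rw [hx, mulVec_mulVec, hQQ, one_mulVec]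
  refine ⟨fun i => x (Sum.inl i), x (Sum.inr 0), x (Sum.inr 1), ?_, ?_⟩
  · rw [mkv_eta]
    obtain ⟨h1, h2⟩ := iso_of_linear (N' := diagonal δ)
      (N := NM (diagonal fun i => δ (σ (Sum.inl i)))) (by
        rw [det_diagonal]
        apply IsUnit.prod_univ_iff.mpr
        intro k
        rcases hδ k with h | h <;> rw [h] <;> simp) (recoord σ)
      (recoord_iso σ δ (by rw [hσa, ha]) (by rw [hσb, hb]))
    refine ⟨LinearMap.toMatrix' (recoord σ) * Q, fun i => δ (σ (Sum.inl i)), ?_, fun i => hδ _,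
      ?_, ?_⟩
    · rw [det_mul]; exact h1.mul hQ
    · rw [hN, h2, transpose_mul]; simp only [Matrix.mul_assoc]
    · rw [← mulVec_mulVec, LinearMap.toMatrix'_mulVec, hQx, w_eq, recoord]
      simp only [LinearMap.coe_mk, AddHom.coe_mk]
      congr 1
      · ext i
        have hia : σ (Sum.inl i) ≠ a := by
          rw [← hσa]; intro h; exact absurd (σ.injective h) (by simp)
        have hib : σ (Sum.inl i) ≠ b := by
          rw [← hσb]; intro h; exact absurd (σ.injective h) (by simp)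
        simp [hxh, hia, hib]
      · rw [hσb, hxh]; simp [Ne.symm hne]
      · rw [hσa, hσb, hxh]; simp [Ne.symm hne, hne]
  · have h1 : x ⬝ᵥ NM M *ᵥ mkv (0 : ι → ℤ) 1 0 = x (Sum.inr 1) := by
      conv_lhs => rw [← mkv_eta x]
      rw [bilNM]; simp
    rw [← h1, hbil, hQx, ← hw, diag_bil]
    have : ∑ k, δ k * (xh k * w k) = w a - w b := by
      have e : ∀ k, δ k * (xh k * w k) = (if k = a then δ k * w k else 0) +
          (if k = b then δ k * w k else 0) := by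
        intro k
        rw [hxh]
        simp only [Pi.add_apply, Pi.single_apply]
        by_cases h1 : k = a
        · have h2 : k ≠ b := h1 ▸ hne
          simp [h1, hne]
        · by_cases h2 : k = b
          · simp [h2, Ne.symm hne]
          · simp [h1, h2]
      simp_rw [e]
      rw [Finset.sum_add_distrib, Finset.sum_ite_eq' Finset.univ a, Finset.sum_ite_eq' Finset.univ b]
      simp [ha, hb]; ring
    rw [this]; exact hab

end

theorem zodd (T2 : T2Prop) : ZOddProp := by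
  intro ι _ _ M hs hu ho h3
  obtain ⟨s, α, m, hx, hm⟩ := exists_good T2 M hs hu ho
  obtain ⟨-, hiso⟩ := Xgood_prim hx
  obtain ⟨a, b, c, hab, hac, hbc⟩ := Fintype.two_lt_card_iff.mp h3
  -- first Eichler transformation
  obtain ⟨y1, r1, g1, hg1s, hg1m, hr1⟩ := exists_content hab s (2 * m)
  have hx1 := Xgood_eich hs hu y1 s α m hx
  set s1 := s + (2 * m) • y1 with hs1
  set α1 := α - 2 * (s ⬝ᵥ M *ᵥ y1) - 2 * (y1 ⬝ᵥ M *ᵥ y1) * m with hα1
  have hg1s1 : ∀ k, g1 ∣ s1 k := by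
    intro k
    rw [hs1]
    simp only [Pi.add_apply, Pi.smul_apply, smul_eq_mul]
    exact dvd_add (hg1s k) (hg1m.mul_right _)
  -- `g1` is odd
  have hg1odd : IsCoprime g1 2 := by
    have h1 : Odd (s ⬝ᵥ M *ᵥ s) := by
      obtain ⟨k, hk⟩ := hm
      refine ⟨-(2 * k ^ 2 + 2 * k + 1) - α * m, ?_⟩
      have : s ⬝ᵥ M *ᵥ s = -(2 * α * m) - m ^ 2 := by linarith
      rw [this, hk]; ring
    have h2 : g1 ∣ s ⬝ᵥ M *ᵥ s := by
      rw [dotProduct]
      exact Finset.dvd_sum fun k _ => (hg1s k).mul_right _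
    have h3 : Odd g1 := by
      obtain ⟨c, hc⟩ := h2
      rw [hc] at h1
      exact (Int.odd_mul.mp h1).1
    obtain ⟨t, ht⟩ := h3
    exact ⟨1, -t, by rw [ht]; ring⟩
  have hg1m' : g1 ∣ m := hg1odd.dvd_of_dvd_mul_left hg1m
  obtain ⟨⟨ρ, p, q, hρ⟩, -⟩ := Xgood_prim hx1
  have hg1α : IsCoprime g1 α1 := by
    obtain ⟨e, he⟩ : g1 ∣ ρ ⬝ᵥ s1 := by
      rw [dotProduct]
      exact Finset.dvd_sum fun k _ => (hg1s1 k).mul_left _
    obtain ⟨f, hf⟩ := hg1m'
    refine ⟨e + q * f, p, ?_⟩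
    rw [he] at hρ
    rw [hf] at hρ
    linarith
  -- reflection
  have hx2 := Xgood_tau hu s1 α1 m hx1
  set m2 := m + 2 * α1 with hm2
  have hm2odd : Odd m2 := by
    obtain ⟨k, hk⟩ := hm
    exact ⟨k + α1, by rw [hm2, hk]; ring⟩
  have hg1m2 : IsCoprime g1 (2 * m2) := by
    apply IsCoprime.mul_right hg1odd
    rw [hm2]
    obtain ⟨f, hf⟩ := hg1m'
    rw [hf]
    rw [add_comm]
    exact IsCoprime.add_mul_left_right (hg1odd.mul_right hg1α) f
  -- second Eichler transformation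
  obtain ⟨y2, r2, g2, hg2s, hg2m, hr2⟩ := exists_content hab s1 (2 * m2)
  have hx3 := Xgood_eich hs hu y2 s1 (-α1) m2 hx2
  set s3 := s1 + (2 * m2) • y2 with hs3
  set α3 := -α1 - 2 * (s1 ⬝ᵥ M *ᵥ y2) - 2 * (y2 ⬝ᵥ M *ᵥ y2) * m2 with hα3
  have hg2u : IsUnit g2 := by
    have h1 : g2 ∣ g1 := by
      rw [← hr1, dotProduct]
      exact Finset.dvd_sum fun k _ => (hg2s k).mul_left _
    exact hg1m2.isUnit_of_dvd' h1 hg2m
  have hprim : (g2 • r2) ⬝ᵥ s3 = 1 := by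
    rw [smul_dotProduct, hr2]
    rcases Int.isUnit_iff.mp hg2u with h | h <;> rw [h] <;> norm_num
  obtain ⟨P, i, j, hP, hij, h1, hPs⟩ := exists_basis M hs hu h3 s3 (g2 • r2) hprim
  obtain ⟨-, hiso3⟩ := Xgood_prim hx3
  obtain ⟨k, hk⟩ := hm2odd
  refine ⟨P, i, j, α3, k, hP, hij, h1, ?_, ?_⟩
  · rw [entry_eq, hPs, ← hk]; exact hiso3
  · rw [← hk]
    obtain ⟨Φ, d, hΦ, hd, hN, hΦx⟩ := hx3
    have hPu : IsUnit (fromBlocks P 0 0 (1 : Matrix (Fin 2) (Fin 2) ℤ)).det := by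
      rw [det_fromBlocks_zero₂₁, det_one, mul_one]; exact hP
    refine ⟨Φ * fromBlocks P 0 0 1, d, ?_, hd, ?_, ?_⟩
    · rw [det_mul]; exact hΦ.mul hPu
    · have e : NM (Pᵀ * M * P) = (fromBlocks P 0 0 1)ᵀ * NM M * fromBlocks P 0 0 1 := by
        rw [NM, NM, fromBlocks_transpose, fromBlocks_multiply, fromBlocks_multiply]
        simp
      rw [e, hN, transpose_mul]; simp only [Matrix.mul_assoc]
    · rw [← mulVec_mulVec]
      have e : fromBlocks P 0 0 1 *ᵥ (Sum.elim (Pi.single j 1) ![α3, m2]) = mkv s3 α3 m2 := by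
        rw [fromBlocks_mulVec, mkv]
        have e1 : (Sum.elim (Pi.single j 1) ![α3, m2] : ι ⊕ Fin 2 → ℤ) ∘ Sum.inl =
          Pi.single j 1 := rfl
        have e2 : (Sum.elim (Pi.single j 1) ![α3, m2] : ι ⊕ Fin 2 → ℤ) ∘ Sum.inr =
          ![α3, m2] := rfl
        rw [e1, e2, hPs, zero_mulVec, zero_mulVec, one_mulVec, add_zero, zero_add]
      rw [e, hΦx]

end Pool.Agent.Lib.MP_800ada_gt
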