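import Pool.Agent.Lib.MP_800ada_gt.W6
import Pool.Agent.Lib.MP_800ada_gt.Split90
import Pool.Agent.Lib.MP_800ada_gt.Small90
import Pool.Agent.Lib.MP_800ada_gt.Z93b
import Pool.Agent.Lib.MP_800ada_gt.Z93d
import Pool.Agent.Lib.MP_800ada_gt.Pres

/-!
# MP_800ada_gt: the unconditional theorem
-/

namespace Pool.Agent.Lib.MP_800ada_gt

open Matrix LaurentPolynomial

/-- Indefinite unimodular lattices over `ℤ` represent zero nontrivially. -/
theorem isoProp : IsoProp := by
  intro ι _ _ M hs hu hpos hneg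
  let e : ι ≃ Fin (Fintype.card ι) := Fintype.equivFin ι
  have hform : ∀ x : Fin (Fintype.card ι) → ℤ,
      x ⬝ᵥ (M.submatrix e.symm e.symm) *ᵥ x = (x ∘ e) ⬝ᵥ M *ᵥ (x ∘ e) := by
    intro x
    rw [Matrix.submatrix_mulVec_equiv]
    simp only [dotProduct, Function.comp, Equiv.symm_symm]
    exact (Fintype.sum_equiv e _ _ (fun i => by simp)).symm
  obtain ⟨x, hx⟩ := hpos
  obtain ⟨y, hy⟩ := hneg
  have hc : ∀ z : ι → ℤ, (z ∘ e.symm) ∘ e = z := by
    intro z; ext i; simp
  obtain ⟨z, hz0, hz⟩ := exists_isotropic (M.submatrix e.symm e.symm) (hs.submatrix _)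
    (by rw [Matrix.det_submatrix_equiv_self]; exact hu)
    ⟨x ∘ e.symm, by rw [hform, hc]; exact hx⟩ ⟨y ∘ e.symm, by rw [hform, hc]; exact hy⟩
  refine ⟨z ∘ e, ?_, ?_⟩
  · intro h
    apply hz0
    ext i
    have := congrFun h (e.symm i)
    simpa using this
  · rw [← hform]; exact hz

/-- Odd indefinite unimodular lattices over `ℤ` are diagonalizable. -/
theorem t2 : T2Prop := t2_of_iso isoProp

/-- The main theorem: the condition on `A(1)` is not a restriction on the size. -/
theorem sizes_eq_sizes0 {H : Type} [AddCommGroup H] [Module Lam H] (lam : H → H → FracMod Lam)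
    (hH : OneSubOnto H) : sizes lam = sizes0 lam :=
  sizes_eq (zsmall t2) (zodd t2) zeven lam hH

end Pool.Agent.Lib.MP_800ada_gt
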