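import Pool.Agent.Lib.MP_800ada_gt.Defs

/-!
# MP_800ada_gt: definitions for the integral lattice part
-/

namespace Pool.Agent.Lib.MP_800ada_gt

open Matrix

variable {ι : Type*} [Fintype ι] [DecidableEq ι]

/-- `M ⊕ [[0,1],[1,1]]`. -/
def NM (M : Matrix ι ι ℤ) : Matrix (ι ⊕ Fin 2) (ι ⊕ Fin 2) ℤ :=
  Matrix.fromBlocks M 0 0 !![0, 1; 1, 1]

/-- `x` is an isotropic vector of `NM M` with `x^⊥/x` diagonalizable: some isometry from `NM M` to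
`NM (diagonal d)` maps `x` to the first standard vector of the plane. -/
def Xgood (M : Matrix ι ι ℤ) (x : ι ⊕ Fin 2 → ℤ) : Prop :=
  ∃ (Φ : Matrix (ι ⊕ Fin 2) (ι ⊕ Fin 2) ℤ) (d : ι → ℤ), IsUnit Φ.det ∧
    (∀ i, d i = 1 ∨ d i = -1) ∧ NM M = Φᵀ * NM (Matrix.diagonal d) * Φ ∧
    Φ *ᵥ x = Pi.single (Sum.inr 0) 1

/-- T2: odd indefinite unimodular lattices are diagonalizable. -/
def T2Prop : Prop := ∀ (ι : Type) [Fintype ι] [DecidableEq ι] (M : Matrix ι ι ℤ), M.IsSymm →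
  IsUnit M.det → (∃ i, Odd (M i i)) → (∃ x : ι → ℤ, 0 < x ⬝ᵥ M *ᵥ x) →
  (∃ x : ι → ℤ, x ⬝ᵥ M *ᵥ x < 0) → DiagPM M

/-- ZSMALL. -/
def ZSmallProp : Prop := ∀ (ι : Type) [Fintype ι] [DecidableEq ι] (M : Matrix ι ι ℤ), M.IsSymm →
  IsUnit M.det → (∃ i, Odd (M i i)) → Fintype.card ι ≤ 2 → DiagPM M

/-- ZODD. -/
def ZOddProp : Prop := ∀ (ι : Type) [Fintype ι] [DecidableEq ι] (M : Matrix ι ι ℤ), M.IsSymm →
  IsUnit M.det → (∃ i, Odd (M i i)) → 3 ≤ Fintype.card ι →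
  ∃ (P : Matrix ι ι ℤ) (i j : ι) (α k : ℤ), IsUnit P.det ∧ i ≠ j ∧ (Pᵀ * M * P) i j = 1 ∧
    (Pᵀ * M * P) j j + 2 * α * (2 * k + 1) + (2 * k + 1) ^ 2 = 0 ∧
    Xgood (Pᵀ * M * P) (Sum.elim (Pi.single j 1) ![α, 2 * k + 1])

/-- ZEVEN. -/
def ZEvenProp : Prop := ∀ (ι : Type) [Fintype ι] [DecidableEq ι] [Nonempty ι] (M : Matrix ι ι ℤ),
  M.IsSymm → IsUnit M.det → (∀ i, Even (M i i)) →
  ∃ (P : Matrix ι ι ℤ) (i j : ι), IsUnit P.det ∧ i ≠ j ∧ (Pᵀ * M * P) i j = 1 ∧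
    4 ∣ (Pᵀ * M * P) j j

end Pool.Agent.Lib.MP_800ada_gt
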