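import Pool.Agent.Lib.MP_800ada_gt.Link
import Pool.Agent.Lib.MP_800ada_gt.ZDefs

/-!
# MP_800ada_gt: the ring of integral Laurent polynomials and the two kinds of neighbour steps
-/

namespace Pool.Agent.Lib.MP_800ada_gt

open Matrix LaurentPolynomial

lemma bar_T (n : ℤ) : bar (T n) = T (-n) := invert_T n
lemma bar_C (a : ℤ) : bar (C a) = C a := invert_C a
lemma bar_bar (x : Lam) : bar (bar x) = x := involutive_invert x

lemma ev1_T (n : ℤ) : ev1 (T n) = 1 := by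
  unfold ev1
  rw [eval₂_T]
  simp

lemma ev1_C (a : ℤ) : ev1 (C a) = a := by
  unfold ev1
  rw [eval₂_C]
  simp

lemma ev1_bar (x : Lam) : ev1 (bar x) = ev1 x := by
  induction x using LaurentPolynomial.induction_on' with
  | add p q hp hq => rw [map_add, map_add, map_add, hp, hq]
  | C_mul_T n a => rw [map_mul, map_mul, map_mul, bar_T, bar_C, ev1_T, ev1_T]

/-- `1 - t`. -/
noncomputable def u1 : Lam := 1 - T 1
/-- `1 - t⁻¹`. -/
noncomputable def u2 : Lam := 1 - T (-1)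

lemma bar_u1 : bar u1 = u2 := by
  unfold u1 u2
  rw [map_sub, map_one, bar_T]

lemma bar_u2 : bar u2 = u1 := by rw [← bar_u1, bar_bar]

lemma ev1_u1 : ev1 u1 = 0 := by
  unfold u1
  rw [map_sub, map_one, ev1_T, sub_self]

lemma T_mul_T : (T 1 : Lam) * T (-1) = 1 := by
  rw [← T_add, show (1 : ℤ) + -1 = 0 by norm_num, T_zero]

lemma u1_eq : u1 = - T 1 * u2 := by
  unfold u1 u2
  linear_combination (-1 : Lam) * T_mul_T

lemma u1_ne : u1 ≠ 0 := by
  intro h
  have h1 : LaurentPolynomial.eval₂ (RingHom.id ℤ) (-1) u1 = 0 := by rw [h, map_zero]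
  unfold u1 at h1
  rw [map_sub, map_one, eval₂_T] at h1
  simp at h1

lemma u2_ne : u2 ≠ 0 := by
  intro h
  apply u1_ne
  rw [u1_eq, h, mul_zero]

/-- `D = (1-t)(1-t⁻¹)`. -/
noncomputable def DD : Lam := u1 * u2

lemma DD_ne : DD ≠ 0 := mul_ne_zero u1_ne u2_ne

lemma bar_DD : bar DD = DD := by
  unfold DD
  rw [map_mul, bar_u1, bar_u2, mul_comm]

lemma DD_eq : DD = u1 + u2 := by
  unfold DD u1 u2
  linear_combination T_mul_T

lemma ev1_DD : ev1 DD = 0 := by
  unfold DD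
  rw [map_mul, ev1_u1, zero_mul]

lemma u1_dvd (x : Lam) : ∃ y, x - (ev1 x : Lam) = u1 * y := by
  have hT : ∀ n : ℕ, ∃ y, (T (n : ℤ) : Lam) - 1 = u1 * y := by
    intro n
    have h1 : (T 1 : Lam) - 1 ∣ (T 1) ^ n - 1 ^ n := sub_dvd_pow_sub_pow _ _ n
    rw [one_pow, T_pow, mul_one] at h1
    obtain ⟨y, hy⟩ := h1
    refine ⟨-y, ?_⟩
    rw [hy]
    unfold u1
    ring
  induction x using LaurentPolynomial.induction_on' with
  | add p q hp hq =>
    obtain ⟨y, hy⟩ := hp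
    obtain ⟨z, hz⟩ := hq
    refine ⟨y + z, ?_⟩
    rw [map_add, mul_add, ← hy, ← hz]
    push_cast
    ring
  | C_mul_T n a =>
    have h2 : ∃ y, (T n : Lam) - 1 = u1 * y := by
      rcases le_or_gt 0 n with hn | hn
      · obtain ⟨m, rfl⟩ := Int.eq_ofNat_of_zero_le hn
        exact hT m
      · obtain ⟨m, hm⟩ := Int.eq_ofNat_of_zero_le (show 0 ≤ -n by omega)
        obtain ⟨y, hy⟩ := hT m
        rw [← hm] at hy
        refine ⟨-(T n) * y, ?_⟩
        have h3 : (T n : Lam) * T (-n) = 1 := by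
          rw [← T_add, add_neg_cancel, T_zero]
        linear_combination (-(T n : Lam)) * hy + h3
    obtain ⟨y, hy⟩ := h2
    refine ⟨C a * y, ?_⟩
    rw [map_mul, ev1_C, ev1_T, mul_one]
    have h4 : ((a : ℤ) : Lam) = C a := by
      rw [← map_intCast (C : ℤ →+* Lam)]
      simp
    rw [h4]
    linear_combination (C a : Lam) * hy

lemma symm_zero {E : Lam} (hE : bar E = E) (h0 : ev1 E = 0) : ∃ G, bar G = G ∧ E = DD * G := by
  obtain ⟨F, hF⟩ := u1_dvd E
  rw [h0, Int.cast_zero, sub_zero] at hF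
  have h1 : F = - T (-1) * bar F := by
    have h2 : u2 * bar F = u1 * F := by
      rw [← hF, ← bar_u1, ← map_mul, ← hF, hE]
    apply mul_left_cancel₀ u1_ne
    rw [← h2, u1_eq]
    linear_combination (u2 * bar F) * (-1 : Lam) * T_mul_T
  have h3 : ev1 F = 0 := by
    have := congrArg ev1 h1
    rw [map_mul, map_neg, ev1_T, ev1_bar] at this
    omega
  obtain ⟨F', hF'⟩ := u1_dvd F
  rw [h3, Int.cast_zero, sub_zero] at hF'
  have h4 : E = DD * (- T 1 * F') := by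
    rw [hF, hF']
    unfold DD
    rw [u1_eq]
    ring
  refine ⟨- T 1 * F', ?_, h4⟩
  apply mul_left_cancel₀ DD_ne
  have h5 : DD * bar (- T 1 * F') = bar (DD * (- T 1 * F')) := by rw [map_mul bar DD, bar_DD]
  rw [h5, ← h4, hE]

lemma symm_expand {E : Lam} (hE : bar E = E) :
    ∃ (c1 : ℤ) (G : Lam), bar G = G ∧ E = (ev1 E : Lam) + (c1 : Lam) * DD + G * DD ^ 2 := by
  obtain ⟨G1, hG1, h1⟩ := symm_zero (E := E - (ev1 E : Lam)) (by rw [map_sub, hE, map_intCast])
    (by rw [map_sub, map_intCast]; simp)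
  obtain ⟨G2, hG2, h2⟩ := symm_zero (E := G1 - (ev1 G1 : Lam)) (by rw [map_sub, hG1, map_intCast])
    (by rw [map_sub, map_intCast]; simp)
  refine ⟨ev1 G1, G2, hG2, ?_⟩
  linear_combination h1 + DD * h2

variable {ι : Type} [Fintype ι] [DecidableEq ι]

lemma herm_apply {A : Matrix ι ι Lam} (hA : ct bar A = A) (i j : ι) : bar (A i j) = A j i := by
  have := congrFun (congrFun hA j) i
  rwa [ct_apply] at this

/-- Data for the odd step. -/
lemma lam_odd (A : Matrix ι ι Lam) (hA : ct bar A = A) (i j : ι) (h1 : ev1 (A i j) = 1)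
    (α0 k : ℤ) (h : ev1 (A j j) + 2 * α0 * (2 * k + 1) + (2 * k + 1) ^ 2 = 0) :
    ∃ α β ε δ : Lam, ev1 α = α0 ∧ ev1 β = 2 * k + 1 ∧
      A j j + bar α * β + bar β * α + bar β * β = 0 ∧ ε * A i j + δ * β = 1 := by
  set a := A i j with ha
  set β : Lam := 1 + (k : Lam) * (1 + T 1) * (a * bar a) with hβ
  have hbβ : bar β = 1 + (k : Lam) * (1 + T (-1)) * (a * bar a) := by
    rw [hβ]
    simp only [map_add, map_mul, map_one, map_intCast, bar_T, bar_bar]
    ring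
  have hevβ : ev1 β = 2 * k + 1 := by
    rw [hβ]
    simp only [map_add, map_mul, map_one, map_intCast, ev1_T, ev1_bar, h1]
    simp
    ring
  have hevβ' : ev1 (bar β) = 2 * k + 1 := by rw [ev1_bar, hevβ]
  have hkey : u1 * bar β + u2 * β = DD := by
    rw [hβ, hbβ, DD_eq]
    unfold u1 u2
    linear_combination (-2 * (k : Lam) * a * bar a) * T_mul_T
  have hEs : bar (-A j j - β * bar β - (α0 : Lam) * (β + bar β)) =
      -A j j - β * bar β - (α0 : Lam) * (β + bar β) := by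
    simp only [map_sub, map_neg, map_mul, map_add, map_intCast, bar_bar, herm_apply hA]
    ring
  have hE0 : ev1 (-A j j - β * bar β - (α0 : Lam) * (β + bar β)) = 0 := by
    simp only [map_sub, map_neg, map_mul, map_add, map_intCast, hevβ, hevβ']
    simp only [Int.cast_id]
    linear_combination -h
  obtain ⟨G, hG, hE⟩ := symm_zero hEs hE0
  refine ⟨(α0 : Lam) + G * u1, β, -(k : Lam) * (1 + T 1) * bar a, 1, ?_, hevβ, ?_, ?_⟩
  · rw [map_add, map_mul, ev1_u1, map_intCast, mul_zero, add_zero, Int.cast_id]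
  · simp only [map_add, map_mul, map_intCast, hG, bar_u1]
    linear_combination (-1 : Lam) * hE + G * hkey
  · rw [hβ]; ring

lemma exists_x (c1 r a0 t : ℤ) (hr : Odd r) (ha : Even a0) :
    ∃ x : ℤ, 4 ∣ c1 + x * r + x ^ 2 * a0 - t := by
  obtain ⟨q, hq⟩ := hr
  obtain ⟨s, hs⟩ := ha
  have h1 : (c1 - t) % 4 = 0 ∨ (c1 - t) % 4 = 1 ∨ (c1 - t) % 4 = 2 ∨ (c1 - t) % 4 = 3 := by omega
  subst hq hs
  by_cases hb : (c1 - t) % 4 = 0
  · exact ⟨0, by omega⟩
  by_cases hb : (c1 - t) % 4 = 2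
  · exact ⟨2, by omega⟩
  by_cases hc : 4 ∣ c1 - t + (2 * q + 1) + (s + s)
  · exact ⟨1, by simpa [add_sub_right_comm, add_assoc] using hc⟩
  · refine ⟨-1, ?_⟩
    have : c1 + -1 * (2 * q + 1) + (-1) ^ 2 * (s + s) - t = c1 - t - (2 * q + 1) + (s + s) := by ring
    rw [this]
    omega

/-- Data for the even step. -/
lemma lam_even (A : Matrix ι ι Lam) (hA : ct bar A = A) (i j : ι) (h1 : ev1 (A i j) = 1)
    (hjj : 4 ∣ ev1 (A j j)) (hii : Even (ev1 (A i i))) :
    ∃ (x : ℤ) (α β ε δ : Lam), ev1 β = 2 ∧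
      (A j j + (x : Lam) * u1 * A j i + (x : Lam) * u2 * A i j + (x : Lam) ^ 2 * DD * A i i) +
        bar α * β + bar β * α + bar β * β = 0 ∧
      ε * (A i j + (x : Lam) * u1 * A i i) + δ * β = 1 := by
  obtain ⟨c0', hc0⟩ := hjj
  obtain ⟨c1, G1, hG1, hE1⟩ := symm_expand (herm_apply hA j j)
  -- trace term
  obtain ⟨h, hh⟩ := u1_dvd (A i j)
  rw [h1, Int.cast_one] at hh
  have hAij : A i j = 1 + u1 * h := by linear_combination hh
  have hAji : A j i = 1 + u2 * bar h := by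
    rw [← herm_apply hA i j, hAij, map_add, map_one, map_mul, bar_u1]
  -- ρ : u1 * A j i + u2 * A i j = DD * (1 + ...)
  have hρs : bar (1 + bar h + h) = 1 + bar h + h := by
    simp only [map_add, map_one, bar_bar]
    ring
  have hρ : u1 * A j i + u2 * A i j = DD * (1 + bar h + h) := by
    rw [hAij, hAji]
    have := DD_eq
    unfold DD at this ⊢
    linear_combination -this
  set r : ℤ := ev1 (1 + bar h + h) with hr
  have hrodd : Odd r := by
    refine ⟨ev1 h, ?_⟩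
    rw [hr, map_add, map_add, map_one, ev1_bar]
    ring
  obtain ⟨ρ', hρ's, hρ'⟩ := symm_zero (E := 1 + bar h + h - (r : Lam))
    (by rw [map_sub, hρs, map_intCast]) (by rw [map_sub, map_intCast, ← hr]; simp)
  set a0 : ℤ := ev1 (A i i) with ha0
  obtain ⟨G3, hG3s, hG3⟩ := symm_zero (E := A i i - (a0 : Lam))
    (by rw [map_sub, herm_apply hA, map_intCast]) (by rw [map_sub, map_intCast, ← ha0]; simp)
  obtain ⟨x, y, hy⟩ := exists_x c1 r a0 (c0' + 2) hrodd hii
  set a' : Lam := A i j + (x : Lam) * u1 * A i i with ha'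
  have ha'1 : ev1 a' = 1 := by
    rw [ha', map_add, map_mul, map_mul, ev1_u1, h1]; ring
  have hΓs : bar (a' * bar a') = a' * bar a' := by rw [map_mul, bar_bar, mul_comm]
  obtain ⟨γ, g, hg, hΓ⟩ := symm_expand hΓs
  have hΓ1 : ev1 (a' * bar a') = 1 := by rw [map_mul, ev1_bar, ha'1, mul_one]
  rw [hΓ1, Int.cast_one] at hΓ
  set Γ : Lam := a' * bar a' with hΓdef
  set β : Lam := DD + (1 + T 1) * Γ with hβ
  have hbβ : bar β = DD + (1 + T (-1)) * Γ := by
    rw [hβ, map_add, map_mul, hΓs, bar_DD, map_add, map_one, bar_T]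
  have hDT : DD = 2 - T 1 - T (-1) := by
    rw [DD_eq]; unfold u1 u2; ring
  have hkey : u1 * bar β + u2 * β = DD ^ 2 := by
    have e1 : u1 * bar β + u2 * β = (u1 + u2) * DD + Γ * (u1 * (1 + T (-1)) + u2 * (1 + T 1)) := by
      rw [hβ, hbβ]; ring
    have e2 : u1 * (1 + T (-1)) + u2 * (1 + T 1) = 0 := by
      unfold u1 u2
      linear_combination (-2 : Lam) * T_mul_T
    rw [e1, e2, ← DD_eq]; ring
  have hsum : β + bar β = 2 * DD + (4 - DD) * Γ := by
    rw [hβ, hbβ, hDT]; ring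
  have hprod : bar β * β = DD ^ 2 + (4 - DD) * (DD * Γ + Γ ^ 2) := by
    have e1 : (1 + T 1) * (1 + T (-1)) = 4 - DD := by
      rw [hDT]; linear_combination T_mul_T
    have e2 : (1 + T 1) + (1 + T (-1)) = 4 - DD := by
      rw [hDT]; ring
    rw [hβ, hbβ]
    linear_combination Γ ^ 2 * e1 + DD * Γ * e2
  -- the coefficients
  set p0 : ℤ := -(c0' + 1) with hp0
  set p1 : ℤ := -y - 1 + γ * (c0' - 1) with hp1
  set H : Lam := G1 + (x : Lam) * ρ' + (x : Lam) ^ 2 * G3 with hH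
  set G : Lam := -H - 1 - (4 * ((γ : Lam) + (γ : Lam) ^ 2 + 2 * g) - (1 + 2 * (γ : Lam)))
    - (4 * (g + 2 * (γ : Lam) * g) - ((γ : Lam) + (γ : Lam) ^ 2 + 2 * g)) * DD
    - (4 * g ^ 2 - (g + 2 * (γ : Lam) * g)) * DD ^ 2 + g ^ 2 * DD ^ 3
    - ((p0 : Lam) * (4 * g - (γ : Lam)) + (p1 : Lam) * (4 * (γ : Lam) + 1))
    - (-(p0 : Lam) * g + (p1 : Lam) * (4 * g - (γ : Lam))) * DD + (p1 : Lam) * g * DD ^ 2 with hGdef
  have hGs : bar G = G := by
    rw [hGdef, hH]
    simp only [map_add, map_sub, map_neg, map_mul, map_pow, map_intCast, hg, hG1, hρ's, hG3s,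
      bar_DD, map_one, map_ofNat]
  set ajj : Lam := A j j + (x : Lam) * u1 * A j i + (x : Lam) * u2 * A i j +
    (x : Lam) ^ 2 * DD * A i i with hajj
  have hc0L : ((ev1 (A j j) : ℤ) : Lam) = 4 * (c0' : Lam) := by
    rw [hc0]; push_cast; ring
  have hyL : (c1 : Lam) + (x : Lam) * (r : Lam) + (x : Lam) ^ 2 * (a0 : Lam) =
      (c0' : Lam) + 2 + 4 * (y : Lam) := by
    have : c1 + x * r + x ^ 2 * a0 = c0' + 2 + 4 * y := by linear_combination hy
    exact_mod_cast congrArg (Int.cast : ℤ → Lam) this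
  have hajj' : ajj = 4 * (c0' : Lam) + ((c0' : Lam) + 2 + 4 * (y : Lam)) * DD + H * DD ^ 2 := by
    rw [hajj, hH]
    linear_combination hE1 + hc0L + (x : Lam) * hρ + DD * hyL + (x : Lam) * DD * hρ' +
      (x : Lam) ^ 2 * DD * hG3
  have hp0L : (p0 : Lam) = -((c0' : Lam) + 1) := by rw [hp0]; push_cast; ring
  have hp1L : (p1 : Lam) = -(y : Lam) - 1 + (γ : Lam) * ((c0' : Lam) - 1) := by
    rw [hp1]; push_cast; ring
  have hE : -ajj - bar β * β = ((p0 : Lam) + (p1 : Lam) * DD) * (β + bar β) + G * DD ^ 2 := by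
    rw [hsum, hprod, hajj', hGdef, hΓ, hp0L, hp1L]
    ring
  -- unimodularity
  obtain ⟨h', hh'⟩ := u1_dvd a'
  rw [ha'1, Int.cast_one] at hh'
  have hu1sq : u1 ^ 2 = - T 1 * DD := by
    unfold DD
    linear_combination (u1 : Lam) * u1_eq
  refine ⟨x, ((p0 : Lam) + (p1 : Lam) * DD) + G * u1, β,
    (1 - u1 * h') + T 1 * h' ^ 2 * (1 + T 1) * bar a', - T 1 * h' ^ 2, ?_, ?_, ?_⟩
  · rw [hβ, map_add, map_mul, map_add, map_one, ev1_T, ev1_DD, hΓ1]; norm_num
  · simp only [map_add, map_mul, map_intCast, hGs, bar_u1, bar_DD]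
    linear_combination (-1 : Lam) * hE + G * hkey
  · rw [hβ, hΓdef]
    linear_combination (1 - u1 * h') * hh' - h' ^ 2 * hu1sq

end Pool.Agent.Lib.MP_800ada_gt
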