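import Pool.Agent.Lib.MP_800ada_gt.Herm

/-!
# MP_800ada_gt: linking pairings of hermitian matrices
-/

namespace Pool.Agent.Lib.MP_800ada_gt

open Matrix

variable {R : Type} [CommRing R] [IsDomain R] (σ : R →+* R)
variable {ι κ : Type} [Fintype ι] [DecidableEq ι] [Fintype κ] [DecidableEq κ]

/-- Isometry of the linking pairings of two matrices. -/
def LIso (A : Matrix ι ι R) (B : Matrix κ κ R) : Prop :=
  ∃ g : Cok A ≃ₗ[R] Cok B, ∀ (a b : ι → R) (a' b' : κ → R),
    g (Submodule.Quotient.mk a) = Submodule.Quotient.mk a' →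
    g (Submodule.Quotient.mk b) = Submodule.Quotient.mk b' → lk σ A a b = lk σ B a' b'

lemma mk_eq_of_sub {x y : FractionRing R} (r : R) (h : x - y = algebraMap R (FractionRing R) r) :
    (Submodule.Quotient.mk x : FracMod R) = Submodule.Quotient.mk y := by
  rw [Submodule.Quotient.eq]
  exact ⟨r, h.symm⟩

omit [DecidableEq ι] [IsDomain R] in
lemma alg_mulVec [IsDomain R] (A : Matrix κ ι R) (x : ι → R) :
    (fun i => algebraMap R (FractionRing R) ((A *ᵥ x) i)) =
      (A.map (algebraMap R (FractionRing R))) *ᵥ (fun i => algebraMap R (FractionRing R) (x i)) := by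
  ext i
  simp [mulVec, dotProduct]

lemma det_map_ne (A : Matrix ι ι R) (hA : A.det ≠ 0) :
    IsUnit (A.map (algebraMap R (FractionRing R))).det := by
  have : (A.map (algebraMap R (FractionRing R))).det = algebraMap R (FractionRing R) A.det := by
    exact (RingHom.map_det _ _).symm
  rw [this, isUnit_iff_ne_zero]
  intro h
  apply hA
  exact (IsFractionRing.injective R (FractionRing R)) (by rw [h, map_zero])

lemma lk_add_right (A : Matrix ι ι R) (hd : A.det ≠ 0) (a b x : ι → R) :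
    lk σ A a (b + A *ᵥ x) = lk σ A a b := by
  unfold lk
  have h1 : (fun i => algebraMap R (FractionRing R) ((b + A *ᵥ x) i)) =
      (fun i => algebraMap R (FractionRing R) (b i)) +
        (A.map (algebraMap R (FractionRing R))) *ᵥ (fun i => algebraMap R (FractionRing R) (x i)) := by
    rw [← alg_mulVec]
    ext i
    simp
  rw [h1, mulVec_add, mulVec_mulVec, nonsing_inv_mul _ (det_map_ne A hd), one_mulVec]
  apply mk_eq_of_sub (r := (fun i => σ (a i)) ⬝ᵥ x)
  rw [dotProduct_add, add_sub_cancel_left]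
  simp [dotProduct]

lemma lk_add_left (A : Matrix ι ι R) (hA : ct σ A = A) (hd : A.det ≠ 0) (a b x : ι → R) :
    lk σ A (a + A *ᵥ x) b = lk σ A a b := by
  unfold lk
  have h0 : ∀ i j, σ (A i j) = A j i := by
    intro i j
    have := congrFun (congrFun hA j) i
    rwa [ct_apply] at this
  have h1 : (fun i => algebraMap R (FractionRing R) (σ ((a + A *ᵥ x) i))) =
      (fun i => algebraMap R (FractionRing R) (σ (a i))) +
        (fun i => algebraMap R (FractionRing R) (σ (x i))) ᵥ* (A.map (algebraMap R (FractionRing R))) := by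
    ext i
    simp only [Pi.add_apply, map_add, mulVec, vecMul, dotProduct, map_sum, map_mul, h0, map_apply]
    congr 1
    apply Finset.sum_congr rfl
    intro j _
    ring
  rw [h1, add_dotProduct, ← dotProduct_mulVec, mulVec_mulVec, mul_nonsing_inv _ (det_map_ne A hd),
    one_mulVec]
  apply mk_eq_of_sub (r := (fun i => σ (x i)) ⬝ᵥ b)
  rw [add_sub_cancel_left]
  simp [dotProduct]

lemma lk_congr (A : Matrix ι ι R) (hA : ct σ A = A) (hd : A.det ≠ 0) {a a' b b' : ι → R}
    (ha : (Submodule.Quotient.mk a : Cok A) = Submodule.Quotient.mk a')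
    (hb : (Submodule.Quotient.mk b : Cok A) = Submodule.Quotient.mk b') :
    lk σ A a b = lk σ A a' b' := by
  rw [Submodule.Quotient.eq] at ha hb
  obtain ⟨x, hx⟩ := ha
  obtain ⟨y, hy⟩ := hb
  have h1 : a = a' + A *ᵥ x := by
    have : A *ᵥ x = a - a' := hx
    rw [this]; abel
  have h2 : b = b' + A *ᵥ y := by
    have : A *ᵥ y = b - b' := hy
    rw [this]; abel
  rw [h1, h2, lk_add_left σ A hA hd, lk_add_right σ A hd]

lemma LIso.symm {A : Matrix ι ι R} {B : Matrix κ κ R} (h : LIso σ A B) : LIso σ B A := by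
  obtain ⟨g, hg⟩ := h
  refine ⟨g.symm, ?_⟩
  intro a b a' b' h1 h2
  rw [LinearEquiv.symm_apply_eq] at h1 h2
  exact (hg a' b' a b h1.symm h2.symm).symm

lemma LIso.trans {o : Type} [Fintype o] [DecidableEq o] {A : Matrix ι ι R} {B : Matrix κ κ R}
    {C : Matrix o o R} (h : LIso σ A B) (h' : LIso σ B C) : LIso σ A C := by
  obtain ⟨g, hg⟩ := h
  obtain ⟨g', hg'⟩ := h'
  refine ⟨g.trans g', ?_⟩
  intro a b a' b' h1 h2
  obtain ⟨a1, ha1⟩ := Submodule.Quotient.mk_surjective _ (g (Submodule.Quotient.mk a))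
  obtain ⟨b1, hb1⟩ := Submodule.Quotient.mk_surjective _ (g (Submodule.Quotient.mk b))
  rw [hg a b a1 b1 ha1.symm hb1.symm]
  apply hg' a1 b1 a' b'
  · rw [ha1]; exact h1
  · rw [hb1]; exact h2

/-- Constructor for isometries. -/
lemma LIso.of_maps {A : Matrix ι ι R} {B : Matrix κ κ R} (hB : ct σ B = B) (hdB : B.det ≠ 0)
    (T : (ι → R) →ₗ[R] (κ → R)) (S : (κ → R) →ₗ[R] (ι → R))
    (h1 : ∀ x, ∃ y, T (A *ᵥ x) = B *ᵥ y) (h2 : ∀ x, ∃ y, S (B *ᵥ x) = A *ᵥ y)
    (h3 : ∀ a, ∃ y, S (T a) - a = A *ᵥ y) (h4 : ∀ b, ∃ y, T (S b) - b = B *ᵥ y)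
    (h5 : ∀ a b, lk σ A a b = lk σ B (T a) (T b)) : LIso σ A B := by
  have hT : LinearMap.range A.mulVecLin ≤ (LinearMap.range B.mulVecLin).comap T := by
    rintro _ ⟨x, rfl⟩
    obtain ⟨y, hy⟩ := h1 x
    exact ⟨y, hy.symm⟩
  have hS : LinearMap.range B.mulVecLin ≤ (LinearMap.range A.mulVecLin).comap S := by
    rintro _ ⟨x, rfl⟩
    obtain ⟨y, hy⟩ := h2 x
    exact ⟨y, hy.symm⟩
  let g1 : Cok A →ₗ[R] Cok B := Submodule.mapQ _ _ T hT
  let g2 : Cok B →ₗ[R] Cok A := Submodule.mapQ _ _ S hS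
  have e1 : g1 ∘ₗ g2 = LinearMap.id := by
    apply Submodule.linearMap_qext
    apply LinearMap.ext
    intro b
    obtain ⟨y, hy⟩ := h4 b
    change (Submodule.Quotient.mk (T (S b)) : Cok B) = Submodule.Quotient.mk b
    rw [Submodule.Quotient.eq, hy]
    exact ⟨y, rfl⟩
  have e2 : g2 ∘ₗ g1 = LinearMap.id := by
    apply Submodule.linearMap_qext
    apply LinearMap.ext
    intro a
    obtain ⟨y, hy⟩ := h3 a
    change (Submodule.Quotient.mk (S (T a)) : Cok A) = Submodule.Quotient.mk a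
    rw [Submodule.Quotient.eq, hy]
    exact ⟨y, rfl⟩
  refine ⟨LinearEquiv.ofLinearMap g1 g2 e1 e2, ?_⟩
  intro a b a' b' ha hb
  rw [h5 a b]
  exact lk_congr σ B hB hdB ha hb

/-- Congruent matrices have isometric linking pairings. -/
lemma LIso.of_congr (hσ : ∀ x, σ (σ x) = x) {A : Matrix ι ι R} {B : Matrix κ κ R} (hA : ct σ A = A)
    (hB : ct σ B = B) (hdA : A.det ≠ 0)
    (hdB : B.det ≠ 0) (P : Matrix κ ι R) (Q : Matrix ι κ R) (hPQ : P * Q = 1) (hQP : Q * P = 1)
    (h : A = ct σ P * B * P) : LIso σ B A := by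
  have hct1 : ct σ Q * ct σ P = 1 := by rw [← ct_mul, hPQ, ct_one]
  have hct2 : ct σ P * ct σ Q = 1 := by rw [← ct_mul, hQP, ct_one]
  refine LIso.of_maps σ hA hdA (ct σ P).mulVecLin (ct σ Q).mulVecLin ?_ ?_ ?_ ?_ ?_
  · intro x
    refine ⟨Q *ᵥ x, ?_⟩
    simp only [mulVecLin_apply, mulVec_mulVec]
    rw [h, Matrix.mul_assoc, hPQ, Matrix.mul_one]
  · intro x
    refine ⟨P *ᵥ x, ?_⟩
    simp only [mulVecLin_apply, mulVec_mulVec]
    rw [h, ← Matrix.mul_assoc, ← Matrix.mul_assoc, hct1, Matrix.one_mul]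
  · intro a
    refine ⟨0, ?_⟩
    simp only [mulVecLin_apply, mulVec_mulVec, hct1, one_mulVec, sub_self, mulVec_zero]
  · intro b
    refine ⟨0, ?_⟩
    simp only [mulVecLin_apply, mulVec_mulVec, hct2, one_mulVec, sub_self, mulVec_zero]
  · intro a b
    unfold lk
    congr 1
    set φ := algebraMap R (FractionRing R) with hφ
    have hQ1 : (P.map φ) * (Q.map φ) = 1 := by
      rw [← Matrix.map_mul, hPQ, Matrix.map_one _ (map_zero φ) (map_one φ)]
    have hinv : (A.map φ)⁻¹ = Q.map φ * (B.map φ)⁻¹ * (ct σ Q).map φ := by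
      apply Matrix.inv_eq_right_inv
      rw [h, Matrix.map_mul, Matrix.map_mul]
      calc (ct σ P).map φ * B.map φ * P.map φ * (Q.map φ * (B.map φ)⁻¹ * (ct σ Q).map φ)
          = (ct σ P).map φ * (B.map φ * ((P.map φ * Q.map φ) * ((B.map φ)⁻¹ * (ct σ Q).map φ))) := by
            simp only [Matrix.mul_assoc]
        _ = (ct σ P).map φ * ((B.map φ * (B.map φ)⁻¹) * (ct σ Q).map φ) := by
            rw [hQ1, Matrix.one_mul, Matrix.mul_assoc]
        _ = 1 := by
            rw [mul_nonsing_inv _ (det_map_ne B hdB), Matrix.one_mul, ← Matrix.map_mul, hct2,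
              Matrix.map_one _ (map_zero φ) (map_one φ)]
    rw [hinv]
    have hl : (fun i => φ (σ ((ct σ P).mulVecLin a i))) = (fun i => φ (σ (a i))) ᵥ* (P.map φ) := by
      ext i
      simp only [mulVecLin_apply, mulVec, vecMul, dotProduct, map_sum, map_mul, ct_apply, hσ,
        map_apply]
      apply Finset.sum_congr rfl
      intro j _
      ring
    have hr : (fun i => φ ((ct σ P).mulVecLin b i)) = (ct σ P).map φ *ᵥ (fun i => φ (b i)) := by
      rw [mulVecLin_apply, alg_mulVec]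
    rw [hl, hr, mulVec_mulVec, ← dotProduct_mulVec, mulVec_mulVec]
    congr 2
    calc (B.map φ)⁻¹ = (1 : Matrix κ κ _) * (B.map φ)⁻¹ * 1 := by rw [Matrix.one_mul, Matrix.mul_one]
      _ = (P.map φ * Q.map φ) * (B.map φ)⁻¹ * ((ct σ Q).map φ * (ct σ P).map φ) := by
          rw [hQ1, ← Matrix.map_mul, hct1, Matrix.map_one _ (map_zero φ) (map_one φ)]
      _ = _ := by simp only [Matrix.mul_assoc]

/-- Adding a unimodular summand does not change the linking pairing. -/
lemma LIso.of_stab {A : Matrix ι ι R} {U V : Matrix κ κ R} (hA : ct σ A = A) (hdA : A.det ≠ 0)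
    (hUV : U * V = 1) : LIso σ (fromBlocks A 0 0 U) A := by
  set φ := algebraMap R (FractionRing R) with hφ
  have hVU : V * U = 1 := mul_eq_one_comm.mp hUV
  let T : (ι ⊕ κ → R) →ₗ[R] (ι → R) := LinearMap.funLeft R R Sum.inl
  let S : (ι → R) →ₗ[R] (ι ⊕ κ → R) :=
    { toFun := fun a => Sum.elim a 0
      map_add' := by intro a b; ext (i | i) <;> simp
      map_smul' := by intro r a; ext (i | i) <;> simp }
  refine LIso.of_maps σ hA hdA T S ?_ ?_ ?_ ?_ ?_
  · intro x
    refine ⟨x ∘ Sum.inl, ?_⟩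
    ext i
    simp [T, LinearMap.funLeft_apply, mulVec, dotProduct, Fintype.sum_sum_type]
  · intro x
    refine ⟨Sum.elim x 0, ?_⟩
    rw [fromBlocks_mulVec]
    ext (i | i) <;> simp [S]
  · intro a
    refine ⟨Sum.elim 0 (-(V *ᵥ (a ∘ Sum.inr))), ?_⟩
    rw [fromBlocks_mulVec]
    ext (i | i)
    · simp [S, T, LinearMap.funLeft_apply]
    · have : U *ᵥ (V *ᵥ (a ∘ Sum.inr)) = a ∘ Sum.inr := by rw [mulVec_mulVec, hUV, one_mulVec]
      simp [S, T, mulVec_neg, this]
  · intro b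
    refine ⟨0, ?_⟩
    ext i
    simp [S, T, LinearMap.funLeft_apply]
  · intro a b
    unfold lk
    rw [← hφ]
    have hinv : ((fromBlocks A 0 0 U).map φ)⁻¹ = fromBlocks (A.map φ)⁻¹ 0 0 (V.map φ) := by
      apply Matrix.inv_eq_right_inv
      rw [fromBlocks_map, fromBlocks_multiply]
      have h0 : (0 : Matrix ι κ R).map φ = 0 := by ext; simp
      have h0' : (0 : Matrix κ ι R).map φ = 0 := by ext; simp
      have hU : (U.map φ) * (V.map φ) = 1 := by
        rw [← Matrix.map_mul, hUV, Matrix.map_one _ (map_zero φ) (map_one φ)]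
      rw [h0, h0', mul_nonsing_inv _ (det_map_ne A hdA), hU]
      simp [← fromBlocks_one]
    rw [hinv]
    apply mk_eq_of_sub (r := (fun i => σ (a (Sum.inr i))) ⬝ᵥ (V *ᵥ (b ∘ Sum.inr)))
    have e1 : (fun i => φ (b i)) = Sum.elim (fun i => φ (b (Sum.inl i))) (fun i => φ (b (Sum.inr i))) := by
      ext (i | i) <;> rfl
    have e2 : (fun i => φ (σ (a i))) = Sum.elim (fun i => φ (σ (a (Sum.inl i)))) (fun i => φ (σ (a (Sum.inr i)))) := by
      ext (i | i) <;> rfl
    rw [e1, e2, fromBlocks_mulVec]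
    simp only [Sum.elim_comp_inl, Sum.elim_comp_inr, zero_mulVec, add_zero, zero_add]
    have e3 : ∀ (x y : ι → FractionRing R) (z w : κ → FractionRing R),
        Sum.elim x z ⬝ᵥ Sum.elim y w = x ⬝ᵥ y + z ⬝ᵥ w := by
      intro x y z w
      simp [dotProduct, Fintype.sum_sum_type]
    rw [e3]
    have e4 : (fun i => φ (σ ((T a) i))) = (fun i => φ (σ (a (Sum.inl i)))) := rfl
    have e5 : (fun i => φ ((T b) i)) = (fun i => φ (b (Sum.inl i))) := rfl
    rw [e4, e5, add_sub_cancel_left]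
    simp [dotProduct, mulVec, hφ]

end Pool.Agent.Lib.MP_800ada_gt
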