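import Pool.Agent.Lib.MP_800ada_gt.Lam

/-!
# MP_800ada_gt: making `A(1)` diagonal
-/

namespace Pool.Agent.Lib.MP_800ada_gt

open Matrix LaurentPolynomial

variable {ι : Type} [Fintype ι] [DecidableEq ι]

lemma congr_link (A : Matrix ι ι Lam) (hA : ct bar A = A) (hd : A.det ≠ 0) (P : Matrix ι ι Lam)
    (hP : IsUnit P.det) : ct bar (ct bar P * A * P) = ct bar P * A * P ∧
      (ct bar P * A * P).det ≠ 0 ∧ LIso bar A (ct bar P * A * P) := by
  have h1 : ct bar (ct bar P * A * P) = ct bar P * A * P := by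
    rw [ct_mul, ct_mul, ct_ct bar bar_bar, hA, Matrix.mul_assoc]
  have h2 : (ct bar P * A * P).det ≠ 0 := by
    rw [det_mul, det_mul, det_ct]
    exact mul_ne_zero (mul_ne_zero ((hP.map bar).ne_zero) hd) hP.ne_zero
  refine ⟨h1, h2, ?_⟩
  exact LIso.of_congr bar bar_bar h1 hA h2 hd P P⁻¹ (mul_nonsing_inv _ hP) (nonsing_inv_mul _ hP) rfl

lemma step_link (A : Matrix ι ι Lam) (hA : ct bar A = A) (hd : A.det ≠ 0) (i j : ι) (hij : i ≠ j)
    (α β ε δ : Lam)
    (h1 : A j j + bar α * β + bar β * α + bar β * β = 0)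
    (h2 : ε * A i j + δ * β = 1) :
    ∃ (A' : Matrix ι ι Lam) (c : Lam) (P Q : Matrix (ι ⊕ Fin 2) (ι ⊕ Fin 2) Lam),
      ct bar A' = A' ∧ P * Q = 1 ∧ Q * P = 1 ∧
      ct bar P * fromBlocks A' 0 0 (pl c) * P = fromBlocks A 0 0 (pl 1) ∧
      P *ᵥ (Sum.elim (Pi.single j 1) ![α, β]) = Pi.single (Sum.inr 0) 1 ∧
      A'.det ≠ 0 ∧ LIso bar A A' := by
  obtain ⟨A', c, P, Q, hA', hc, hPQ, hQP, hP, hz⟩ := step bar bar_bar A hA i j hij α β ε δ h1 h2
  have hN : (fromBlocks A 0 0 (pl 1)).det ≠ 0 := by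
    rw [det_fromBlocks_zero₂₁, det_pl]
    exact mul_ne_zero hd (by norm_num)
  have hN' : (fromBlocks A' 0 0 (pl c)).det ≠ 0 := by
    intro h
    apply hN
    rw [← hP, det_mul, det_mul, h]
    ring
  have hd' : A'.det ≠ 0 := by
    intro h
    apply hN'
    rw [det_fromBlocks_zero₂₁, h, zero_mul]
  refine ⟨A', c, P, Q, hA', hPQ, hQP, hP, hz, hd', ?_⟩
  have hs1 : LIso bar (fromBlocks A 0 0 (pl 1)) A := LIso.of_stab bar hA hd (pl_mul_plinv 1)
  have hs2 : LIso bar (fromBlocks A' 0 0 (pl c)) A' := LIso.of_stab bar hA' hd' (pl_mul_plinv c)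
  have hh1 : ct bar (fromBlocks A 0 0 (pl 1)) = fromBlocks A 0 0 (pl (1 : Lam)) := by
    rw [ct_fromBlocks, hA, ct_zero, ct_zero, ct_pl bar (map_one bar)]
  have hh2 : ct bar (fromBlocks A' 0 0 (pl c)) = fromBlocks A' 0 0 (pl c) := by
    rw [ct_fromBlocks, hA', ct_zero, ct_zero, ct_pl bar hc]
  have hs3 := LIso.of_congr bar bar_bar hh1 hh2 hN hN' P Q hPQ hQP hP.symm
  exact ((hs2.symm).trans bar (hs3.trans bar hs1)).symm

lemma ct_map_ev1 {κ o : Type*} (P : Matrix κ o Lam) : (ct bar P).map ev1 = (P.map ev1)ᵀ := by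
  ext i j
  simp [ct, ev1_bar]

lemma map_fromBlocks_ev1 (A : Matrix ι ι Lam) (c : Lam) :
    (fromBlocks A 0 0 (pl c)).map ev1 = fromBlocks (A.map ev1) 0 0 (pl (ev1 c)) := by
  ext (i | i) (j | j)
  · simp
  · simp
  · simp
  · fin_cases i <;> fin_cases j <;> simp [pl]

lemma NM_eq (M : Matrix ι ι ℤ) : NM M = fromBlocks M 0 0 (pl 1) := rfl

lemma ct_id {κ o : Type*} (P : Matrix κ o ℤ) : ct (RingHom.id ℤ) P = Pᵀ := by
  ext i j; simp [ct]

lemma det_map_ev1 {κ : Type} [Fintype κ] [DecidableEq κ] (A : Matrix κ κ Lam) :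
    (A.map ev1).det = ev1 A.det := (RingHom.map_det ev1 A).symm

lemma isUnit_of_step {M M' : Matrix ι ι ℤ} {c : ℤ} {P Q : Matrix (ι ⊕ Fin 2) (ι ⊕ Fin 2) ℤ}
    (hPQ : P * Q = 1) (hP : Pᵀ * fromBlocks M' 0 0 (pl c) * P = NM M) (hM : IsUnit M.det) :
    IsUnit M'.det := by
  have h1 : (P.det * P.det) * (M'.det * (-1)) = M.det * (-1) := by
    have := congrArg Matrix.det hP
    rw [det_mul, det_mul, det_transpose, det_fromBlocks_zero₂₁, det_pl, NM_eq,
      det_fromBlocks_zero₂₁, det_pl] at this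
    linear_combination this
  have h2 : IsUnit ((P.det * P.det) * (M'.det * (-1))) := by
    rw [h1]
    exact hM.mul (by norm_num)
  exact isUnit_of_mul_isUnit_left (isUnit_of_mul_isUnit_right h2)

/-- A symmetric integral matrix with even diagonal has even quadratic form. -/
lemma even_form (M : Matrix ι ι ℤ) (hs : M.IsSymm) (he : ∀ i, Even (M i i)) (x : ι → ℤ) :
    Even (x ⬝ᵥ M *ᵥ x) := by
  have key : ∀ s : Finset ι, Even (∑ i ∈ s, ∑ j ∈ s, x i * (M i j * x j)) := by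
    intro s
    induction s using Finset.induction_on with
    | empty => simp
    | insert a s ha ih =>
      rw [Finset.sum_insert ha]
      have h1 : ∀ i, ∑ j ∈ insert a s, x i * (M i j * x j) =
          x i * (M i a * x a) + ∑ j ∈ s, x i * (M i j * x j) := fun i => Finset.sum_insert ha
      simp only [h1]
      rw [Finset.sum_add_distrib]
      have h2 : ∑ i ∈ s, x i * (M i a * x a) = ∑ j ∈ s, x a * (M a j * x j) := by
        apply Finset.sum_congr rfl
        intro i _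
        rw [← hs.apply a i]
        ring
      rw [h2]
      have h3 : Even (x a * (M a a * x a)) := by
        obtain ⟨q, hq⟩ := he a
        exact ⟨x a * q * x a, by rw [hq]; ring⟩
      obtain ⟨q, hq⟩ := h3
      obtain ⟨q', hq'⟩ := ih
      refine ⟨q + q' + ∑ j ∈ s, x a * (M a j * x j), ?_⟩
      rw [hq, hq']
      ring
  have h := key Finset.univ
  have e : x ⬝ᵥ M *ᵥ x = ∑ i, ∑ j, x i * (M i j * x j) := by
    simp only [dotProduct, mulVec, Finset.mul_sum]
  rw [e]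
  exact h

lemma ev1_mulVec {κ : Type} [Fintype κ] (P : Matrix κ κ Lam) (z : κ → Lam) :
    (fun i => ev1 ((P *ᵥ z) i)) = (P.map ev1) *ᵥ (fun i => ev1 (z i)) := by
  ext i
  simp [mulVec, dotProduct]

/-- The odd case. -/
lemma odd_case (hZs : ZSmallProp) (hZo : ZOddProp) (A : Matrix ι ι Lam) (hA : ct bar A = A)
    (hd : A.det ≠ 0) (hu : IsUnit (A.map ev1).det) (hodd : ∃ i, Odd ((A.map ev1) i i)) :
    ∃ A' : Matrix ι ι Lam, ct bar A' = A' ∧ A'.det ≠ 0 ∧ LIso bar A A' ∧ DiagPM (A'.map ev1) := by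
  have hsymm : (A.map ev1).IsSymm := by
    rw [Matrix.IsSymm, ← ct_map_ev1, hA]
  rcases Nat.lt_or_ge 2 (Fintype.card ι) with hc | hc
  · obtain ⟨P0, i, j, α0, k, hP0, hij, hij1, hiso, hX⟩ := hZo ι (A.map ev1) hsymm hu hodd hc
    set PL : Matrix ι ι Lam := P0.map (Int.castRingHom Lam) with hPL
    have hPLev : PL.map ev1 = P0 := by
      ext i j; simp [hPL]
    have hPLdet : IsUnit PL.det := by
      have : PL.det = Int.castRingHom Lam P0.det := (RingHom.map_det _ _).symm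
      rw [this]
      exact hP0.map _
    obtain ⟨hA1, hd1, hL1⟩ := congr_link A hA hd PL hPLdet
    set A1 := ct bar PL * A * PL with hA1def
    have hM1 : A1.map ev1 = P0ᵀ * A.map ev1 * P0 := by
      rw [hA1def, Matrix.map_mul, Matrix.map_mul, ct_map_ev1, hPLev]
    rw [← hM1] at hij1 hiso hX
    obtain ⟨α, β, ε, δ, hα, hβ, h1, h2⟩ := lam_odd A1 hA1 i j hij1 α0 k hiso
    obtain ⟨A', c, P, Q, hA', hPQ, hQP, hP, hz, hd', hL⟩ :=
      step_link A1 hA1 hd1 i j hij α β ε δ h1 h2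
    refine ⟨A', hA', hd', hL1.trans bar hL, ?_⟩
    obtain ⟨Φ, d, hΦ, hdd, hΦN, hΦx⟩ := hX
    have hP1 : (P.map ev1)ᵀ * fromBlocks (A'.map ev1) 0 0 (pl (ev1 c)) * (P.map ev1) =
        NM (A1.map ev1) := by
      rw [← map_fromBlocks_ev1, ← ct_map_ev1, ← Matrix.map_mul, ← Matrix.map_mul, hP,
        map_fromBlocks_ev1, map_one, NM_eq]
    have hPQ1 : P.map ev1 * Q.map ev1 = 1 := by
      rw [← Matrix.map_mul, hPQ, Matrix.map_one _ (map_zero ev1) (map_one ev1)]
    have hQP1 : Q.map ev1 * P.map ev1 = 1 := by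
      rw [← Matrix.map_mul, hQP, Matrix.map_one _ (map_zero ev1) (map_one ev1)]
    have hz1 : (P.map ev1) *ᵥ (Sum.elim (Pi.single j 1) ![α0, 2 * k + 1]) = Pi.single (Sum.inr 0) 1 := by
      have e1 : (fun x => ev1 ((Sum.elim (Pi.single j 1) ![α, β] : ι ⊕ Fin 2 → Lam) x)) =
          (Sum.elim (Pi.single j 1) ![α0, 2 * k + 1] : ι ⊕ Fin 2 → ℤ) := by
        ext (x | x)
        · simp only [Sum.elim_inl, Pi.single_apply]
          split_ifs <;> simp
        · fin_cases x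
          · simpa using hα
          · simpa using hβ
      rw [← e1, ← ev1_mulVec, hz]
      ext x
      simp only [Pi.single_apply]
      split_ifs <;> simp
    have hM'u : IsUnit (A'.map ev1).det := by
      apply isUnit_of_step hPQ1 hP1
      rw [hM1, det_mul, det_mul, det_transpose]
      exact (hP0.mul hu).mul hP0
    set S := Φ * Q.map ev1 with hS
    have hT : ct (RingHom.id ℤ) S * fromBlocks (Matrix.diagonal d) 0 0 (pl 1) * S =
        fromBlocks (A'.map ev1) 0 0 (pl (ev1 c)) := by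
      rw [ct_id, hS, transpose_mul, ← NM_eq]
      calc (Q.map ev1)ᵀ * Φᵀ * NM (diagonal d) * (Φ * Q.map ev1)
          = (Q.map ev1)ᵀ * (Φᵀ * NM (diagonal d) * Φ) * Q.map ev1 := by
            simp only [Matrix.mul_assoc]
        _ = (Q.map ev1)ᵀ * ((P.map ev1)ᵀ * fromBlocks (A'.map ev1) 0 0 (pl (ev1 c)) * (P.map ev1)) *
              Q.map ev1 := by rw [← hΦN, hP1]
        _ = (P.map ev1 * Q.map ev1)ᵀ * fromBlocks (A'.map ev1) 0 0 (pl (ev1 c)) *
              (P.map ev1 * Q.map ev1) := by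
            rw [transpose_mul]
            simp only [Matrix.mul_assoc]
        _ = _ := by rw [hPQ1, transpose_one, Matrix.one_mul, Matrix.mul_one]
    have hTe : S *ᵥ Pi.single (Sum.inr 0) 1 = Pi.single (Sum.inr 0) 1 := by
      rw [hS, ← mulVec_mulVec, ← hz1, mulVec_mulVec (M := Q.map ev1), hQP1, one_mulVec, hΦx, hz1]
    have hfin := uniq (RingHom.id ℤ) (Matrix.diagonal d) (A'.map ev1) S 1 (ev1 c) hT hTe
    rw [ct_id] at hfin
    refine ⟨S.toBlocks₁₁, d, ?_, hdd, hfin.symm⟩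
    rw [← hfin, det_mul, det_mul] at hM'u
    exact isUnit_of_mul_isUnit_right hM'u
  · refine ⟨A, hA, hd, ?_, hZs ι (A.map ev1) hsymm hu hodd hc⟩
    have := congr_link A hA hd 1 (by simp)
    rw [ct_one, Matrix.one_mul, Matrix.mul_one] at this
    exact this.2.2

/-- The even case: one step leads to an odd `A'(1)`. -/
lemma even_case (hZe : ZEvenProp) [Nonempty ι] (A : Matrix ι ι Lam) (hA : ct bar A = A)
    (hd : A.det ≠ 0) (hu : IsUnit (A.map ev1).det) (heven : ∀ i, Even ((A.map ev1) i i)) :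
    ∃ A' : Matrix ι ι Lam, ct bar A' = A' ∧ A'.det ≠ 0 ∧ LIso bar A A' ∧
      IsUnit (A'.map ev1).det ∧ ∃ i, Odd ((A'.map ev1) i i) := by
  have hsymm : (A.map ev1).IsSymm := by
    rw [Matrix.IsSymm, ← ct_map_ev1, hA]
  obtain ⟨P0, i, j, hP0, hij, hij1, h4⟩ := hZe ι (A.map ev1) hsymm hu heven
  set PL : Matrix ι ι Lam := P0.map (Int.castRingHom Lam) with hPL
  have hPLev : PL.map ev1 = P0 := by
    ext i j; simp [hPL]
  have hPLdet : IsUnit PL.det := by
    have : PL.det = Int.castRingHom Lam P0.det := (RingHom.map_det _ _).symm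
    rw [this]
    exact hP0.map _
  obtain ⟨hA1, hd1, hL1⟩ := congr_link A hA hd PL hPLdet
  set A1 := ct bar PL * A * PL with hA1def
  have hM1 : A1.map ev1 = P0ᵀ * A.map ev1 * P0 := by
    rw [hA1def, Matrix.map_mul, Matrix.map_mul, ct_map_ev1, hPLev]
  have hM1u : IsUnit (A1.map ev1).det := by
    rw [hM1, det_mul, det_mul, det_transpose]
    exact (hP0.mul hu).mul hP0
  have hM1even : ∀ l, Even ((A1.map ev1) l l) := by
    intro l
    have := even_form (A.map ev1) hsymm heven (fun a => P0 a l)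
    rw [hM1]
    have e : (fun a => P0 a l) ⬝ᵥ A.map ev1 *ᵥ (fun a => P0 a l) =
        (P0ᵀ * A.map ev1 * P0) l l := by
      rw [Matrix.mul_assoc]; rfl
    rw [← e]
    exact this
  rw [← hM1] at hij1 h4
  obtain ⟨x, α, β, ε, δ, hβ, h1, h2⟩ := lam_even A1 hA1 i j hij1 h4 (hM1even i)
  set Px : Matrix ι ι Lam := Matrix.transvection i j ((x : Lam) * u1) with hPx
  have hPxdet : IsUnit Px.det := by
    rw [hPx, det_transvection_of_ne _ _ hij]
    exact isUnit_one
  obtain ⟨hA2, hd2, hL2⟩ := congr_link A1 hA1 hd1 Px hPxdet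
  set A2 := ct bar Px * A1 * Px with hA2def
  have hPxev : Px.map ev1 = 1 := by
    have e : ev1 ((x : Lam) * u1) = 0 := by rw [map_mul, ev1_u1, mul_zero]
    rw [hPx, Matrix.transvection]
    ext a b
    rw [map_apply, Matrix.add_apply, map_add, Matrix.single_apply, Matrix.one_apply, Matrix.one_apply]
    split_ifs <;> simp [ev1_u1]
  have hM2 : A2.map ev1 = A1.map ev1 := by
    rw [hA2def, Matrix.map_mul, Matrix.map_mul, ct_map_ev1, hPxev, transpose_one, Matrix.one_mul,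
      Matrix.mul_one]
  have hctPx : ct bar Px = Matrix.transvection j i ((x : Lam) * u2) := by
    rw [hPx]
    ext a b
    rw [ct_apply, Matrix.transvection, Matrix.transvection, Matrix.add_apply, Matrix.add_apply, map_add,
      Matrix.single_apply, Matrix.single_apply, Matrix.one_apply, Matrix.one_apply]
    have e : bar ((x : Lam) * u1) = (x : Lam) * u2 := by rw [map_mul, map_intCast, bar_u1]
    have e2 : bar (if b = a then (1 : Lam) else 0) = if a = b then 1 else 0 := by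
      by_cases h : b = a
      · rw [if_pos h, if_pos h.symm, map_one]
      · rw [if_neg h, if_neg (fun h' => h h'.symm), map_zero]
    have e3 : bar (if i = b ∧ j = a then (x : Lam) * u1 else 0) =
        if j = a ∧ i = b then (x : Lam) * u2 else 0 := by
      by_cases h : i = b ∧ j = a
      · rw [if_pos h, if_pos ⟨h.2, h.1⟩, e]
      · rw [if_neg h, if_neg (fun h' => h ⟨h'.2, h'.1⟩), map_zero]
    rw [e2, e3]
  have hA2ij : A2 i j = A1 i j + (x : Lam) * u1 * A1 i i := by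
    rw [hA2def, Matrix.mul_assoc, hctPx, transvection_mul_apply_of_ne _ _ _ _ hij, hPx,
      mul_transvection_apply_same]
  have hA2jj : A2 j j = A1 j j + (x : Lam) * u1 * A1 j i + (x : Lam) * u2 * A1 i j +
      (x : Lam) ^ 2 * DD * A1 i i := by
    rw [hA2def, Matrix.mul_assoc, hctPx, transvection_mul_apply_same, hPx,
      mul_transvection_apply_same, mul_transvection_apply_same]
    unfold DD
    ring
  obtain ⟨A', c, P, Q, hA', hPQ, hQP, hP, hz, hd', hL⟩ :=
    step_link A2 hA2 hd2 i j hij α β ε δ (by rw [hA2jj]; exact h1) (by rw [hA2ij]; exact h2)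
  have hP1 : (P.map ev1)ᵀ * fromBlocks (A'.map ev1) 0 0 (pl (ev1 c)) * (P.map ev1) =
      NM (A2.map ev1) := by
    rw [← map_fromBlocks_ev1, ← ct_map_ev1, ← Matrix.map_mul, ← Matrix.map_mul, hP,
      map_fromBlocks_ev1, map_one, NM_eq]
  have hPQ1 : P.map ev1 * Q.map ev1 = 1 := by
    rw [← Matrix.map_mul, hPQ, Matrix.map_one _ (map_zero ev1) (map_one ev1)]
  have hM'u : IsUnit (A'.map ev1).det := by
    apply isUnit_of_step hPQ1 hP1
    rw [hM2]
    exact hM1u
  refine ⟨A', hA', hd', (hL1.trans bar hL2).trans bar hL, hM'u, ?_⟩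
  by_contra hno
  push Not at hno
  have hev : ∀ l, Even ((A'.map ev1) l l) := fun l => Int.not_odd_iff_even.mp (hno l)
  have hsymm' : (A'.map ev1).IsSymm := by
    rw [Matrix.IsSymm, ← ct_map_ev1, hA']
  set M := A2.map ev1 with hMdef
  set M' := A'.map ev1 with hM'def
  set P1 := P.map ev1 with hP1def
  set z1 : ι ⊕ Fin 2 → ℤ := Sum.elim (Pi.single j 1) ![ev1 α, 2] with hz1def
  have hz1 : P1 *ᵥ z1 = Pi.single (Sum.inr 0) 1 := by
    have e1 : (fun x => ev1 ((Sum.elim (Pi.single j 1) ![α, β] : ι ⊕ Fin 2 → Lam) x)) = z1 := by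
      ext (x | x)
      · simp only [hz1def, Sum.elim_inl, Pi.single_apply]
        split_ifs <;> simp
      · fin_cases x
        · simp [hz1def]
        · simpa [hz1def] using hβ
    rw [← e1, ← ev1_mulVec, hz]
    ext x
    simp only [Pi.single_apply]
    split_ifs <;> simp
  set v : ι ⊕ Fin 2 → ℤ := Sum.elim (Pi.single i (-(ev1 α + 2))) ![0, 1] with hv
  have hMij : M i j = 1 := by rw [hM2]; exact hij1
  have hsM : M.IsSymm := by
    rw [hMdef, Matrix.IsSymm, ← ct_map_ev1, hA2]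
  have hMji : M j i = 1 := by rw [← hsM.apply j i] ; exact hMij
  -- orthogonality
  have horth : z1 ⬝ᵥ NM M *ᵥ v = 0 := by
    rw [hz1def, hv, NM_eq, fromBlocks_mulVec]
    simp [dotProduct, Fintype.sum_sum_type, pl, mulVec, Pi.single_apply, hMji]
  have hnorm : v ⬝ᵥ NM M *ᵥ v = (ev1 α + 2) ^ 2 * M i i + 1 := by
    rw [hv, NM_eq, fromBlocks_mulVec]
    simp [dotProduct, Fintype.sum_sum_type, pl, mulVec, Pi.single_apply]
    ring
  have htrans : ∀ a b : ι ⊕ Fin 2 → ℤ, a ⬝ᵥ NM M *ᵥ b =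
      (P1 *ᵥ a) ⬝ᵥ fromBlocks M' 0 0 (pl (ev1 c)) *ᵥ (P1 *ᵥ b) := by
    intro a b
    rw [← hP1, ← mulVec_mulVec, ← mulVec_mulVec, dotProduct_mulVec, vecMul_transpose]
  rw [htrans, hz1] at horth
  rw [htrans] at hnorm
  set v' := P1 *ᵥ v with hv'
  have hv'1 : v' (Sum.inr 1) = 0 := by
    rw [single_one_dotProduct] at horth
    rw [fromBlocks_mulVec] at horth
    simpa [pl, mulVec, dotProduct] using horth
  have hv'norm : v' ⬝ᵥ fromBlocks M' 0 0 (pl (ev1 c)) *ᵥ v' = (v' ∘ Sum.inl) ⬝ᵥ M' *ᵥ (v' ∘ Sum.inl) := by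
    rw [fromBlocks_mulVec]
    simp [dotProduct, Fintype.sum_sum_type, pl, mulVec, hv'1]
  rw [hv'norm] at hnorm
  have h5 := even_form M' hsymm' hev (v' ∘ Sum.inl)
  rw [hnorm] at h5
  have h6 : Even (M i i) := by rw [hM2]; exact hM1even i
  obtain ⟨q, hq⟩ := h5
  obtain ⟨q', hq'⟩ := h6
  rw [hq'] at hq
  have : 2 * (q - (ev1 α + 2) ^ 2 * q') = 1 := by linear_combination -hq
  omega

/-- Main algebraic theorem. -/
theorem main_alg (hZs : ZSmallProp) (hZo : ZOddProp) (hZe : ZEvenProp) (A : Matrix ι ι Lam)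
    (hA : ct bar A = A) (hd : A.det ≠ 0) (hu : IsUnit (ev1 A.det)) :
    ∃ A' : Matrix ι ι Lam, ct bar A' = A' ∧ A'.det ≠ 0 ∧ LIso bar A A' ∧ DiagPM (A'.map ev1) := by
  rw [← det_map_ev1] at hu
  by_cases hodd : ∃ i, Odd ((A.map ev1) i i)
  · exact odd_case hZs hZo A hA hd hu hodd
  · push Not at hodd
    have heven : ∀ i, Even ((A.map ev1) i i) := fun i => Int.not_odd_iff_even.mp (hodd i)
    rcases isEmpty_or_nonempty ι with hι | hι
    · refine ⟨A, hA, hd, ?_, ?_⟩
      · have := congr_link A hA hd 1 (by simp)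
        rw [ct_one, Matrix.one_mul, Matrix.mul_one] at this
        exact this.2.2
      · refine ⟨1, fun _ => 1, by simp, fun i => Or.inl rfl, ?_⟩
        ext i
        exact hι.elim i
    · obtain ⟨A1, hA1, hd1, hL1, hu1, hodd1⟩ := even_case hZe A hA hd hu heven
      obtain ⟨A', hA', hd', hL', hD⟩ := odd_case hZs hZo A1 hA1 hd1 hu1 hodd1
      exact ⟨A', hA', hd', hL1.trans bar hL', hD⟩

end Pool.Agent.Lib.MP_800ada_gt
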