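import Mathlib

/-!
# Witt groups by generators and relations, classes of orthogonal lists
-/

namespace Pool.Agent.Lib.MP_800ada_gt

open LinearMap (BilinForm)

variable {F : Type} [Field F]

/-- `s` is compatible with the isometries of binary diagonal forms. -/
structure WM {H : Type} [AddCommGroup H] (s : F → H) : Prop where
  sq : ∀ a b : F, a ≠ 0 → b ≠ 0 → s (a * b ^ 2) = s a
  add : ∀ a b : F, a ≠ 0 → b ≠ 0 → a + b ≠ 0 → s a + s b = s (a + b) + s (a * b * (a + b))

section Lists

variable {V : Type} [AddCommGroup V] [Module F V] (B : BilinForm F V)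
variable {H : Type} [AddCommGroup H] (s : F → H)

/-- Orthogonal list of anisotropic vectors. -/
def Orth (l : List V) : Prop := l.Pairwise (fun x y => B x y = 0) ∧ ∀ x ∈ l, B x x ≠ 0

/-- Span of a list. -/
def lspan (l : List V) : Submodule F V := Submodule.span F {x | x ∈ l}

/-- The class of a list. -/
def cl (l : List V) : H := (l.map (fun x => s (B x x))).sum

/-- The relation between orthogonal lists. -/
def RR (l l' : List V) : Prop :=
  Orth B l' ∧ lspan (F := F) l' = lspan l ∧ l'.length = l.length ∧ cl B s l' = cl B s l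

variable {B s}

lemma lspan_cons (e : V) (t : List V) : lspan (F := F) (e :: t) = Submodule.span F {e} ⊔ lspan t := by
  unfold lspan
  rw [← Submodule.span_union]
  congr 1
  ext x
  simp

lemma mem_lspan_cons {e : V} {t : List V} {v : V} :
    v ∈ lspan (F := F) (e :: t) ↔ ∃ (x : F) (w : V), w ∈ lspan (F := F) t ∧ v = x • e + w := by
  rw [lspan_cons, Submodule.mem_sup]
  constructor
  · rintro ⟨y, hy, w, hw, rfl⟩
    rw [Submodule.mem_span_singleton] at hy
    obtain ⟨x, rfl⟩ := hy
    exact ⟨x, w, hw, rfl⟩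
  · rintro ⟨x, w, hw, rfl⟩
    exact ⟨x • e, Submodule.mem_span_singleton.mpr ⟨x, rfl⟩, w, hw, rfl⟩

lemma lspan_perm {l l' : List V} (h : l.Perm l') : lspan (F := F) l = lspan l' := by
  unfold lspan
  congr 1
  ext x
  exact h.mem_iff

lemma orth_perm (hB : ∀ x y, B x y = B y x) {l l' : List V} (h : l.Perm l') (ho : Orth B l) :
    Orth B l' := by
  refine ⟨?_, fun x hx => ho.2 x (h.mem_iff.mpr hx)⟩
  have : ∀ {x y : V}, B x y = 0 → B y x = 0 := fun {x y} hxy => by rw [hB y x]; exact hxy
  exact (h.pairwise_iff (R := fun x y => B x y = 0) this).mp ho.1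

lemma RR.refl {l : List V} (ho : Orth B l) : RR B s l l := ⟨ho, rfl, rfl, rfl⟩

lemma RR.trans {l l' l'' : List V} (h : RR B s l l') (h' : RR B s l' l'') : RR B s l l'' :=
  ⟨h'.1, h'.2.1.trans h.2.1, h'.2.2.1.trans h.2.2.1, h'.2.2.2.trans h.2.2.2⟩

lemma RR.perm (hB : ∀ x y, B x y = B y x) {l l' : List V} (ho : Orth B l) (h : l.Perm l') :
    RR B s l l' :=
  ⟨orth_perm hB h ho, (lspan_perm h).symm, h.length_eq.symm,
    by unfold cl; exact ((h.map (fun x => s (B x x))).sum_eq).symm⟩

lemma orth_lspan {e : V} {t : List V} (h : ∀ y ∈ t, B e y = 0) {w : V}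
    (hw : w ∈ lspan (F := F) t) : B e w = 0 := by
  unfold lspan at hw
  induction hw using Submodule.span_induction with
  | mem x hx => exact h x hx
  | zero => simp
  | add x y _ _ hx hy => rw [map_add, hx, hy, add_zero]
  | smul a x _ hx => rw [map_smul, hx, smul_zero]

lemma orth_cons {e : V} {t : List V} : Orth B (e :: t) ↔
    (∀ y ∈ t, B e y = 0) ∧ B e e ≠ 0 ∧ Orth B t := by
  unfold Orth
  rw [List.pairwise_cons]
  simp only [List.mem_cons, forall_eq_or_imp]
  tauto

lemma RR.cons {e : V} {l l' : List V} (ho : Orth B (e :: l)) (h : RR B s l l') :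
    RR B s (e :: l) (e :: l') := by
  obtain ⟨h1, h2, h3⟩ := orth_cons.mp ho
  refine ⟨orth_cons.mpr ⟨?_, h2, h.1⟩, ?_, ?_, ?_⟩
  · intro y hy
    apply orth_lspan h1
    rw [← h.2.1]
    exact Submodule.subset_span hy
  · rw [lspan_cons, lspan_cons, h.2.1]
  · simp [h.2.2.1]
  · have := h.2.2.2
    unfold cl at this ⊢
    simp only [List.map_cons, List.sum_cons, this]

/-- The binary move. -/
lemma RR.binary (hB : ∀ x y, B x y = B y x) (hs : WM s) {e w : V} {t : List V}
    (ho : Orth B (e :: w :: t)) {x : F} (hx : x ≠ 0) (hv : B (x • e + w) (x • e + w) ≠ 0) :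
    ∃ f, RR B s (e :: w :: t) ((x • e + w) :: f :: t) := by
  obtain ⟨h1, h2, h3⟩ := orth_cons.mp ho
  obtain ⟨h4, h5, h6⟩ := orth_cons.mp h3
  have hew : B e w = 0 := h1 w (by simp)
  have hwe : B w e = 0 := by rw [hB]; exact hew
  set a := B e e with ha
  set b := B w w with hb
  have hvv : B (x • e + w) (x • e + w) = x ^ 2 * a + b := by
    simp only [map_add, map_smul, LinearMap.add_apply, LinearMap.smul_apply, smul_eq_mul, hew, hwe,
      ← ha, ← hb]
    ring
  set c := x ^ 2 * a + b with hc
  rw [hvv] at hv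
  set f : V := b • e - (x * a) • w with hf
  have hff : B f f = a * b * c := by
    rw [hf]
    simp only [map_sub, map_smul, LinearMap.sub_apply, LinearMap.smul_apply, smul_eq_mul, hew, hwe,
      ← ha, ← hb, hc]
    ring
  have hvf : B (x • e + w) f = 0 := by
    rw [hf]
    simp only [map_add, map_sub, map_smul, LinearMap.add_apply, LinearMap.smul_apply, smul_eq_mul,
      hew, hwe, ← ha, ← hb]
    ring
  have hspan2 : lspan (F := F) ((x • e + w) :: f :: t) = lspan (e :: w :: t) := by
    rw [lspan_cons, lspan_cons, lspan_cons, lspan_cons, ← sup_assoc, ← sup_assoc]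
    congr 1
    apply le_antisymm
    · apply sup_le
      · rw [Submodule.span_singleton_le_iff_mem]
        apply Submodule.add_mem
        · exact Submodule.smul_mem _ _ (Submodule.mem_sup_left (Submodule.mem_span_singleton_self e))
        · exact Submodule.mem_sup_right (Submodule.mem_span_singleton_self w)
      · rw [Submodule.span_singleton_le_iff_mem, hf]
        apply Submodule.sub_mem
        · exact Submodule.smul_mem _ _ (Submodule.mem_sup_left (Submodule.mem_span_singleton_self e))
        · exact Submodule.smul_mem _ _ (Submodule.mem_sup_right (Submodule.mem_span_singleton_self w))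
    · have he : e ∈ Submodule.span F {x • e + w} ⊔ Submodule.span F {f} := by
        have : e = (c⁻¹ * (x * a)) • (x • e + w) + c⁻¹ • f := by
          rw [hf]
          simp only [smul_add, smul_sub, smul_smul]
          have e1 : c⁻¹ * (x * a) * x + c⁻¹ * b = 1 := by
            field_simp
            rw [hc]
          calc e = (1 : F) • e := (one_smul F e).symm
            _ = (c⁻¹ * (x * a) * x + c⁻¹ * b) • e := by rw [e1]
            _ = _ := by rw [add_smul]; abel
        have hmem : (c⁻¹ * (x * a)) • (x • e + w) + c⁻¹ • f ∈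
            Submodule.span F {x • e + w} ⊔ Submodule.span F {f} := by
          apply Submodule.add_mem
          · exact Submodule.smul_mem _ _ (Submodule.mem_sup_left (Submodule.mem_span_singleton_self _))
          · exact Submodule.smul_mem _ _ (Submodule.mem_sup_right (Submodule.mem_span_singleton_self _))
        rw [← this] at hmem
        exact hmem
      apply sup_le
      · rw [Submodule.span_singleton_le_iff_mem]
        exact he
      · rw [Submodule.span_singleton_le_iff_mem]
        have this : (x • e + w) - x • e = w := by abel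
        have hmem : (x • e + w) - x • e ∈ Submodule.span F {x • e + w} ⊔ Submodule.span F {f} := by
          apply Submodule.sub_mem
          · exact Submodule.mem_sup_left (Submodule.mem_span_singleton_self _)
          · exact Submodule.smul_mem _ _ he
        rw [this] at hmem
        exact hmem
  refine ⟨f, ?_, hspan2, rfl, ?_⟩
  · rw [orth_cons, orth_cons]
    refine ⟨?_, ?_, ?_, ?_, h6⟩
    · intro y hy
      rw [List.mem_cons] at hy
      rcases hy with rfl | hy
      · exact hvf
      · have e1 : B e y = 0 := h1 y (by simp [hy])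
        have e2 : B w y = 0 := h4 y hy
        simp [e1, e2]
    · rw [hvv]; exact hv
    · intro y hy
      have e1 : B e y = 0 := h1 y (by simp [hy])
      have e2 : B w y = 0 := h4 y hy
      simp [hf, e1, e2]
    · rw [hff]
      exact mul_ne_zero (mul_ne_zero h2 h5) hv
  · unfold cl
    simp only [List.map_cons, List.sum_cons]
    rw [← add_assoc, ← add_assoc, hvv, hff, ← ha, ← hb]
    congr 1
    have e1 := hs.add (x ^ 2 * a) b (mul_ne_zero (pow_ne_zero 2 hx) h2) h5 hv
    rw [← hc] at e1
    have e2 : s (x ^ 2 * a) = s a := by rw [mul_comm]; exact hs.sq a x h2 hx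
    have e3 : s (x ^ 2 * a * b * c) = s (a * b * c) := by
      have := hs.sq (a * b * c) x (mul_ne_zero (mul_ne_zero h2 h5) hv) hx
      rw [← this]
      congr 1
      ring
    rw [e2, e3] at e1
    exact e1.symm

lemma RR.scale (hs : WM s) {e : V} {t : List V} (ho : Orth B (e :: t)) {x : F} (hx : x ≠ 0) :
    RR B s (e :: t) ((x • e) :: t) := by
  obtain ⟨h1, h2, h3⟩ := orth_cons.mp ho
  refine ⟨orth_cons.mpr ⟨?_, ?_, h3⟩, ?_, rfl, ?_⟩
  · intro y hy
    simp [h1 y hy]
  · simp only [map_smul, LinearMap.smul_apply, smul_eq_mul]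
    exact mul_ne_zero hx (mul_ne_zero hx h2)
  · rw [lspan_cons, lspan_cons, Submodule.span_singleton_smul_eq hx.isUnit]
  · unfold cl
    simp only [List.map_cons, List.sum_cons, map_smul, LinearMap.smul_apply, smul_eq_mul]
    congr 1
    have := hs.sq (B e e) x h2 hx
    rw [← this]
    congr 1
    ring

/-- A nonzero vector in the span involves some list element. -/
lemma exists_split {l : List V} {v : V} (hv : v ∈ lspan (F := F) l) (hv0 : v ≠ 0) :
    ∃ (e : V) (t : List V) (x : F) (w : V), l.Perm (e :: t) ∧ x ≠ 0 ∧ w ∈ lspan (F := F) t ∧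
      v = x • e + w := by
  induction l generalizing v with
  | nil =>
    exfalso
    apply hv0
    have : lspan (F := F) ([] : List V) = ⊥ := by
      unfold lspan; simp
    rw [this, Submodule.mem_bot] at hv
    exact hv
  | cons e t ih =>
    obtain ⟨x, w, hw, rfl⟩ := mem_lspan_cons.mp hv
    by_cases hx : x = 0
    · rw [hx, zero_smul, zero_add] at hv0 ⊢
      obtain ⟨e', t', x', w', hp, hx', hw', rfl⟩ := ih hw hv0
      refine ⟨e', e :: t', x', w', ?_, hx', ?_, rfl⟩
      · exact (hp.cons e).trans (List.Perm.swap e' e t')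
      · rw [mem_lspan_cons]
        exact ⟨0, w', hw', by simp⟩
    · exact ⟨e, t, x, w, List.Perm.refl _, hx, hw, rfl⟩

/-- Every anisotropic vector in the span can be made the first vector of an equivalent list. -/
lemma exists_front (h2 : (2 : F) ≠ 0) (hB : ∀ x y, B x y = B y x) (hs : WM s) :
    ∀ (n : ℕ) (l : List V), l.length = n → Orth B l → ∀ v ∈ lspan (F := F) l, B v v ≠ 0 →
      ∃ l', RR B s l (v :: l') := by
  intro n
  induction n using Nat.strong_induction_on with
  | _ n ih =>
  intro l hl ho v hv hvv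
  have hv0 : v ≠ 0 := by rintro rfl; simp at hvv
  obtain ⟨e, t, x, w, hp, hx, hw, rfl⟩ := exists_split hv hv0
  have hr0 : RR B s l (e :: t) := RR.perm hB ho hp
  have ho1 := hr0.1
  have hlen : t.length + 1 = n := by
    rw [← hl, hp.length_eq]; rfl
  obtain ⟨g1, g2, g3⟩ := orth_cons.mp ho1
  by_cases hw0 : w = 0
  · subst hw0
    rw [add_zero]
    exact ⟨t, hr0.trans (RR.scale hs ho1 hx)⟩
  by_cases hww : B w w = 0
  · obtain ⟨e2, t', x2, w', hp', hx2, hw', rfl⟩ := exists_split hw hw0
    have hr1 : RR B s (e :: t) (e :: e2 :: t') := RR.cons ho1 (RR.perm hB g3 hp')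
    have ho2 := hr1.1
    have hlen' : t'.length + 2 = n := by
      rw [← hlen, hp'.length_eq]; rfl
    obtain ⟨k1, k2, k3⟩ := orth_cons.mp ho2
    obtain ⟨k4, k5, k6⟩ := orth_cons.mp k3
    have hee2 : B e e2 = 0 := k1 e2 (by simp)
    have hew' : B e w' = 0 := orth_lspan (fun y hy => k1 y (by simp [hy])) hw'
    have he2w' : B e2 w' = 0 := orth_lspan k4 hw'
    have he2e : B e2 e = 0 := by rw [hB]; exact hee2
    have hw'e : B w' e = 0 := by rw [hB]; exact hew'
    have hw'e2 : B w' e2 = 0 := by rw [hB]; exact he2w'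
    have hw'w' : B w' w' = -(x2 ^ 2 * B e2 e2) := by
      simp only [map_add, map_smul, LinearMap.add_apply, LinearMap.smul_apply, smul_eq_mul, he2w',
        hw'e2] at hww
      linear_combination hww
    have hw'ne : B w' w' ≠ 0 := by
      rw [hw'w']
      exact neg_ne_zero.mpr (mul_ne_zero (pow_ne_zero 2 hx2) k5)
    by_cases hc : x ^ 2 * B e e + x2 ^ 2 * B e2 e2 = 0
    · -- use e2 and u = x e + w'
      set u := x • e + w' with hu
      have huu : B u u ≠ 0 := by
        have : B u u = 2 * (x ^ 2 * B e e) := by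
          rw [hu]
          simp only [map_add, map_smul, LinearMap.add_apply, LinearMap.smul_apply, smul_eq_mul,
            hew', hw'e, hw'w']
          linear_combination -hc
        rw [this]
        exact mul_ne_zero h2 (mul_ne_zero (pow_ne_zero 2 hx) k2)
      have hr2 : RR B s (e :: e2 :: t') (e2 :: e :: t') := RR.perm hB ho2 (List.Perm.swap e2 e t')
      obtain ⟨m1, m2, m3⟩ := orth_cons.mp hr2.1
      obtain ⟨l', hl'⟩ := ih (t'.length + 1) (by omega) (e :: t') rfl m3 u
        (mem_lspan_cons.mpr ⟨x, w', hw', rfl⟩) huu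
      have hr3 : RR B s (e2 :: e :: t') (e2 :: u :: l') := RR.cons hr2.1 hl'
      have hv' : x • e + (x2 • e2 + w') = x2 • e2 + u := by rw [hu]; abel
      rw [hv'] at hvv ⊢
      obtain ⟨f, hf⟩ := RR.binary hB hs hr3.1 hx2 hvv
      exact ⟨f :: l', hr0.trans (hr1.trans (hr2.trans (hr3.trans hf)))⟩
    · -- combine e and x2 e2
      have hr2 : RR B s (e :: e2 :: t') (e :: (x2 • e2) :: t') := RR.cons ho2 (RR.scale hs k3 hx2)
      set f := x • e + x2 • e2 with hf
      have hff : B f f ≠ 0 := by
        have : B f f = x ^ 2 * B e e + x2 ^ 2 * B e2 e2 := by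
          rw [hf]
          simp only [map_add, map_smul, LinearMap.add_apply, LinearMap.smul_apply, smul_eq_mul,
            hee2, he2e]
          ring
        rw [this]; exact hc
      obtain ⟨f', hf'⟩ := RR.binary hB hs hr2.1 hx hff
      obtain ⟨m1, m2, m3⟩ := orth_cons.mp hf'.1
      obtain ⟨m4, m5, m6⟩ := orth_cons.mp m3
      obtain ⟨l', hl'⟩ := ih t'.length (by omega) t' rfl m6 w' hw' hw'ne
      have hr3 : RR B s (f :: f' :: t') (f :: f' :: w' :: l') :=
        RR.cons hf'.1 (RR.cons m3 hl')
      have hperm : (f :: f' :: w' :: l').Perm (f :: w' :: f' :: l') :=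
        (List.Perm.swap w' f' l').cons f
      have hr4 : RR B s (f :: f' :: w' :: l') (f :: w' :: f' :: l') := RR.perm hB hr3.1 hperm
      have hv' : x • e + (x2 • e2 + w') = (1 : F) • f + w' := by rw [hf, one_smul]; abel
      rw [hv'] at hvv ⊢
      obtain ⟨f'', hf''⟩ := RR.binary hB hs hr4.1 one_ne_zero hvv
      exact ⟨f'' :: f' :: l', hr0.trans (hr1.trans (hr2.trans (hf'.trans (hr3.trans (hr4.trans hf'')))))⟩
  · obtain ⟨l', hl'⟩ := ih t.length (by omega) t rfl g3 w hw hww
    have hr1 : RR B s (e :: t) (e :: w :: l') := RR.cons ho1 hl'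
    obtain ⟨f, hf⟩ := RR.binary hB hs hr1.1 hx hvv
    exact ⟨f :: l', hr0.trans (hr1.trans hf)⟩

/-- The class only depends on the span. -/
theorem cl_eq (h2 : (2 : F) ≠ 0) (hB : ∀ x y, B x y = B y x) (hs : WM s) :
    ∀ (l2 l1 : List V), Orth B l1 → Orth B l2 → lspan (F := F) l1 = lspan l2 →
      cl B s l1 = cl B s l2 := by
  intro l2
  induction l2 with
  | nil =>
    intro l1 h1 _ h3
    cases l1 with
    | nil => rfl
    | cons e t =>
      exfalso
      have he : e ∈ lspan (F := F) (e :: t) := Submodule.subset_span (by simp)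
      rw [h3] at he
      have : lspan (F := F) ([] : List V) = ⊥ := by
        unfold lspan; simp
      rw [this, Submodule.mem_bot] at he
      have := h1.2 e (by simp)
      rw [he] at this
      simp at this
  | cons v t ih =>
    intro l1 h1 h2' h3
    obtain ⟨k1, k2, k3⟩ := orth_cons.mp h2'
    have hv : v ∈ lspan (F := F) l1 := by
      rw [h3]; exact Submodule.subset_span (by simp)
    obtain ⟨l', hl'⟩ := exists_front h2 hB hs l1.length l1 rfl h1 v hv k2
    obtain ⟨m1, m2, m3⟩ := orth_cons.mp hl'.1
    have hspan : lspan (F := F) (v :: l') = lspan (v :: t) := hl'.2.1.trans h3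
    have haux : ∀ (a b : List V), (∀ y ∈ a, B v y = 0) → (∀ y ∈ b, B v y = 0) →
        lspan (F := F) (v :: a) = lspan (v :: b) → lspan (F := F) a ≤ lspan b := by
      intro a b ha hb hab x hx
      have hx1 : x ∈ lspan (F := F) (v :: b) := by
        rw [← hab, mem_lspan_cons]
        exact ⟨0, x, hx, by simp⟩
      obtain ⟨c, y, hy, rfl⟩ := mem_lspan_cons.mp hx1
      have e1 : B v (c • v + y) = 0 := orth_lspan ha hx
      have e2 : B v y = 0 := orth_lspan hb hy
      rw [map_add, map_smul, e2, add_zero, smul_eq_mul] at e1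
      have hc : c = 0 := (mul_eq_zero.mp e1).resolve_right k2
      rw [hc, zero_smul, zero_add]
      exact hy
    have hsp : lspan (F := F) l' = lspan t :=
      le_antisymm (haux l' t m1 k1 hspan) (haux t l' k1 m1 hspan.symm)
    have := ih l' m3 k3 hsp
    rw [← hl'.2.2.2]
    unfold cl at this ⊢
    simp only [List.map_cons, List.sum_cons, this]

end Lists

end Pool.Agent.Lib.MP_800ada_gt
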