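import Pool.Agent.Lib.MP_800ada_gt.W1

/-!
# Witt groups by generators and relations: soundness
-/

namespace Pool.Agent.Lib.MP_800ada_gt

open Module

variable {F : Type} [Field F]

/-- The diagonal form `a` has a totally isotropic subspace of dimension at least half. -/
def MetF {ι : Type} [Fintype ι] (a : ι → F) : Prop :=
  ∃ W : Submodule F (ι → F), (∀ x ∈ W, ∀ y ∈ W, ∑ i, a i * x i * y i = 0) ∧
    Fintype.card ι ≤ 2 * finrank F W

variable {ι κ : Type} [Fintype ι] [Fintype κ]

lemma MetF.equiv {a : ι → F} {b : κ → F} (e : ι ≃ κ) (h : ∀ i, a i = b (e i)) (ha : MetF a) :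
    MetF b := by
  obtain ⟨W, hW, hd⟩ := ha
  refine ⟨W.map (LinearEquiv.funCongrLeft F F e.symm).toLinearMap, ?_, ?_⟩
  · rintro _ ⟨x, hx, rfl⟩ _ ⟨y, hy, rfl⟩
    have h1 := hW x hx y hy
    rw [← h1, ← e.sum_comp]
    apply Finset.sum_congr rfl
    intro i _
    simp [LinearEquiv.funCongrLeft_apply, LinearMap.funLeft_apply, h]
  · rw [LinearEquiv.finrank_map_eq, ← Fintype.card_congr e]
    exact hd

lemma MetF.sum {a : ι → F} {b : κ → F} (ha : MetF a) (hb : MetF b) : MetF (Sum.elim a b) := by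
  obtain ⟨W, hW, hd⟩ := ha
  obtain ⟨W', hW', hd'⟩ := hb
  let T : (W × W') →ₗ[F] (ι ⊕ κ → F) :=
    (LinearEquiv.sumArrowLequivProdArrow ι κ F F).symm.toLinearMap ∘ₗ
      (LinearMap.prodMap W.subtype W'.subtype)
  have hT : Function.Injective T := by
    intro x y h
    apply Prod.ext
    · apply Subtype.ext
      funext i
      exact congrFun h (Sum.inl i)
    · apply Subtype.ext
      funext i
      exact congrFun h (Sum.inr i)
  refine ⟨LinearMap.range T, ?_, ?_⟩
  · rintro _ ⟨⟨x, x'⟩, rfl⟩ _ ⟨⟨y, y'⟩, rfl⟩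
    have h1 := hW x x.2 y y.2
    have h2 := hW' x' x'.2 y' y'.2
    rw [Fintype.sum_sum_type]
    have e1 : ∀ i, T (x, x') (Sum.inl i) = x.1 i := fun i => rfl
    have e2 : ∀ i, T (x, x') (Sum.inr i) = x'.1 i := fun i => rfl
    have e3 : ∀ i, T (y, y') (Sum.inl i) = y.1 i := fun i => rfl
    have e4 : ∀ i, T (y, y') (Sum.inr i) = y'.1 i := fun i => rfl
    simp only [e1, e2, e3, e4, Sum.elim_inl, Sum.elim_inr, h1, h2, add_zero]
  · rw [LinearMap.finrank_range_of_inj hT, finrank_prod, Fintype.card_sum]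
    omega

lemma MetF.double (b : κ → F) : MetF (Sum.elim b (fun i => -b i)) := by
  let T : (κ → F) →ₗ[F] (κ ⊕ κ → F) :=
    { toFun := fun x => Sum.elim x x
      map_add' := by intro x y; ext (i | i) <;> rfl
      map_smul' := by intro r x; ext (i | i) <;> rfl }
  have hT : Function.Injective T := by
    intro x y h
    ext i
    exact congrFun h (Sum.inl i)
  refine ⟨LinearMap.range T, ?_, ?_⟩
  · rintro _ ⟨x, rfl⟩ _ ⟨y, rfl⟩
    rw [Fintype.sum_sum_type]
    have e1 : ∀ (x : κ → F) i, T x (Sum.inl i) = x i := fun x i => rfl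
    have e2 : ∀ (x : κ → F) i, T x (Sum.inr i) = x i := fun x i => rfl
    simp only [e1, e2, Sum.elim_inl, Sum.elim_inr]
    rw [← Finset.sum_add_distrib]
    apply Finset.sum_eq_zero
    intro i _
    ring
  · rw [LinearMap.finrank_range_of_inj hT, finrank_fintype_fun_eq_card, Fintype.card_sum]
    omega

lemma finrank_orth_le [DecidableEq κ] (b : κ → F) (hb : ∀ i, b i ≠ 0) (N D : Submodule F (κ → F))
    (h : ∀ x ∈ D, ∀ z ∈ N, ∑ i, b i * x i * z i = 0) :
    finrank F D + finrank F N ≤ Fintype.card κ := by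
  set B := Matrix.toBilin' (Matrix.diagonal b) with hB
  have hval : ∀ x y : κ → F, B x y = ∑ i, b i * x i * y i := by
    intro x y
    rw [hB, Matrix.toBilin'_apply']
    simp only [dotProduct, Matrix.mulVec_diagonal]
    apply Finset.sum_congr rfl
    intro i _
    ring
  have hnd : B.Nondegenerate := by
    rw [hB]
    apply LinearMap.BilinForm.nondegenerate_toBilin'_of_det_ne_zero'
    rw [Matrix.det_diagonal]
    exact Finset.prod_ne_zero_iff.mpr (fun i _ => hb i)
  have hle : D ≤ B.orthogonal N := by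
    intro x hx
    rw [LinearMap.BilinForm.mem_orthogonal_iff]
    intro z hz
    rw [hval, ← h x hx z hz]
    apply Finset.sum_congr rfl
    intro i _
    ring
  have h1 := Submodule.finrank_mono hle
  rw [LinearMap.BilinForm.finrank_orthogonal hnd, finrank_fintype_fun_eq_card] at h1
  have h2 : finrank F N ≤ Fintype.card κ := by
    rw [← finrank_fintype_fun_eq_card F]
    exact Submodule.finrank_le N
  omega

lemma cancel_aux {V : Type} [AddCommGroup V] [Module F V] [FiniteDimensional F V] [DecidableEq κ]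
    (b : κ → F) (hb : ∀ i, b i ≠ 0) (δ : V →ₗ[F] (κ → F)) (π : V →ₗ[F] (ι → F))
    (ρ : V →ₗ[F] (κ → F)) (hinj : ∀ x, δ x = 0 → π x = 0 → ρ x = 0 → x = 0)
    (hortho : ∀ x z : V, δ z = 0 → π z = 0 → ∑ i, b i * δ x i * ρ z i = 0)
    (hd : Fintype.card ι + (Fintype.card κ + Fintype.card κ) ≤ 2 * finrank F V) :
    Fintype.card ι ≤ 2 * finrank F ((LinearMap.ker δ).map π) := by
  set K := LinearMap.ker δ with hK
  set N0 := K ⊓ LinearMap.ker π with hN0
  have hρ0 : Function.Injective (ρ.domRestrict N0) := by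
    rw [← LinearMap.ker_eq_bot, LinearMap.ker_eq_bot']
    intro x hx
    obtain ⟨hx1, hx2⟩ := Submodule.mem_inf.mp x.2
    apply Subtype.ext
    exact hinj x.1 hx1 hx2 hx
  have ho : finrank F (LinearMap.range δ) + finrank F (LinearMap.range (ρ.domRestrict N0)) ≤
      Fintype.card κ := by
    apply finrank_orth_le b hb
    rintro _ ⟨x, rfl⟩ _ ⟨z, rfl⟩
    obtain ⟨hz1, hz2⟩ := Submodule.mem_inf.mp z.2
    exact hortho x z.1 hz1 hz2
  rw [LinearMap.finrank_range_of_inj hρ0] at ho
  have h1 := LinearMap.finrank_range_add_finrank_ker δ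
  have h2 := LinearMap.finrank_range_add_finrank_ker (π.domRestrict K)
  have h3 : LinearMap.range (π.domRestrict K) = K.map π := by
    rw [LinearMap.range_domRestrict]
  have h4 : finrank F (LinearMap.ker (π.domRestrict K)) = finrank F N0 := by
    have : LinearMap.ker (π.domRestrict K) = N0.comap K.subtype := by
      ext x
      simp [hN0, LinearMap.domRestrict_apply]
    rw [this]
    exact (Submodule.comapSubtypeEquivOfLe (inf_le_left : N0 ≤ K)).finrank_eq
  rw [h3, h4] at h2
  rw [← hK] at h1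
  omega

lemma MetF.cancel {a : ι → F} {b : κ → F} (hb : ∀ i, b i ≠ 0)
    (h : MetF (Sum.elim a (Sum.elim b (fun i => -b i)))) : MetF a := by
  classical
  obtain ⟨L, hL, hd⟩ := h
  rw [Fintype.card_sum, Fintype.card_sum] at hd
  -- the difference map
  let δ : L →ₗ[F] (κ → F) :=
    { toFun := fun x i => x.1 (Sum.inr (Sum.inl i)) - x.1 (Sum.inr (Sum.inr i))
      map_add' := by intro x y; ext i; simp; ring
      map_smul' := by intro r x; ext i; simp; ring }
  let π : L →ₗ[F] (ι → F) :=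
    { toFun := fun x i => x.1 (Sum.inl i)
      map_add' := by intro x y; rfl
      map_smul' := by intro r x; rfl }
  let ρ : L →ₗ[F] (κ → F) :=
    { toFun := fun x i => x.1 (Sum.inr (Sum.inl i))
      map_add' := by intro x y; rfl
      map_smul' := by intro r x; rfl }
  have hδ : ∀ x : L, δ x = 0 → ∀ i, x.1 (Sum.inr (Sum.inl i)) = x.1 (Sum.inr (Sum.inr i)) :=
    fun x hx i => sub_eq_zero.mp (congrFun hx i)
  refine ⟨(LinearMap.ker δ).map π, ?_, ?_⟩
  · rintro _ ⟨x, hx, rfl⟩ _ ⟨y, hy, rfl⟩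
    have h1 := hL x.1 x.2 y.1 y.2
    rw [Fintype.sum_sum_type, Fintype.sum_sum_type] at h1
    simp only [Sum.elim_inl, Sum.elim_inr, hδ x hx, hδ y hy] at h1
    have h2 : ∑ i, b i * x.1 (Sum.inr (Sum.inr i)) * y.1 (Sum.inr (Sum.inr i)) +
        ∑ i, -b i * x.1 (Sum.inr (Sum.inr i)) * y.1 (Sum.inr (Sum.inr i)) = 0 := by
      rw [← Finset.sum_add_distrib]
      apply Finset.sum_eq_zero
      intro i _
      ring
    rw [h2, add_zero] at h1
    exact h1
  · apply cancel_aux b hb δ π ρ _ _ hd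
    · intro x h1 h2 h3
      apply Subtype.ext
      ext (i | i | i)
      · exact congrFun h2 i
      · exact congrFun h3 i
      · exact (hδ x h1 i).symm.trans (congrFun h3 i)
    · intro x z hz1 hz2
      have h1 := hL x.1 x.2 z.1 z.2
      rw [Fintype.sum_sum_type, Fintype.sum_sum_type] at h1
      have h2 : ∀ i, z.1 (Sum.inl i) = 0 := fun i => congrFun hz2 i
      have h3 := hδ z hz1
      simp only [Sum.elim_inl, Sum.elim_inr, h2, mul_zero, Finset.sum_const_zero, zero_add,
        ← h3, ← Finset.sum_add_distrib] at h1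
      rw [← h1]
      apply Finset.sum_congr rfl
      intro i _
      change b i * (x.1 (Sum.inr (Sum.inl i)) - x.1 (Sum.inr (Sum.inr i))) * z.1 (Sum.inr (Sum.inl i)) = _
      ring

section WG

/-- The relations. -/
def wrels (F : Type) [Field F] : Set (FreeAbelianGroup F) :=
  {x | (∃ a b : F, a ≠ 0 ∧ b ≠ 0 ∧ x = FreeAbelianGroup.of (a * b ^ 2) - FreeAbelianGroup.of a) ∨
    (∃ a : F, a ≠ 0 ∧ x = FreeAbelianGroup.of a + FreeAbelianGroup.of (-a)) ∨
    (∃ a b : F, a ≠ 0 ∧ b ≠ 0 ∧ a + b ≠ 0 ∧ x = FreeAbelianGroup.of a + FreeAbelianGroup.of b -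
      (FreeAbelianGroup.of (a + b) + FreeAbelianGroup.of (a * b * (a + b))))}

/-- The Witt group, by generators and relations. -/
abbrev WG (F : Type) [Field F] : Type := FreeAbelianGroup F ⧸ AddSubgroup.closure (wrels F)

/-- The generator `⟨a⟩`. -/
def br (a : F) : WG F := QuotientAddGroup.mk (FreeAbelianGroup.of a)

lemma br_sq {a b : F} (ha : a ≠ 0) (hb : b ≠ 0) : br (a * b ^ 2) = br a := by
  have h : FreeAbelianGroup.of (a * b ^ 2) - FreeAbelianGroup.of a ∈
      AddSubgroup.closure (wrels F) :=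
    AddSubgroup.subset_closure (Or.inl ⟨a, b, ha, hb, rfl⟩)
  have := (QuotientAddGroup.eq_zero_iff _).mpr h
  rw [QuotientAddGroup.mk_sub] at this
  exact sub_eq_zero.mp this

lemma br_neg {a : F} (ha : a ≠ 0) : br a + br (-a) = 0 := by
  have h : FreeAbelianGroup.of a + FreeAbelianGroup.of (-a) ∈ AddSubgroup.closure (wrels F) :=
    AddSubgroup.subset_closure (Or.inr (Or.inl ⟨a, ha, rfl⟩))
  exact (QuotientAddGroup.eq_zero_iff _).mpr h

lemma br_add {a b : F} (ha : a ≠ 0) (hb : b ≠ 0) (hab : a + b ≠ 0) :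
    br a + br b = br (a + b) + br (a * b * (a + b)) := by
  have h : FreeAbelianGroup.of a + FreeAbelianGroup.of b -
      (FreeAbelianGroup.of (a + b) + FreeAbelianGroup.of (a * b * (a + b))) ∈
      AddSubgroup.closure (wrels F) :=
    AddSubgroup.subset_closure (Or.inr (Or.inr ⟨a, b, ha, hb, hab, rfl⟩))
  have := (QuotientAddGroup.eq_zero_iff _).mpr h
  rw [QuotientAddGroup.mk_sub] at this
  exact sub_eq_zero.mp this

lemma br_WM : WM (br : F → WG F) :=
  ⟨fun _ _ ha hb => br_sq ha hb, fun _ _ ha hb hab => br_add ha hb hab⟩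

/-- Universal property. -/
def wlift {H : Type} [AddCommGroup H] (s : F → H) (hs : WM s)
    (hn : ∀ a : F, a ≠ 0 → s a + s (-a) = 0) : WG F →+ H :=
  QuotientAddGroup.lift _ (FreeAbelianGroup.lift s) (by
    rw [AddSubgroup.closure_le]
    rintro x (⟨a, b, ha, hb, rfl⟩ | ⟨a, ha, rfl⟩ | ⟨a, b, ha, hb, hab, rfl⟩)
    · simp [AddMonoidHom.mem_ker, hs.sq a b ha hb]
    · simp [AddMonoidHom.mem_ker, hn a ha]
    · simp [AddMonoidHom.mem_ker, hs.add a b ha hb hab])

lemma wlift_br {H : Type} [AddCommGroup H] (s : F → H) (hs : WM s)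
    (hn : ∀ a : F, a ≠ 0 → s a + s (-a) = 0) (a : F) : wlift s hs hn (br a) = s a := by
  unfold wlift br
  rw [QuotientAddGroup.lift_mk, FreeAbelianGroup.lift_apply_of]

/-- `x` is a difference of two forms whose orthogonal difference is metabolic. -/
def DD0 (x : FreeAbelianGroup F) : Prop :=
  ∃ (ι κ : Type) (_ : Fintype ι) (_ : Fintype κ) (a : ι → F) (b : κ → F),
    (∀ i, a i ≠ 0) ∧ (∀ i, b i ≠ 0) ∧
    x = ∑ i, FreeAbelianGroup.of (a i) - ∑ i, FreeAbelianGroup.of (b i) ∧
    MetF (Sum.elim a (fun i => -b i))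

lemma DD0.add {x y : FreeAbelianGroup F} (hx : DD0 x) (hy : DD0 y) : DD0 (x + y) := by
  obtain ⟨ι, κ, _, _, a, b, ha, hb, hx, hM⟩ := hx
  obtain ⟨ι', κ', _, _, a', b', ha', hb', hy, hM'⟩ := hy
  refine ⟨ι ⊕ ι', κ ⊕ κ', inferInstance, inferInstance, Sum.elim a a', Sum.elim b b', ?_, ?_, ?_, ?_⟩
  · rintro (i | i)
    · exact ha i
    · exact ha' i
  · rintro (i | i)
    · exact hb i
    · exact hb' i
  · rw [hx, hy, Fintype.sum_sum_type, Fintype.sum_sum_type]
    simp only [Sum.elim_inl, Sum.elim_inr]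
    abel
  · refine MetF.equiv (Equiv.sumSumSumComm ι κ ι' κ') ?_ (hM.sum hM')
    rintro ((i | i) | (i | i)) <;> rfl

lemma DD0.neg {x : FreeAbelianGroup F} (hx : DD0 x) : DD0 (-x) := by
  obtain ⟨ι, κ, _, _, a, b, ha, hb, hx, W, hW, hd⟩ := hx
  refine ⟨κ, ι, inferInstance, inferInstance, b, a, hb, ha, ?_, ?_⟩
  · rw [hx]; abel
  · have h1 : MetF (Sum.elim (fun i => -a i) b) := by
      refine ⟨W, ?_, hd⟩
      intro x hx y hy
      have := hW x hx y hy
      rw [Fintype.sum_sum_type] at this ⊢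
      simp only [Sum.elim_inl, Sum.elim_inr] at this ⊢
      rw [← neg_eq_zero, ← this, neg_add, ← Finset.sum_neg_distrib, ← Finset.sum_neg_distrib]
      congr 1 <;> (apply Finset.sum_congr rfl; intro i _; ring)
    refine MetF.equiv (Equiv.sumComm ι κ) ?_ h1
    rintro (i | i) <;> rfl

lemma DD0.zero : DD0 (0 : FreeAbelianGroup F) := by
  refine ⟨Empty, Empty, inferInstance, inferInstance, Empty.elim, Empty.elim, ?_, ?_, ?_, ?_⟩
  · intro i; exact i.elim
  · intro i; exact i.elim
  · simp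
  · exact ⟨⊥, by simp, by simp⟩

/-- Isometric-type identities give elements of `DD0`. -/
lemma DD0.of_rel {x : FreeAbelianGroup F} (hx : x ∈ wrels F) : DD0 x := by
  rcases hx with ⟨a, b, ha, hb, rfl⟩ | ⟨a, ha, rfl⟩ | ⟨a, b, ha, hb, hab, rfl⟩
  · refine ⟨Fin 1, Fin 1, inferInstance, inferInstance, ![a * b ^ 2], ![a], ?_, ?_, ?_, ?_⟩
    · intro i; fin_cases i; simp [ha, hb]
    · intro i; fin_cases i; simp [ha]
    · simp
    · refine ⟨Submodule.span F {Sum.elim ![1] ![b]}, ?_, ?_⟩
      · intro x hx y hy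
        rw [Submodule.mem_span_singleton] at hx hy
        obtain ⟨r, rfl⟩ := hx
        obtain ⟨t, rfl⟩ := hy
        simp [Fintype.sum_sum_type]
        ring
      · rw [finrank_span_singleton]
        · simp
        · intro h
          have := congrFun h (Sum.inl 0)
          simp at this
  · refine ⟨Fin 2, Fin 0, inferInstance, inferInstance, ![a, -a], ![], ?_, ?_, ?_, ?_⟩
    · intro i; fin_cases i <;> simp [ha]
    · intro i; exact i.elim0
    · simp
    · refine ⟨Submodule.span F {Sum.elim ![1, 1] ![]}, ?_, ?_⟩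
      · intro x hx y hy
        rw [Submodule.mem_span_singleton] at hx hy
        obtain ⟨r, rfl⟩ := hx
        obtain ⟨t, rfl⟩ := hy
        simp [Fintype.sum_sum_type]
      · rw [finrank_span_singleton]
        · simp
        · intro h
          have := congrFun h (Sum.inl 0)
          simp at this
  · refine ⟨Fin 2, Fin 2, inferInstance, inferInstance, ![a, b], ![a + b, a * b * (a + b)],
      ?_, ?_, ?_, ?_⟩
    · intro i; fin_cases i <;> simp [ha, hb]
    · intro i; fin_cases i <;> simp [ha, hb, hab]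
    · simp
    · let v : Fin 2 → (Fin 2 ⊕ Fin 2 → F) := ![Sum.elim ![1, 1] ![1, 0], Sum.elim ![b, -a] ![0, 1]]
      have hli : LinearIndependent F v := by
        rw [LinearIndependent.pair_iff]
        intro s t h
        have h1 := congrFun h (Sum.inr 0)
        have h2 := congrFun h (Sum.inr 1)
        simp at h1 h2
        exact ⟨h1, h2⟩
      refine ⟨Submodule.span F (Set.range v), ?_, ?_⟩
      · intro x hx y hy
        have hform : ∀ (x y : Fin 2 ⊕ Fin 2 → F), ∑ i, (Sum.elim ![a, b] fun i =>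
            -(![a + b, a * b * (a + b)] : Fin 2 → F) i) i * x i * y i =
            a * x (Sum.inl 0) * y (Sum.inl 0) + b * x (Sum.inl 1) * y (Sum.inl 1) -
            (a + b) * x (Sum.inr 0) * y (Sum.inr 0) -
            a * b * (a + b) * x (Sum.inr 1) * y (Sum.inr 1) := by
          intro x y
          simp [Fintype.sum_sum_type]
          ring
        have hrange : Set.range v = {v 0, v 1} := by
          ext z
          simp only [Set.mem_range, Set.mem_insert_iff, Set.mem_singleton_iff]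
          constructor
          · rintro ⟨i, rfl⟩
            fin_cases i
            · left; rfl
            · right; rfl
          · rintro (rfl | rfl)
            · exact ⟨0, rfl⟩
            · exact ⟨1, rfl⟩
        rw [hrange, Submodule.mem_span_pair] at hx hy
        obtain ⟨s, t, rfl⟩ := hx
        obtain ⟨s', t', rfl⟩ := hy
        rw [hform]
        simp [v]
        ring
      · rw [finrank_span_eq_card hli]
        simp

lemma DD0.of_mem {x : FreeAbelianGroup F} (hx : x ∈ AddSubgroup.closure (wrels F)) : DD0 x := by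
  induction hx using AddSubgroup.closure_induction with
  | mem x hx => exact DD0.of_rel hx
  | zero => exact DD0.zero
  | add x y _ _ hx hy => exact hx.add hy
  | neg x _ hx => exact hx.neg

/-- Equality of formal sums gives a bijection. -/
lemma exists_equiv_of_sum {α β : Type} [Fintype α] [Fintype β] (f : α → F) (g : β → F)
    (h : ∑ i, FreeAbelianGroup.of (f i) = ∑ i, FreeAbelianGroup.of (g i)) :
    ∃ e : α ≃ β, ∀ i, f i = g (e i) := by
  classical
  have hcard : ∀ u : F, Fintype.card {i // f i = u} = Fintype.card {i // g i = u} := by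
    intro u
    have h1 := congrArg (FreeAbelianGroup.lift (fun v : F => if v = u then (1 : ℤ) else 0)) h
    rw [map_sum, map_sum] at h1
    simp only [FreeAbelianGroup.lift_apply_of, Finset.sum_boole] at h1
    rw [Fintype.card_subtype, Fintype.card_subtype]
    exact_mod_cast h1
  choose e he using fun u => (⟨Fintype.equivOfCardEq (hcard u), trivial⟩ :
    ∃ e : {i // f i = u} ≃ {i // g i = u}, True)
  refine ⟨Equiv.ofFiberEquiv e, fun i => ?_⟩
  exact (Equiv.ofFiberEquiv_map e i).symm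

/-- Soundness: a form whose class is `k⟨ε⟩` with `k` smaller than its rank is isotropic. -/
theorem sound {n k : ℕ} (a : Fin n → F) (ha : ∀ i, a i ≠ 0) (ε : F) (hε : ε ≠ 0)
    (h : ∑ i, br (a i) = k • br ε) (hk : k < n) :
    ∃ x : Fin n → F, x ≠ 0 ∧ ∑ i, a i * x i * x i = 0 := by
  have h1 : (∑ i, FreeAbelianGroup.of (a i) - ∑ _i : Fin k, FreeAbelianGroup.of ε) ∈
      AddSubgroup.closure (wrels F) := by
    rw [← QuotientAddGroup.eq_zero_iff]
    rw [QuotientAddGroup.mk_sub, sub_eq_zero]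
    have e1 : ((∑ i, FreeAbelianGroup.of (a i) : FreeAbelianGroup F) : WG F) = ∑ i, br (a i) :=
      map_sum (QuotientAddGroup.mk' _) _ _
    have e2 : ((∑ _i : Fin k, FreeAbelianGroup.of ε : FreeAbelianGroup F) : WG F) = k • br ε := by
      rw [Finset.sum_const, Finset.card_univ, Fintype.card_fin]
      exact map_nsmul (QuotientAddGroup.mk' _) _ _
    rw [e1, e2, h]
  obtain ⟨ι, κ, _, _, A, B, hA, hB, heq, hM⟩ := DD0.of_mem h1
  have h2 : ∑ i : Fin n ⊕ κ, FreeAbelianGroup.of ((Sum.elim a B : Fin n ⊕ κ → F) i) =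
      ∑ i : ι ⊕ Fin k, FreeAbelianGroup.of ((Sum.elim A (fun _ => ε) : ι ⊕ Fin k → F) i) := by
    rw [Fintype.sum_sum_type, Fintype.sum_sum_type]
    simp only [Sum.elim_inl, Sum.elim_inr]
    rw [sub_eq_sub_iff_add_eq_add] at heq
    exact heq
  obtain ⟨e, he⟩ := exists_equiv_of_sum _ _ h2
  -- (A ⊕ -B) ⊕ (ε^k ⊕ -ε^k) ≅ (a ⊕ -ε^k) ⊕ (B ⊕ -B)
  have hM1 := hM.sum (MetF.double (fun _ : Fin k => ε))
  -- rearrangement (ι ⊕ κ) ⊕ (Fin k ⊕ Fin k) ≃ (ι ⊕ Fin k) ⊕ (κ ⊕ Fin k)
  have hM2 : MetF (Sum.elim (Sum.elim A (fun _ : Fin k => ε))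
      (Sum.elim (fun i => -B i) (fun _ : Fin k => -ε))) := by
    refine MetF.equiv (Equiv.sumSumSumComm ι κ (Fin k) (Fin k)) ?_ hM1
    rintro ((i | i) | (i | i)) <;> rfl
  have hM3 : MetF (Sum.elim (Sum.elim a B) (Sum.elim (fun i => -B i) (fun _ : Fin k => -ε))) := by
    refine MetF.equiv (Equiv.sumCongr e.symm (Equiv.refl _)) ?_ hM2
    rintro (i | i)
    · have := he (e.symm i)
      rw [Equiv.apply_symm_apply] at this
      simpa using this.symm
    · rfl
  have hM4 : MetF (Sum.elim (Sum.elim a (fun _ : Fin k => -ε)) (Sum.elim B (fun i => -B i))) := by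
    let eq : (Fin n ⊕ κ) ⊕ (κ ⊕ Fin k) ≃ (Fin n ⊕ Fin k) ⊕ (κ ⊕ κ) :=
      { toFun := fun x => match x with
          | Sum.inl (Sum.inl i) => Sum.inl (Sum.inl i)
          | Sum.inl (Sum.inr i) => Sum.inr (Sum.inl i)
          | Sum.inr (Sum.inl i) => Sum.inr (Sum.inr i)
          | Sum.inr (Sum.inr i) => Sum.inl (Sum.inr i)
        invFun := fun x => match x with
          | Sum.inl (Sum.inl i) => Sum.inl (Sum.inl i)
          | Sum.inr (Sum.inl i) => Sum.inl (Sum.inr i)
          | Sum.inr (Sum.inr i) => Sum.inr (Sum.inl i)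
          | Sum.inl (Sum.inr i) => Sum.inr (Sum.inr i)
        left_inv := by rintro ((i | i) | (i | i)) <;> rfl
        right_inv := by rintro ((i | i) | (i | i)) <;> rfl }
    refine MetF.equiv eq ?_ hM3
    rintro ((i | i) | (i | i)) <;> rfl
  obtain ⟨W, hW, hd⟩ := MetF.cancel hB hM4
  rw [Fintype.card_sum, Fintype.card_fin, Fintype.card_fin] at hd
  -- projection to the last k coordinates
  let π : W →ₗ[F] (Fin k → F) :=
    { toFun := fun x i => x.1 (Sum.inr i)
      map_add' := by intro x y; rfl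
      map_smul' := by intro r x; rfl }
  have hker : LinearMap.ker π ≠ ⊥ := by
    intro hbot
    have h3 := LinearMap.finrank_range_add_finrank_ker π
    rw [hbot, finrank_bot, add_zero] at h3
    have h4 : finrank F (LinearMap.range π) ≤ k := by
      have := Submodule.finrank_le (LinearMap.range π)
      rwa [finrank_fintype_fun_eq_card, Fintype.card_fin] at this
    omega
  obtain ⟨x, hx, hx0⟩ := Submodule.exists_mem_ne_zero_of_ne_bot hker
  have hxr : ∀ i, x.1 (Sum.inr i) = 0 := fun i => congrFun (LinearMap.mem_ker.mp hx) i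
  refine ⟨fun i => x.1 (Sum.inl i), ?_, ?_⟩
  · intro h0
    apply hx0
    apply Subtype.ext
    ext (i | i)
    · exact congrFun h0 i
    · exact hxr i
  · have := hW x.1 x.2 x.1 x.2
    rw [Fintype.sum_sum_type] at this
    simpa [hxr] using this

end WG

end Pool.Agent.Lib.MP_800ada_gt
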