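import Pool.Agent.Lib.MP_800ada_gt.W2

/-!
# Diagonalization over local rings; residue maps
-/

namespace Pool.Agent.Lib.MP_800ada_gt

open Matrix

section LocalDiag

variable {R : Type} [CommRing R]

/-- Splitting off a unimodular block. -/
lemma block_split {α κ : Type} [Fintype α] [DecidableEq α] [Fintype κ] [DecidableEq κ]
    (A : Matrix α α R) (B : Matrix α κ R) (D : Matrix κ κ R) (hA : IsUnit A.det) (hs : A.IsSymm) :
    (fromBlocks 1 (-(A⁻¹ * B)) 0 1 : Matrix (α ⊕ κ) (α ⊕ κ) R)ᵀ * fromBlocks A B Bᵀ D *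
      fromBlocks 1 (-(A⁻¹ * B)) 0 1 = fromBlocks A 0 0 (D - Bᵀ * A⁻¹ * B) := by
  have hAt : (A⁻¹)ᵀ = A⁻¹ := by rw [transpose_nonsing_inv, hs]
  rw [fromBlocks_transpose, fromBlocks_multiply, fromBlocks_multiply]
  have h1 : A * (A⁻¹ * B) = B := by rw [← Matrix.mul_assoc, mul_nonsing_inv _ hA, Matrix.one_mul]
  have h2 : Bᵀ * A⁻¹ * A = Bᵀ := by rw [Matrix.mul_assoc, nonsing_inv_mul _ hA, Matrix.mul_one]
  simp only [transpose_one, transpose_zero, transpose_neg, transpose_mul, hAt, Matrix.one_mul,
    Matrix.zero_mul, Matrix.mul_one, Matrix.mul_zero, add_zero, Matrix.mul_neg, Matrix.neg_mul, h1]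
  congr 1
  · simp
  · rw [h2]; simp
  · rw [h2]
    simp only [neg_add_cancel, Matrix.zero_mul, neg_zero, zero_add]
    rw [sub_eq_add_neg, add_comm]

theorem local_diag [IsLocalRing R] (h2 : IsUnit (2 : R)) : ∀ (n : ℕ) (ι : Type) [Fintype ι]
    [DecidableEq ι] (_ : Fintype.card ι = n) (M : Matrix ι ι R) (_ : M.IsSymm)
    (_ : IsUnit M.det),
    ∃ (P : Matrix ι ι R) (d : ι → R), IsUnit P.det ∧ (∀ i, IsUnit (d i)) ∧
      Pᵀ * M * P = diagonal d := by
  intro n
  induction n using Nat.strong_induction_on with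
  | _ n ih =>
  intro ι _ _ hn M hs hu
  rcases isEmpty_or_nonempty ι with hι | hι
  · refine ⟨1, fun _ => 1, by simp, fun _ => isUnit_one, ?_⟩
    ext i
    exact hι.elim i
  -- a unit diagonal entry after a base change
  have key : ∃ (P0 : Matrix ι ι R) (i : ι), IsUnit P0.det ∧ IsUnit ((P0ᵀ * M * P0) i i) := by
    by_cases h : ∃ i, IsUnit (M i i)
    · obtain ⟨i, hi⟩ := h
      exact ⟨1, i, by simp, by simpa using hi⟩
    · push Not at h
      have h' : ∃ i j, IsUnit (M i j) := by
        by_contra hno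
        push Not at hno
        have hmap : M.map (IsLocalRing.residue R) = 0 := by
          ext i j
          rw [map_apply, Matrix.zero_apply]
          rw [IsLocalRing.residue_eq_zero_iff]
          exact (IsLocalRing.mem_maximalIdeal _).mpr (hno i j)
        have h1 : IsLocalRing.residue R M.det = 0 := by
          rw [RingHom.map_det]
          change (M.map (IsLocalRing.residue R)).det = 0
          rw [hmap, det_zero]
        rw [IsLocalRing.residue_eq_zero_iff] at h1
        exact (IsLocalRing.mem_maximalIdeal _).mp h1 hu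
      obtain ⟨i, j, hij⟩ := h'
      have hne : i ≠ j := by
        rintro rfl
        exact h i hij
      refine ⟨transvection j i 1, i, ?_, ?_⟩
      · rw [det_transvection_of_ne _ _ hne.symm]; exact isUnit_one
      · have e1 : ((transvection j i (1 : R))ᵀ * M * transvection j i (1 : R) : Matrix ι ι R) i i =
            M i i + 2 * M i j + M j j := by
          have ht : (transvection j i (1 : R))ᵀ = transvection i j 1 := by
            unfold transvection
            rw [transpose_add, transpose_one, transpose_single]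
          rw [ht, Matrix.mul_assoc, transvection_mul_apply_same, mul_transvection_apply_same,
            mul_transvection_apply_same, hs.apply i j]
          ring
        rw [e1]
        by_contra hnu
        have hm1 : M i i ∈ IsLocalRing.maximalIdeal R := (IsLocalRing.mem_maximalIdeal _).mpr (h i)
        have hm2 : M j j ∈ IsLocalRing.maximalIdeal R := (IsLocalRing.mem_maximalIdeal _).mpr (h j)
        have hm3 : M i i + 2 * M i j + M j j ∈ IsLocalRing.maximalIdeal R :=
          (IsLocalRing.mem_maximalIdeal _).mpr hnu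
        have hm4 : 2 * M i j ∈ IsLocalRing.maximalIdeal R := by
          have : 2 * M i j = (M i i + 2 * M i j + M j j) - M i i - M j j := by ring
          rw [this]
          exact Ideal.sub_mem _ (Ideal.sub_mem _ hm3 hm1) hm2
        exact (IsLocalRing.mem_maximalIdeal _).mp hm4 (h2.mul hij)
  obtain ⟨P0, i, hP0, hi⟩ := key
  set M0 := P0ᵀ * M * P0 with hM0
  have hs0 : M0.IsSymm := by
    rw [Matrix.IsSymm, hM0, transpose_mul, transpose_mul, transpose_transpose, hs,
      Matrix.mul_assoc]
  have hu0 : IsUnit M0.det := by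
    rw [hM0, det_mul, det_mul, det_transpose]
    exact (hP0.mul hu).mul hP0
  let e : {a // a = i} ⊕ {a // ¬ a = i} ≃ ι := Equiv.sumCompl (fun a => a = i)
  set N := M0.submatrix e e with hN
  have hNs : N.IsSymm := by
    rw [Matrix.IsSymm, hN, transpose_submatrix, hs0]
  have hNblocks : N = fromBlocks N.toBlocks₁₁ N.toBlocks₁₂ N.toBlocks₁₂ᵀ N.toBlocks₂₂ := by
    conv_lhs => rw [← fromBlocks_toBlocks N]
    congr 1
    ext a b
    exact (hNs.apply (Sum.inl b) (Sum.inr a))
  have hA : IsUnit N.toBlocks₁₁.det := by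
    have : N.toBlocks₁₁.det = M0 i i := by
      rw [det_unique]
      rfl
    rw [this]; exact hi
  have hAs : N.toBlocks₁₁.IsSymm := by
    ext a b
    exact hNs.apply (Sum.inl a) (Sum.inl b)
  have hsplit := block_split N.toBlocks₁₁ N.toBlocks₁₂ N.toBlocks₂₂ hA hAs
  rw [← hNblocks] at hsplit
  set P1 : Matrix ({a // a = i} ⊕ {a // ¬ a = i}) ({a // a = i} ⊕ {a // ¬ a = i}) R :=
    fromBlocks 1 (-(N.toBlocks₁₁⁻¹ * N.toBlocks₁₂)) 0 1 with hP1
  set S := N.toBlocks₂₂ - N.toBlocks₁₂ᵀ * N.toBlocks₁₁⁻¹ * N.toBlocks₁₂ with hS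
  have hP1det : P1.det = 1 := by
    rw [hP1, det_fromBlocks_zero₂₁]; simp
  have hNdet : IsUnit N.det := by
    rw [hN, det_submatrix_equiv_self]; exact hu0
  have hSdet : IsUnit S.det := by
    have := congrArg Matrix.det hsplit
    rw [det_mul, det_mul, det_transpose, hP1det, one_mul, mul_one, det_fromBlocks_zero₂₁] at this
    rw [this] at hNdet
    exact isUnit_of_mul_isUnit_right hNdet
  have hSs : S.IsSymm := by
    have h22 : N.toBlocks₂₂.IsSymm := by
      ext a b
      exact hNs.apply (Sum.inr a) (Sum.inr b)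
    rw [Matrix.IsSymm, hS, transpose_sub, h22, transpose_mul, transpose_mul, transpose_transpose,
      transpose_nonsing_inv, hAs, Matrix.mul_assoc]
  have hcard : Fintype.card {a // ¬ a = i} < n := by
    rw [← hn]
    exact Fintype.card_subtype_lt (x := i) (by simp)
  obtain ⟨P2, d2, hP2, hd2, hdiag⟩ := ih _ hcard {a // ¬ a = i} rfl S hSs hSdet
  set P3 : Matrix ({a // a = i} ⊕ {a // ¬ a = i}) ({a // a = i} ⊕ {a // ¬ a = i}) R :=
    fromBlocks 1 0 0 P2 with hP3
  have hP3det : IsUnit P3.det := by
    rw [hP3, det_fromBlocks_zero₂₁, det_one, one_mul]; exact hP2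
  have hfin : (P1 * P3)ᵀ * N * (P1 * P3) = diagonal (Sum.elim (fun _ => M0 i i) d2) := by
    have e1 : (P1 * P3)ᵀ * N * (P1 * P3) = P3ᵀ * (P1ᵀ * N * P1) * P3 := by
      rw [transpose_mul]; simp only [Matrix.mul_assoc]
    rw [e1, hsplit, hP3, fromBlocks_transpose, fromBlocks_multiply, fromBlocks_multiply]
    simp only [transpose_one, transpose_zero, Matrix.one_mul, Matrix.mul_one, Matrix.zero_mul,
      Matrix.mul_zero, add_zero, zero_add, hdiag]
    ext (a | a) (b | b)
    · have hab : a = b := Subsingleton.elim _ _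
      subst hab
      have ha : a = ⟨i, rfl⟩ := Subsingleton.elim _ _
      subst ha
      simp
      rfl
    · simp
    · simp
    · simp [diagonal_apply]
  set Q := (P1 * P3).submatrix e.symm e.symm with hQ
  refine ⟨P0 * Q, (Sum.elim (fun _ => M0 i i) d2) ∘ e.symm, ?_, ?_, ?_⟩
  · rw [det_mul, hQ, det_submatrix_equiv_self, det_mul, hP1det, one_mul]
    exact hP0.mul hP3det
  · intro a
    rcases h : e.symm a with b | b
    · simp only [Function.comp_apply, h, Sum.elim_inl]; exact hi
    · simp only [Function.comp_apply, h, Sum.elim_inr]; exact hd2 b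
  · have e2 : (P0 * Q)ᵀ * M * (P0 * Q) = Qᵀ * M0 * Q := by
      rw [transpose_mul, hM0]; simp only [Matrix.mul_assoc]
    have e3 : M0 = N.submatrix e.symm e.symm := by
      rw [hN, submatrix_submatrix]
      simp
    have e4 : Qᵀ * M0 * Q = Qᵀ * N.submatrix e.symm e.symm * Q := by rw [← e3]
    rw [e2, e4, hQ, transpose_submatrix, submatrix_mul_equiv, submatrix_mul_equiv, hfin,
      submatrix_diagonal_equiv]

end LocalDiag

end Pool.Agent.Lib.MP_800ada_gt
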