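import Pool.Agent.Lib.MP_800ada_gt.W3

/-!
# Classes of symmetric matrices, residue maps of `ℚ_p`
-/

namespace Pool.Agent.Lib.MP_800ada_gt

open Matrix

section MatrixClass

variable {F : Type} [Field F] {H : Type} [AddCommGroup H]

/-- Two diagonalizations have the same class. -/
theorem diag_class_eq (h2 : (2 : F) ≠ 0) {n : ℕ} (M P Q : Matrix (Fin n) (Fin n) F)
    (hM : M.IsSymm) (d d' : Fin n → F) (hd : ∀ i, d i ≠ 0) (hd' : ∀ i, d' i ≠ 0)
    (hP : P.det ≠ 0) (hQ : Q.det ≠ 0)
    (h : Pᵀ * M * P = diagonal d) (h' : Qᵀ * M * Q = diagonal d') {s : F → H} (hs : WM s) :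
    ∑ i, s (d i) = ∑ i, s (d' i) := by
  set B := Matrix.toBilin' M with hB
  have hval : ∀ x y, B x y = x ⬝ᵥ M *ᵥ y := fun x y => by rw [hB, Matrix.toBilin'_apply']
  have hsymm : ∀ x y, B x y = B y x := by
    intro x y
    rw [hval, hval, dotProduct_mulVec, ← mulVec_transpose, hM, dotProduct_comm]
  have gen : ∀ (P : Matrix (Fin n) (Fin n) F) (d : Fin n → F), (∀ i, d i ≠ 0) → P.det ≠ 0 →
      Pᵀ * M * P = diagonal d →
      Orth B (List.ofFn (fun i => fun a => P a i)) ∧
      lspan (F := F) (List.ofFn (fun i => fun a => P a i)) = ⊤ ∧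
      cl B s (List.ofFn (fun i => fun a => P a i)) = ∑ i, s (d i) := by
    intro P d hd hP h
    have hent : ∀ i j, B (fun a => P a i) (fun a => P a j) = (diagonal d) i j := by
      intro i j
      rw [← h, hval, Matrix.mul_assoc]
      rfl
    refine ⟨⟨?_, ?_⟩, ?_, ?_⟩
    · rw [List.pairwise_ofFn]
      intro i j hij
      rw [hent, diagonal_apply_ne _ hij.ne]
    · intro x hx
      rw [List.mem_ofFn] at hx
      obtain ⟨i, rfl⟩ := hx
      rw [hent, diagonal_apply_eq]
      exact hd i
    · rw [eq_top_iff]
      intro v _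
      have hv : v = ∑ i, (P⁻¹ *ᵥ v) i • (fun a => P a i) := by
        have e1 : P *ᵥ (P⁻¹ *ᵥ v) = v := by
          rw [mulVec_mulVec, mul_nonsing_inv _ (isUnit_iff_ne_zero.mpr hP), one_mulVec]
        conv_lhs => rw [← e1]
        ext a
        simp only [mulVec, dotProduct, Finset.sum_apply, Pi.smul_apply, smul_eq_mul]
        apply Finset.sum_congr rfl
        intro i _
        ring
      rw [hv]
      apply Submodule.sum_mem
      intro i _
      apply Submodule.smul_mem
      apply Submodule.subset_span
      exact List.mem_ofFn.mpr ⟨i, rfl⟩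
    · unfold cl
      rw [List.map_ofFn, List.sum_ofFn]
      apply Finset.sum_congr rfl
      intro i _
      simp only [Function.comp_apply]
      rw [hent, diagonal_apply_eq]
  obtain ⟨a1, a2, a3⟩ := gen P d hd hP h
  obtain ⟨b1, b2, b3⟩ := gen Q d' hd' hQ h'
  rw [← a3, ← b3]
  exact cl_eq h2 hsymm hs _ _ a1 b1 (a2.trans b2.symm)

end MatrixClass

section Residue

variable (p : ℕ) [hp : Fact p.Prime]

open Padic

variable {p} in
/-- An integral `p`-adic number as an element of `ℤ_[p]`. -/
noncomputable def mkZ (x : ℚ_[p]) (h : ‖x‖ ≤ 1) : ℤ_[p] := ⟨x, h⟩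

variable {p} in
lemma coe_mkZ (x : ℚ_[p]) (h : ‖x‖ ≤ 1) : ((mkZ x h : ℤ_[p]) : ℚ_[p]) = x := rfl

/-- Residue of an integral `p`-adic number (junk `0` otherwise). -/
noncomputable def rs (x : ℚ_[p]) : ZMod p :=
  if h : ‖x‖ ≤ 1 then PadicInt.toZMod (mkZ x h) else 0

variable {p}

lemma rs_add {x y : ℚ_[p]} (hx : ‖x‖ ≤ 1) (hy : ‖y‖ ≤ 1) : rs p (x + y) = rs p x + rs p y := by
  have h : ‖x + y‖ ≤ 1 := (Padic.nonarchimedean x y).trans (max_le hx hy)
  unfold rs
  rw [dif_pos hx, dif_pos hy, dif_pos h, ← map_add]
  congr 1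

lemma rs_mul {x y : ℚ_[p]} (hx : ‖x‖ ≤ 1) (hy : ‖y‖ ≤ 1) : rs p (x * y) = rs p x * rs p y := by
  have h : ‖x * y‖ ≤ 1 := by rw [norm_mul]; exact mul_le_one₀ hx (norm_nonneg _) hy
  unfold rs
  rw [dif_pos hx, dif_pos hy, dif_pos h, ← map_mul]
  congr 1

lemma rs_int (n : ℤ) : rs p (n : ℚ_[p]) = (n : ZMod p) := by
  have h : ‖(n : ℚ_[p])‖ ≤ 1 := Padic.norm_int_le_one n
  unfold rs
  rw [dif_pos h]
  have : mkZ (n : ℚ_[p]) h = (n : ℤ_[p]) := PadicInt.ext (by rw [coe_mkZ]; simp)
  rw [this, map_intCast]

lemma rs_eq_zero_iff {x : ℚ_[p]} (hx : ‖x‖ ≤ 1) : rs p x = 0 ↔ ‖x‖ < 1 := by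
  unfold rs
  rw [dif_pos hx]
  have h1 : PadicInt.toZMod (mkZ x hx) = 0 ↔ mkZ x hx ∈ RingHom.ker (PadicInt.toZMod (p := p)) :=
    RingHom.mem_ker.symm
  rw [h1, PadicInt.ker_toZMod, IsLocalRing.mem_maximalIdeal, PadicInt.mem_nonunits]
  rfl

/-- Unit part. -/
noncomputable def up (x : ℚ_[p]) : ℚ_[p] := x * (p : ℚ_[p]) ^ (-x.valuation)

lemma pne : (p : ℚ_[p]) ≠ 0 := by exact_mod_cast hp.out.ne_zero

lemma norm_up {x : ℚ_[p]} (hx : x ≠ 0) : ‖up x‖ = 1 := by
  unfold up
  rw [norm_mul, Padic.norm_eq_zpow_neg_valuation hx, norm_zpow, Padic.norm_p, _root_.inv_zpow', neg_neg,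
    ← zpow_add₀ (by exact_mod_cast hp.out.ne_zero), neg_add_cancel, zpow_zero]

lemma up_ne {x : ℚ_[p]} (hx : x ≠ 0) : up x ≠ 0 := by
  intro h
  have := norm_up hx
  rw [h, norm_zero] at this
  exact zero_ne_one this

lemma up_mul {x y : ℚ_[p]} (hx : x ≠ 0) (hy : y ≠ 0) : up (x * y) = up x * up y := by
  unfold up
  rw [Padic.valuation_mul hx hy, neg_add, zpow_add₀ pne]
  ring

lemma val_of_norm_one {x : ℚ_[p]} (hx : ‖x‖ = 1) : x.valuation = 0 := by
  have hx0 : x ≠ 0 := by rintro rfl; rw [norm_zero] at hx; exact zero_ne_one hx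
  have h1 : 0 ≤ x.valuation := (Padic.norm_le_one_iff_val_nonneg x).mp hx.le
  have h2 : 0 ≤ (x⁻¹).valuation := by
    apply (Padic.norm_le_one_iff_val_nonneg _).mp
    rw [norm_inv, hx, inv_one]
  rw [Padic.valuation_inv] at h2
  omega

lemma val_zpow_mul (v : ℤ) {c : ℚ_[p]} (hc : c ≠ 0) :
    ((p : ℚ_[p]) ^ v * c).valuation = v + c.valuation := by
  rw [Padic.valuation_mul (zpow_ne_zero _ pne) hc, Padic.valuation_zpow, Padic.valuation_p, mul_one]

lemma up_zpow_mul (v : ℤ) {c : ℚ_[p]} (hc : c ≠ 0) : up ((p : ℚ_[p]) ^ v * c) = up c := by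
  unfold up
  rw [val_zpow_mul v hc, neg_add, zpow_add₀ pne]
  have : (p : ℚ_[p]) ^ v * (p : ℚ_[p]) ^ (-v) = 1 := by
    rw [← zpow_add₀ pne, add_neg_cancel, zpow_zero]
  linear_combination (c * (p : ℚ_[p]) ^ (-c.valuation)) * this

lemma up_of_norm_one {x : ℚ_[p]} (hx : ‖x‖ = 1) : up x = x := by
  unfold up
  rw [val_of_norm_one hx, neg_zero, zpow_zero, mul_one]

lemma eq_zpow_mul_up (x : ℚ_[p]) : x = (p : ℚ_[p]) ^ x.valuation * up x := by
  unfold up
  have : (p : ℚ_[p]) ^ x.valuation * (p : ℚ_[p]) ^ (-x.valuation) = 1 := by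
    rw [← zpow_add₀ pne, add_neg_cancel, zpow_zero]
  linear_combination (-x) * this

/-- Residue of the unit part. -/
noncomputable def res (x : ℚ_[p]) : ZMod p := rs p (up x)

lemma res_ne {x : ℚ_[p]} (hx : x ≠ 0) : res x ≠ 0 := by
  unfold res
  rw [Ne, rs_eq_zero_iff (norm_up hx).le, norm_up hx]
  exact lt_irrefl 1

lemma res_mul {x y : ℚ_[p]} (hx : x ≠ 0) (hy : y ≠ 0) : res (x * y) = res x * res y := by
  unfold res
  rw [up_mul hx hy, rs_mul (norm_up hx).le (norm_up hy).le]

/-- The residue map on generators. -/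
noncomputable def sp (x : ℚ_[p]) : WG (ZMod p) := if Odd x.valuation then br (res x) else 0

lemma sp_neg {a : ℚ_[p]} (ha : a ≠ 0) : sp a + sp (-a) = 0 := by
  have h1 : (-a).valuation = a.valuation := by
    have : -a = (-1 : ℚ_[p]) * a := by ring
    rw [this, Padic.valuation_mul (by norm_num) ha]
    have : ((-1 : ℚ_[p])).valuation = 0 := val_of_norm_one (by simp)
    rw [this, zero_add]
  have h2 : res (-a) = - res a := by
    have : -a = (-1 : ℚ_[p]) * a := by ring
    rw [this, res_mul (by norm_num) ha]
    have e : res (-1 : ℚ_[p]) = -1 := by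
      unfold res
      rw [up_of_norm_one (by simp)]
      have := rs_int (p := p) (-1)
      push_cast at this
      exact this
    rw [e]; ring
  unfold sp
  rw [h1, h2]
  split_ifs with h
  · exact br_neg (res_ne ha)
  · simp

lemma sp_WM : WM (sp (p := p)) := by
  constructor
  · intro a b ha hb
    have h1 : (a * b ^ 2).valuation = a.valuation + 2 * b.valuation := by
      rw [Padic.valuation_mul ha (pow_ne_zero 2 hb), Padic.valuation_pow]
      norm_num
    have h2 : res (a * b ^ 2) = res a * res b ^ 2 := by
      rw [res_mul ha (pow_ne_zero 2 hb), pow_two, res_mul hb hb, pow_two]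
    unfold sp
    rw [h1, h2]
    have h3 : Odd (a.valuation + 2 * b.valuation) ↔ Odd a.valuation := by
      rw [Int.odd_add]
      simp
    simp only [h3]
    split_ifs
    · exact br_sq (res_ne ha) (res_ne hb)
    · rfl
  · -- the additive relation
    have main : ∀ a b : ℚ_[p], a ≠ 0 → b ≠ 0 → a + b ≠ 0 → a.valuation ≤ b.valuation →
        sp a + sp b = sp (a + b) + sp (a * b * (a + b)) := by
      intro a b ha hb hab hle
      have hab0 : a * b ≠ 0 := mul_ne_zero ha hb
      have hval3 : (a * b * (a + b)).valuation = a.valuation + b.valuation + (a + b).valuation := by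
        rw [Padic.valuation_mul hab0 hab, Padic.valuation_mul ha hb]
      have hres3 : res (a * b * (a + b)) = res a * res b * res (a + b) := by
        rw [res_mul hab0 hab, res_mul ha hb]
      -- c = up a + p^(w - v) up b
      set v := a.valuation with hv
      set w := b.valuation with hw
      set c := up a + (p : ℚ_[p]) ^ (w - v) * up b with hc
      have hsum : a + b = (p : ℚ_[p]) ^ v * c := by
        have e1 := eq_zpow_mul_up a
        have e2 := eq_zpow_mul_up b
        have e3 : (p : ℚ_[p]) ^ v * (p : ℚ_[p]) ^ (w - v) = (p : ℚ_[p]) ^ w := by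
          rw [← zpow_add₀ pne]; congr 1; ring
        rw [hc, mul_add, ← mul_assoc, e3]
        rw [← hv] at e1
        rw [← hw] at e2
        rw [← e1, ← e2]
      have hc0 : c ≠ 0 := by
        rintro h0
        rw [h0, mul_zero] at hsum
        exact hab hsum
      have hvals : (a + b).valuation = v + c.valuation := by rw [hsum, val_zpow_mul v hc0]
      have hress : res (a + b) = res c := by
        unfold res
        rw [hsum, up_zpow_mul v hc0]
      have hna := norm_up ha
      have hnb := norm_up hb
      rcases hle.lt_or_eq with hlt | heq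
      · -- v < w
        have hsmall : ‖(p : ℚ_[p]) ^ (w - v) * up b‖ < 1 := by
          rw [norm_mul, hnb, mul_one, norm_zpow, Padic.norm_p]
          obtain ⟨k, hk⟩ := Int.eq_ofNat_of_zero_le (show 0 ≤ w - v by omega)
          rw [hk, zpow_natCast]
          apply pow_lt_one₀ (by positivity)
          · rw [inv_lt_one_iff₀]; right; exact_mod_cast hp.out.one_lt
          · omega
        have hrsc : rs p c = res a := by
          rw [hc, rs_add hna.le hsmall.le, (rs_eq_zero_iff hsmall.le).mpr hsmall, add_zero]
          rfl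
        have hcle : ‖c‖ ≤ 1 := (Padic.nonarchimedean _ _).trans (max_le hna.le hsmall.le)
        have hcn : ‖c‖ = 1 := by
          by_contra hne
          have : ‖c‖ < 1 := lt_of_le_of_ne hcle hne
          have := (rs_eq_zero_iff hcle).mpr this
          rw [hrsc] at this
          exact res_ne ha this
        have hcv : c.valuation = 0 := val_of_norm_one hcn
        have hresc : res c = res a := by
          unfold res
          rw [up_of_norm_one hcn, hrsc]
          rfl
        unfold sp
        rw [hval3, hres3, hvals, hress, hcv, hresc, add_zero, ← hv, ← hw]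
        have h3 : Odd (v + w + v) ↔ Odd w := by
          have : v + w + v = w + 2 * v := by ring
          rw [this, Int.odd_add]
          simp
        simp only [h3]
        congr 1
        split_ifs
        · have : res a * res b * res a = res b * res a ^ 2 := by ring
          rw [this, br_sq (res_ne hb) (res_ne ha)]
        · rfl
      · -- v = w
        have hcc : c = up a + up b := by
          rw [hc, heq, sub_self, zpow_zero, one_mul]
        have hrsc : rs p c = res a + res b := by
          rw [hcc, rs_add hna.le hnb.le]; rfl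
        have hcle : ‖c‖ ≤ 1 := by
          rw [hcc]; exact (Padic.nonarchimedean _ _).trans (max_le hna.le hnb.le)
        unfold sp
        rw [hval3, hres3, hvals, hress, ← hv, ← hw, ← heq]
        by_cases hcn : ‖c‖ = 1
        · have hcv : c.valuation = 0 := val_of_norm_one hcn
          have hresc : res c = res a + res b := by
            unfold res
            rw [up_of_norm_one hcn, hrsc]
            rfl
          have hne : res a + res b ≠ 0 := by
            rw [← hrsc, Ne, rs_eq_zero_iff hcle, hcn]
            exact lt_irrefl 1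
          rw [hcv, hresc, add_zero]
          have h3 : Odd (v + v + v) ↔ Odd v := by
            have : v + v + v = v + 2 * v := by ring
            rw [this, Int.odd_add]
            simp
          simp only [h3]
          split_ifs
          · exact br_add (res_ne ha) (res_ne hb) hne
          · simp
        · have hclt : ‖c‖ < 1 := lt_of_le_of_ne hcle hcn
          have hzero : res a + res b = 0 := by
            rw [← hrsc]; exact (rs_eq_zero_iff hcle).mpr hclt
          have hrb : res b = - res a := by
            rw [eq_neg_iff_add_eq_zero, add_comm]; exact hzero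
          have h3 : Odd (v + v + (v + c.valuation)) ↔ Odd (v + c.valuation) := by
            have : v + v + (v + c.valuation) = (v + c.valuation) + 2 * v := by ring
            rw [this, Int.odd_add]
            simp
          simp only [h3]
          have hl : (if Odd v then br (res a) else 0) + (if Odd v then br (res b) else 0) =
              (0 : WG (ZMod p)) := by
            split_ifs
            · rw [hrb]; exact br_neg (res_ne ha)
            · simp
          rw [hl]
          split_ifs
          · have : res a * res b * res c = (- res c) * res a ^ 2 := by rw [hrb]; ring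
            rw [this, br_sq (neg_ne_zero.mpr (res_ne hc0)) (res_ne ha), br_neg (res_ne hc0)]
          · simp
    intro a b ha hb hab
    rcases le_total a.valuation b.valuation with h | h
    · exact main a b ha hb hab h
    · have := main b a hb ha (by rw [add_comm]; exact hab) h
      rw [add_comm (sp a), this, add_comm b a, mul_comm b a]

end Residue

end Pool.Agent.Lib.MP_800ada_gt
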