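import Pool.Agent.Lib.MP_800ada_gt.W4

/-!
# The filtration of the Witt group of `ℚ`
-/

namespace Pool.Agent.Lib.MP_800ada_gt

open Matrix

/-- Nonzero integers all of whose prime factors are `≤ m`. -/
def SS (m : ℕ) : Set ℤ := {a | a ≠ 0 ∧ ∀ q : ℕ, q.Prime → q ∣ a.natAbs → q ≤ m}

lemma SS_mul {m : ℕ} {a b : ℤ} (ha : a ∈ SS m) (hb : b ∈ SS m) : a * b ∈ SS m := by
  refine ⟨mul_ne_zero ha.1 hb.1, ?_⟩
  intro q hq hd
  rw [Int.natAbs_mul] at hd
  rcases (hq.dvd_mul).mp hd with h | h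
  · exact ha.2 q hq h
  · exact hb.2 q hq h

lemma SS_neg {m : ℕ} {a : ℤ} (ha : a ∈ SS m) : -a ∈ SS m := by
  refine ⟨neg_ne_zero.mpr ha.1, ?_⟩
  intro q hq hd
  rw [Int.natAbs_neg] at hd
  exact ha.2 q hq hd

lemma SS_small {m : ℕ} {a : ℤ} (ha : a ≠ 0) (h : a.natAbs ≤ m) : a ∈ SS m := by
  refine ⟨ha, ?_⟩
  intro q _ hd
  exact (Nat.le_of_dvd (Int.natAbs_pos.mpr ha) hd).trans h

lemma SS_one (m : ℕ) : (1 : ℤ) ∈ SS m := by
  refine ⟨one_ne_zero, ?_⟩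
  intro q hq hd
  simp at hd
  exact absurd hd hq.ne_one

lemma SS_mono {m m' : ℕ} (h : m ≤ m') : SS m ⊆ SS m' :=
  fun _ ha => ⟨ha.1, fun q hq hd => (ha.2 q hq hd).trans h⟩

/-- The filtration. -/
def LL (m : ℕ) : AddSubgroup (WG ℚ) := AddSubgroup.closure {x | ∃ a ∈ SS m, x = br (a : ℚ)}

lemma br_mem {m : ℕ} {a : ℤ} (ha : a ∈ SS m) : br (a : ℚ) ∈ LL m :=
  AddSubgroup.subset_closure ⟨a, ha, rfl⟩

lemma LL_mono {m m' : ℕ} (h : m ≤ m') : LL m ≤ LL m' := by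
  apply AddSubgroup.closure_mono
  rintro x ⟨a, ha, rfl⟩
  exact ⟨a, SS_mono h ha, rfl⟩

lemma LL_one {x : WG ℚ} (hx : x ∈ LL 1) : ∃ k : ℤ, x = k • br (1 : ℚ) := by
  induction hx using AddSubgroup.closure_induction with
  | mem x hx =>
    obtain ⟨a, ha, rfl⟩ := hx
    have h1 : a.natAbs = 1 := by
      by_contra h
      obtain ⟨q, hq, hd⟩ := Nat.exists_prime_and_dvd h
      have := ha.2 q hq hd
      have := hq.two_le
      omega
    rcases Int.natAbs_eq_iff.mp h1 with h | h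
    · refine ⟨1, ?_⟩
      rw [h]; simp
    · refine ⟨-1, ?_⟩
      rw [h]
      have := br_neg (F := ℚ) (a := 1) one_ne_zero
      rw [neg_smul, one_smul, eq_neg_iff_add_eq_zero, add_comm]
      push_cast
      exact this
  | zero => exact ⟨0, by simp⟩
  | add x y _ _ hx hy =>
    obtain ⟨k, rfl⟩ := hx
    obtain ⟨l, rfl⟩ := hy
    exact ⟨k + l, (add_zsmul _ _ _).symm⟩
  | neg x _ hx =>
    obtain ⟨k, rfl⟩ := hx
    exact ⟨-k, by rw [neg_smul]⟩

lemma LL_not_prime {m : ℕ} (hm : ¬ m.Prime) (hm1 : 1 ≤ m) : LL m ≤ LL (m - 1) := by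
  apply AddSubgroup.closure_mono
  rintro x ⟨a, ha, rfl⟩
  refine ⟨a, ⟨ha.1, fun q hq hd => ?_⟩, rfl⟩
  have h1 := ha.2 q hq hd
  have h2 : q ≠ m := by rintro rfl; exact hm hq
  omega

section Prime

variable {p : ℕ} [hp : Fact p.Prime]

lemma mod_pos {n : ℤ} (hn : n ∈ SS (p - 1)) : 0 < n % p ∧ n % p < p := by
  have hp0 : (0 : ℤ) < p := by exact_mod_cast hp.out.pos
  have h1 := Int.emod_nonneg n hp0.ne'
  have h2 := Int.emod_lt_of_pos n hp0
  refine ⟨lt_of_le_of_ne h1 ?_, h2⟩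
  intro h
  have h3 : (p : ℤ) ∣ n := Int.dvd_of_emod_eq_zero h.symm
  have h4 : p ∣ n.natAbs := by
    have := Int.natAbs_dvd_natAbs.mpr h3
    simpa using this
  have := hn.2 p hp.out h4
  have := hp.out.two_le
  omega

lemma small_mem {n : ℤ} (hn : n ≠ 0) (h1 : -(p : ℤ) < n) (h2 : n < p) : n ∈ SS (p - 1) := by
  apply SS_small hn
  have := hp.out.two_le
  omega

lemma pq_ne : (p : ℚ) ≠ 0 := by exact_mod_cast hp.out.ne_zero

lemma K1 {u1 u2 c : ℤ} (h1 : 0 < u1) (h1' : u1 < p) (h2 : 0 < u2) (h2' : u2 < p)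
    (hc : c ∈ SS (p - 1)) :
    br ((p : ℚ) * ((u1 * u2 : ℤ) : ℚ) * c) - br ((p : ℚ) * (((u1 * u2) % p : ℤ) : ℚ) * c) ∈
      LL (p - 1) := by
  have hp0 : (0 : ℤ) < p := by exact_mod_cast hp.out.pos
  have hu1 : u1 ∈ SS (p - 1) := small_mem h1.ne' (by omega) h1'
  have hu2 : u2 ∈ SS (p - 1) := small_mem h2.ne' (by omega) h2'
  obtain ⟨hu, hu'⟩ := mod_pos (p := p) (SS_mul hu1 hu2)
  set u := (u1 * u2) % p with hudef
  set k := (u1 * u2) / p with hkdef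
  have hdiv : u1 * u2 = p * k + u := (Int.mul_ediv_add_emod (u1 * u2) p).symm
  have hk0 : 0 ≤ k := Int.ediv_nonneg (mul_pos h1 h2).le hp0.le
  have hkp : k < p := by
    by_contra hge
    push Not at hge
    nlinarith
  by_cases hk : k = 0
  · have : u1 * u2 = u := by rw [hdiv, hk]; ring
    rw [this, sub_self]
    exact AddSubgroup.zero_mem _
  have hkS : k ∈ SS (p - 1) := small_mem hk (by omega) hkp
  have huS : u ∈ SS (p - 1) := small_mem hu.ne' (by omega) hu'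
  have hcq : (c : ℚ) ≠ 0 := by exact_mod_cast hc.1
  have hkq : (k : ℚ) ≠ 0 := by exact_mod_cast hk
  have huq : (u : ℚ) ≠ 0 := by exact_mod_cast hu.ne'
  have h12q : ((u1 * u2 : ℤ) : ℚ) ≠ 0 := by exact_mod_cast (mul_pos h1 h2).ne'
  have hpq : (p : ℚ) ≠ 0 := pq_ne
  have hdivq : ((u1 * u2 : ℤ) : ℚ) = p * k + u := by rw [hdiv]; push_cast; ring
  have hsum : (k * c : ℚ) * p ^ 2 + p * u * c = p * ((u1 * u2 : ℤ) : ℚ) * c := by
    rw [hdivq]; ring
  have h3 := br_add (F := ℚ) (a := (k * c : ℚ) * p ^ 2) (b := p * u * c)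
    (mul_ne_zero (mul_ne_zero hkq hcq) (pow_ne_zero 2 hpq))
    (mul_ne_zero (mul_ne_zero hpq huq) hcq)
    (by rw [hsum]; exact mul_ne_zero (mul_ne_zero hpq h12q) hcq)
  rw [hsum, br_sq (mul_ne_zero hkq hcq) hpq] at h3
  have h4 : (k * c : ℚ) * p ^ 2 * (p * u * c) * (p * ((u1 * u2 : ℤ) : ℚ) * c) =
      ((k * u * (u1 * u2) * c : ℤ) : ℚ) * (p ^ 2 * c) ^ 2 := by
    push_cast; ring
  have hmem2 : k * u * (u1 * u2) * c ∈ SS (p - 1) :=
    SS_mul (SS_mul (SS_mul hkS huS) (SS_mul hu1 hu2)) hc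
  rw [h4, br_sq (by exact_mod_cast hmem2.1) (mul_ne_zero (pow_ne_zero 2 hpq) hcq)] at h3
  have h5 : br ((p : ℚ) * ((u1 * u2 : ℤ) : ℚ) * c) - br ((p : ℚ) * (u : ℚ) * c) =
      br (k * c : ℚ) - br ((k * u * (u1 * u2) * c : ℤ) : ℚ) := by
    have := h3
    rw [← sub_eq_zero] at this ⊢
    rw [← neg_eq_zero, ← this]
    abel
  rw [h5]
  apply AddSubgroup.sub_mem
  · have := br_mem (SS_mul hkS hc)
    push_cast at this
    exact this
  · exact br_mem hmem2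

lemma K2 {r c : ℤ} (h1 : 0 < r) (h1' : r < p) (hc : c ∈ SS (p - 1)) :
    br ((p : ℚ) * ((-r : ℤ) : ℚ) * c) - br ((p : ℚ) * (((p : ℤ) - r : ℤ) : ℚ) * c) ∈ LL (p - 1) := by
  have hr : r ∈ SS (p - 1) := small_mem h1.ne' (by omega) h1'
  have hpr : (p : ℤ) - r ∈ SS (p - 1) := small_mem (by omega) (by omega) (by omega)
  have hcq : (c : ℚ) ≠ 0 := by exact_mod_cast hc.1
  have hrq : ((-r : ℤ) : ℚ) ≠ 0 := by exact_mod_cast (SS_neg hr).1
  have hprq : (((p : ℤ) - r : ℤ) : ℚ) ≠ 0 := by exact_mod_cast hpr.1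
  have hpq : (p : ℚ) ≠ 0 := pq_ne
  have hsum : (c : ℚ) * p ^ 2 + p * ((-r : ℤ) : ℚ) * c = p * (((p : ℤ) - r : ℤ) : ℚ) * c := by
    push_cast; ring
  have h3 := br_add (F := ℚ) (a := (c : ℚ) * p ^ 2) (b := p * ((-r : ℤ) : ℚ) * c)
    (mul_ne_zero hcq (pow_ne_zero 2 hpq)) (mul_ne_zero (mul_ne_zero hpq hrq) hcq)
    (by rw [hsum]; exact mul_ne_zero (mul_ne_zero hpq hprq) hcq)
  rw [hsum, br_sq hcq hpq] at h3
  have h4 : (c : ℚ) * p ^ 2 * (p * ((-r : ℤ) : ℚ) * c) * (p * (((p : ℤ) - r : ℤ) : ℚ) * c) =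
      (((-r) * ((p : ℤ) - r) * c : ℤ) : ℚ) * (p ^ 2 * c) ^ 2 := by
    push_cast; ring
  have hmem2 : (-r) * ((p : ℤ) - r) * c ∈ SS (p - 1) := SS_mul (SS_mul (SS_neg hr) hpr) hc
  rw [h4, br_sq (by exact_mod_cast hmem2.1) (mul_ne_zero (pow_ne_zero 2 hpq) hcq)] at h3
  have h5 : br ((p : ℚ) * ((-r : ℤ) : ℚ) * c) - br ((p : ℚ) * (((p : ℤ) - r : ℤ) : ℚ) * c) =
      br (((-r) * ((p : ℤ) - r) * c : ℤ) : ℚ) - br (c : ℚ) := by
    have := h3
    rw [← sub_eq_zero] at this ⊢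
    rw [← this]
    abel
  rw [h5]
  exact AddSubgroup.sub_mem _ (br_mem hmem2) (br_mem hc)

lemma K3_nat (n : ℕ) : (n : ℤ) ∈ SS (p - 1) → ∀ c ∈ SS (p - 1),
    br ((p : ℚ) * ((n : ℤ) : ℚ) * c) - br ((p : ℚ) * ((((n : ℤ)) % p : ℤ) : ℚ) * c) ∈
      LL (p - 1) := by
  induction n using induction_on_primes with
  | zero => intro h; exact absurd rfl h.1
  | one =>
    intro _ c hc
    have : ((1 : ℕ) : ℤ) % p = 1 := by
      apply Int.emod_eq_of_lt (by norm_num)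
      exact_mod_cast hp.out.one_lt
    rw [this]
    simp
  | prime_mul q a hq ih =>
    intro h c hc
    have hqS : (q : ℤ) ∈ SS (p - 1) := by
      refine ⟨by exact_mod_cast hq.ne_zero, fun r hr hd => h.2 r hr ?_⟩
      rw [Int.natAbs_natCast] at hd ⊢
      exact hd.mul_right a
    have haS : (a : ℤ) ∈ SS (p - 1) := by
      refine ⟨?_, fun r hr hd => h.2 r hr ?_⟩
      · intro h0
        apply h.1
        push_cast
        rw [h0, mul_zero]
      · rw [Int.natAbs_natCast] at hd ⊢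
        exact hd.mul_left q
    have hqp : (q : ℤ) < p := by
      have := hqS.2 q hq (by simp)
      have := hp.out.two_le
      omega
    have h1 := ih haS ((q : ℤ) * c) (SS_mul hqS hc)
    obtain ⟨m1, m2⟩ := mod_pos haS
    have h2 := K1 (c := c) m1 m2 (by exact_mod_cast hq.pos) hqp hc
    have e1 : (((a : ℤ) % p) * q) % p = ((q * a : ℕ) : ℤ) % p := by
      push_cast
      rw [Int.mul_emod, Int.emod_emod_of_dvd _ dvd_rfl, ← Int.mul_emod, mul_comm]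
    rw [e1] at h2
    have := AddSubgroup.add_mem _ h1 h2
    have e2 : br ((p : ℚ) * (((q * a : ℕ) : ℤ) : ℚ) * c) -
        br ((p : ℚ) * ((((q * a : ℕ) : ℤ) % p : ℤ) : ℚ) * c) =
        (br ((p : ℚ) * ((a : ℤ) : ℚ) * ((q * c : ℤ) : ℚ)) -
          br ((p : ℚ) * (((a : ℤ) % p : ℤ) : ℚ) * ((q * c : ℤ) : ℚ))) +
        (br ((p : ℚ) * ((((a : ℤ) % p) * q : ℤ) : ℚ) * c) -
          br ((p : ℚ) * ((((q * a : ℕ) : ℤ) % p : ℤ) : ℚ) * c)) := by
      have e3 : (p : ℚ) * (((q * a : ℕ) : ℤ) : ℚ) * c = (p : ℚ) * ((a : ℤ) : ℚ) * ((q * c : ℤ) : ℚ) := by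
        push_cast; ring
      have e4 : (p : ℚ) * (((a : ℤ) % p : ℤ) : ℚ) * ((q * c : ℤ) : ℚ) =
          (p : ℚ) * ((((a : ℤ) % p) * q : ℤ) : ℚ) * c := by
        push_cast; ring
      rw [e3, e4]
      abel
    rw [e2]
    exact this

lemma K3 {n : ℤ} (hn : n ∈ SS (p - 1)) :
    br ((p : ℚ) * (n : ℚ)) - br ((p : ℚ) * ((n % p : ℤ) : ℚ)) ∈ LL (p - 1) := by
  have hp0 : (0 : ℤ) < p := by exact_mod_cast hp.out.pos
  rcases le_or_gt 0 n with h | h
  · obtain ⟨m, rfl⟩ := Int.eq_ofNat_of_zero_le h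
    have := K3_nat m hn 1 (SS_one _)
    simpa using this
  · obtain ⟨m, hm⟩ := Int.eq_ofNat_of_zero_le (show 0 ≤ -n by omega)
    have hm' : n = -(m : ℤ) := by omega
    subst hm'
    have hmS : (m : ℤ) ∈ SS (p - 1) := by
      have := SS_neg hn
      rwa [neg_neg] at this
    have h1 := K3_nat m hmS (-1) (SS_neg (SS_one _))
    obtain ⟨m1, m2⟩ := mod_pos hmS
    have h2 := K2 (c := 1) m1 m2 (SS_one _)
    have e1 : (-(m : ℤ)) % p = (p : ℤ) - (m : ℤ) % p := by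
      have e2 : -(m : ℤ) = ((p : ℤ) - (m : ℤ) % p) + p * (-((m : ℤ) / p) - 1) := by
        have := Int.mul_ediv_add_emod (m : ℤ) p
        linarith
      conv_lhs => rw [e2]
      rw [Int.add_mul_emod_self_left]
      exact Int.emod_eq_of_lt (by omega) (by omega)
    rw [e1]
    have := AddSubgroup.add_mem _ h1 h2
    have e3 : br ((p : ℚ) * ((-(m : ℤ) : ℤ) : ℚ)) - br ((p : ℚ) * (((p : ℤ) - (m : ℤ) % p : ℤ) : ℚ)) =
        (br ((p : ℚ) * ((m : ℤ) : ℚ) * ((-1 : ℤ) : ℚ)) -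
          br ((p : ℚ) * (((m : ℤ) % p : ℤ) : ℚ) * ((-1 : ℤ) : ℚ))) +
        (br ((p : ℚ) * ((-((m : ℤ) % p) : ℤ) : ℚ) * ((1 : ℤ) : ℚ)) -
          br ((p : ℚ) * (((p : ℤ) - (m : ℤ) % p : ℤ) : ℚ) * ((1 : ℤ) : ℚ))) := by
      have e4 : (p : ℚ) * ((-(m : ℤ) : ℤ) : ℚ) = (p : ℚ) * ((m : ℤ) : ℚ) * ((-1 : ℤ) : ℚ) := by
        push_cast; ring
      have e5 : (p : ℚ) * (((m : ℤ) % p : ℤ) : ℚ) * ((-1 : ℤ) : ℚ) =
          (p : ℚ) * ((-((m : ℤ) % p) : ℤ) : ℚ) * ((1 : ℤ) : ℚ) := by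
        push_cast; ring
      have e6 : (p : ℚ) * (((p : ℤ) - (m : ℤ) % p : ℤ) : ℚ) =
          (p : ℚ) * (((p : ℤ) - (m : ℤ) % p : ℤ) : ℚ) * ((1 : ℤ) : ℚ) := by
        push_cast; ring
      rw [e4, e5, ← e6]
      abel
    rw [e3]
    exact this

variable (p) in
/-- The section `W(F_p) → W(ℚ)/L_{p-1}` on generators. -/
noncomputable def fp (u : ZMod p) : WG ℚ ⧸ LL (p - 1) :=
  QuotientAddGroup.mk (br ((p : ℚ) * (u.val : ℚ)))

lemma fp_int {n : ℤ} (hn : n ∈ SS (p - 1)) :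
    fp p (n : ZMod p) = QuotientAddGroup.mk (br ((p : ℚ) * (n : ℚ))) := by
  unfold fp
  have h1 : (((n : ZMod p).val : ℕ) : ℚ) = ((n % p : ℤ) : ℚ) := by
    have := ZMod.val_intCast (n := p) n
    exact_mod_cast this
  rw [h1, eq_comm, ← sub_eq_zero, ← QuotientAddGroup.mk_sub, QuotientAddGroup.eq_zero_iff]
  exact K3 hn

lemma val_mem {u : ZMod p} (hu : u ≠ 0) : ((u.val : ℕ) : ℤ) ∈ SS (p - 1) := by
  apply small_mem
  · have := (ZMod.val_ne_zero u).mpr hu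
    exact_mod_cast this
  · have := hp.out.pos
    omega
  · exact_mod_cast ZMod.val_lt u

lemma val_cast (u : ZMod p) : (((u.val : ℕ) : ℤ) : ZMod p) = u := by
  simp

lemma fp_WM : WM (fp p) := by
  constructor
  · intro u v hu hv
    have ha := val_mem hu
    have hb := val_mem hv
    set a : ℤ := ((u.val : ℕ) : ℤ) with hadef
    set b : ℤ := ((v.val : ℕ) : ℤ) with hbdef
    have hu' : (a : ZMod p) = u := val_cast u
    have hv' : (b : ZMod p) = v := val_cast v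
    have haq : (a : ℚ) ≠ 0 := by exact_mod_cast ha.1
    have hbq : (b : ℚ) ≠ 0 := by exact_mod_cast hb.1
    rw [← hu', ← hv']
    have e : (a : ZMod p) * (b : ZMod p) ^ 2 = ((a * (b * b) : ℤ) : ZMod p) := by push_cast; ring
    rw [e, fp_int (SS_mul ha (SS_mul hb hb)), fp_int ha]
    have e2 : (p : ℚ) * ((a * (b * b) : ℤ) : ℚ) = (p * a : ℚ) * (b : ℚ) ^ 2 := by push_cast; ring
    rw [e2, br_sq (mul_ne_zero pq_ne haq) hbq]
  · intro u v hu hv huv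
    have ha := val_mem hu
    have hb := val_mem hv
    set a : ℤ := ((u.val : ℕ) : ℤ) with hadef
    set b : ℤ := ((v.val : ℕ) : ℤ) with hbdef
    have hu' : (a : ZMod p) = u := val_cast u
    have hv' : (b : ZMod p) = v := val_cast v
    have hap : 0 < a ∧ a < p := by
      constructor
      · have := (ZMod.val_ne_zero u).mpr hu
        omega
      · have := ZMod.val_lt u
        omega
    have hbp : 0 < b ∧ b < p := by
      constructor
      · have := (ZMod.val_ne_zero v).mpr hv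
        omega
      · have := ZMod.val_lt v
        omega
    have hne : a + b ≠ p := by
      intro h
      apply huv
      rw [← hu', ← hv', ← Int.cast_add, h]
      simp
    -- choose b'
    obtain ⟨b', hb'1, hb'2, hb'3, hb'4⟩ : ∃ b' : ℤ, (b' : ZMod p) = v ∧ b' ∈ SS (p - 1) ∧
        a + b' ∈ SS (p - 1) ∧ b' ≠ 0 := by
      rcases lt_or_gt_of_ne hne with h | h
      · exact ⟨b, hv', hb, small_mem (by omega) (by omega) h, hb.1⟩
      · refine ⟨b - p, ?_, small_mem (by omega) (by omega) (by omega),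
          small_mem (by omega) (by omega) (by omega), by omega⟩
        rw [Int.cast_sub, hv']; simp
    rw [← hu', ← hb'1]
    have e1 : (a : ZMod p) + (b' : ZMod p) = ((a + b' : ℤ) : ZMod p) := by push_cast; ring
    have e2 : (a : ZMod p) * (b' : ZMod p) * ((a + b' : ℤ) : ZMod p) =
        ((a * b' * (a + b') : ℤ) : ZMod p) := by push_cast; ring
    rw [e1, e2, fp_int ha, fp_int hb'2, fp_int hb'3, fp_int (SS_mul (SS_mul ha hb'2) hb'3),
      ← QuotientAddGroup.mk_add, ← QuotientAddGroup.mk_add]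
    congr 1
    have haq : (a : ℚ) ≠ 0 := by exact_mod_cast ha.1
    have hbq : (b' : ℚ) ≠ 0 := by exact_mod_cast hb'4
    have habq : ((a + b' : ℤ) : ℚ) ≠ 0 := by exact_mod_cast hb'3.1
    have e3 : (p : ℚ) * a + p * b' = p * ((a + b' : ℤ) : ℚ) := by push_cast; ring
    have h3 := br_add (F := ℚ) (a := (p : ℚ) * a) (b := p * b') (mul_ne_zero pq_ne haq)
      (mul_ne_zero pq_ne hbq) (by rw [e3]; exact mul_ne_zero pq_ne habq)
    rw [e3] at h3
    have e4 : (p : ℚ) * a * (p * b') * (p * ((a + b' : ℤ) : ℚ)) =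
        (p * ((a * b' * (a + b') : ℤ) : ℚ)) * (p : ℚ) ^ 2 := by push_cast; ring
    rw [e4, br_sq (mul_ne_zero pq_ne ?_) pq_ne] at h3
    · exact h3
    · exact_mod_cast (SS_mul (SS_mul ha hb'2) hb'3).1

lemma fp_neg {u : ZMod p} (hu : u ≠ 0) : fp p u + fp p (-u) = 0 := by
  have ha := val_mem hu
  set a : ℤ := ((u.val : ℕ) : ℤ) with hadef
  have hu' : (a : ZMod p) = u := val_cast u
  have haq : (a : ℚ) ≠ 0 := by exact_mod_cast ha.1
  have e : - (a : ZMod p) = ((-a : ℤ) : ZMod p) := by push_cast; ring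
  rw [← hu', e, fp_int ha, fp_int (SS_neg ha), ← QuotientAddGroup.mk_add]
  have e2 : (p : ℚ) * ((-a : ℤ) : ℚ) = -(p * a) := by push_cast; ring
  rw [e2, br_neg (mul_ne_zero pq_ne haq), QuotientAddGroup.mk_zero]

end Prime

end Pool.Agent.Lib.MP_800ada_gt
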