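import Pool.Agent.Lib.MP_800ada_gt.W5

/-!
# The class of a unimodular lattice in the Witt group of `ℚ`
-/

namespace Pool.Agent.Lib.MP_800ada_gt

open Matrix

section Prime

variable (p : ℕ) [hp : Fact p.Prime]

/-- `W(F_p) → W(ℚ)/L_{p-1}`. -/
noncomputable def PhiHom : WG (ZMod p) →+ WG ℚ ⧸ LL (p - 1) :=
  wlift (fp p) fp_WM (fun _ h => fp_neg h)

lemma spq_WM : WM (fun a : ℚ => sp (p := p) (a : ℚ_[p])) := by
  constructor
  · intro a b ha hb
    have := (sp_WM (p := p)).sq (a : ℚ_[p]) (b : ℚ_[p]) (by exact_mod_cast ha) (by exact_mod_cast hb)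
    push_cast
    exact this
  · intro a b ha hb hab
    have := (sp_WM (p := p)).add (a : ℚ_[p]) (b : ℚ_[p]) (by exact_mod_cast ha)
      (by exact_mod_cast hb) (by exact_mod_cast hab)
    push_cast
    exact this

/-- The residue homomorphism. -/
noncomputable def PsiHom : WG ℚ →+ WG (ZMod p) :=
  wlift (fun a : ℚ => sp (p := p) (a : ℚ_[p])) (spq_WM p) (by
    intro a ha
    have := sp_neg (p := p) (a := (a : ℚ_[p])) (by exact_mod_cast ha)
    push_cast
    exact this)

lemma PsiHom_br (a : ℚ) : PsiHom p (br a) = sp (p := p) (a : ℚ_[p]) := wlift_br _ _ _ _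

lemma PhiHom_br (a : ZMod p) : PhiHom p (br a) = fp p a := wlift_br _ _ _ _

lemma Phi_Psi {x : WG ℚ} (hx : x ∈ LL p) : PhiHom p (PsiHom p x) = QuotientAddGroup.mk x := by
  induction hx using AddSubgroup.closure_induction with
  | mem x hx =>
    obtain ⟨a, ha, rfl⟩ := hx
    obtain ⟨e, n', hn', hae⟩ := Nat.exists_eq_pow_mul_and_not_dvd
      (Int.natAbs_ne_zero.mpr ha.1) p hp.out.ne_one
    set n : ℤ := a.sign * n' with hn
    have han : a = (p : ℤ) ^ e * n := by
      rw [hn]
      conv_lhs => rw [← Int.sign_mul_natAbs a, hae]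
      push_cast
      ring
    have hnabs : n.natAbs = n' := by
      rw [hn, Int.natAbs_mul, Int.natAbs_sign_of_ne_zero ha.1, one_mul, Int.natAbs_natCast]
    have hn0 : n ≠ 0 := by
      intro h
      apply ha.1
      rw [han, h, mul_zero]
    have hnS : n ∈ SS (p - 1) := by
      refine ⟨hn0, fun q hq hd => ?_⟩
      rw [hnabs] at hd
      have h1 := ha.2 q hq (by rw [hae]; exact hd.mul_left _)
      have h2 : q ≠ p := by rintro rfl; exact hn' hd
      omega
    have hnz : (n : ZMod p) ≠ 0 := by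
      rw [Ne, ZMod.intCast_zmod_eq_zero_iff_dvd]
      intro h
      apply hn'
      rw [← hnabs]
      have := Int.natAbs_dvd_natAbs.mpr h
      simpa using this
    have hnorm : ‖(n : ℚ_[p])‖ = 1 := by
      have h1 : ‖(n : ℚ_[p])‖ ≤ 1 := Padic.norm_int_le_one n
      refine le_antisymm h1 ?_
      by_contra h
      push Not at h
      have := (rs_eq_zero_iff h1).mpr h
      rw [rs_int] at this
      exact hnz this
    have hnq : (n : ℚ_[p]) ≠ 0 := by exact_mod_cast hn0
    have hacast : ((a : ℚ) : ℚ_[p]) = (p : ℚ_[p]) ^ (e : ℤ) * (n : ℚ_[p]) := by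
      rw [han]; push_cast; rw [zpow_natCast]
    have hval : ((a : ℚ) : ℚ_[p]).valuation = e := by
      rw [hacast, val_zpow_mul _ hnq, val_of_norm_one hnorm, add_zero]
    have hres : res (((a : ℚ) : ℚ_[p])) = (n : ZMod p) := by
      unfold res
      rw [hacast, up_zpow_mul _ hnq, up_of_norm_one hnorm, rs_int]
    rw [PsiHom_br]
    have hnq' : (n : ℚ) ≠ 0 := by exact_mod_cast hn0
    rcases Nat.even_or_odd e with ⟨k, hk⟩ | ⟨k, hk⟩
    · have h1 : ¬ Odd (((a : ℚ) : ℚ_[p]).valuation) := by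
        rw [hval, hk]
        push_cast
        rw [Int.not_odd_iff_even]
        exact ⟨k, rfl⟩
      have h2 : br (a : ℚ) = br (n : ℚ) := by
        have : (a : ℚ) = (n : ℚ) * ((p : ℚ) ^ k) ^ 2 := by
          rw [han, hk]; push_cast; ring
        rw [this, br_sq hnq' (pow_ne_zero _ pq_ne)]
      unfold sp
      rw [if_neg h1, map_zero, h2, eq_comm, QuotientAddGroup.eq_zero_iff]
      exact br_mem hnS
    · have h1 : Odd (((a : ℚ) : ℚ_[p]).valuation) := by
        rw [hval, hk]
        push_cast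
        exact ⟨k, rfl⟩
      have h2 : br (a : ℚ) = br ((p : ℚ) * (n : ℚ)) := by
        have : (a : ℚ) = ((p : ℚ) * (n : ℚ)) * ((p : ℚ) ^ k) ^ 2 := by
          rw [han, hk]; push_cast; ring
        rw [this, br_sq (mul_ne_zero pq_ne hnq') (pow_ne_zero _ pq_ne)]
      unfold sp
      rw [if_pos h1, hres, PhiHom_br, fp_int hnS, h2]
  | zero => simp
  | add x y _ _ hx hy => rw [map_add, map_add, hx, hy, QuotientAddGroup.mk_add]
  | neg x _ hx => rw [map_neg, map_neg, hx, QuotientAddGroup.mk_neg]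

lemma descend {x : WG ℚ} (hx : x ∈ LL p) (h0 : PsiHom p x = 0) : x ∈ LL (p - 1) := by
  have := Phi_Psi p hx
  rw [h0, map_zero] at this
  exact (QuotientAddGroup.eq_zero_iff x).mp this.symm

end Prime

lemma br_rat_mem {q : ℚ} (hq : q ≠ 0) : ∃ N : ℕ, br q ∈ LL N := by
  refine ⟨(q.num * q.den).natAbs, ?_⟩
  have hd : (q.den : ℚ) ≠ 0 := by exact_mod_cast q.den_ne_zero
  have hn : q.num * q.den ≠ 0 := mul_ne_zero (Rat.num_ne_zero.mpr hq) (by exact_mod_cast q.den_ne_zero)
  have h1 : q = ((q.num * q.den : ℤ) : ℚ) * ((q.den : ℚ)⁻¹) ^ 2 := by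
    push_cast
    field_simp
    exact Rat.mul_den_eq_num q
  have h2 : br q = br ((q.num * q.den : ℤ) : ℚ) := by
    conv_lhs => rw [h1]
    rw [br_sq (by exact_mod_cast hn) (inv_ne_zero hd)]
  rw [h2]
  exact br_mem (SS_small hn le_rfl)

lemma sum_mem_LL {n : ℕ} (d : Fin n → ℚ) (hd : ∀ i, d i ≠ 0) : ∃ N : ℕ, ∑ i, br (d i) ∈ LL N := by
  choose N hN using fun i => br_rat_mem (hd i)
  refine ⟨∑ i, N i, ?_⟩
  apply AddSubgroup.sum_mem
  intro i _
  exact LL_mono (Finset.single_le_sum (fun _ _ => Nat.zero_le _) (Finset.mem_univ i)) (hN i)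

lemma sp_two {n : ℕ} (x : Fin n → ℚ_[2]) (hx : ∀ i, x i ≠ 0) (s : Finset (Fin n)) :
    ∑ i ∈ s, sp (p := 2) (x i) = if Odd (∑ i ∈ s, (x i).valuation) then br (1 : ZMod 2) else 0 := by
  have hres : ∀ i, res (x i) = (1 : ZMod 2) := by
    intro i
    have := res_ne (hx i)
    generalize res (x i) = r at this
    revert this
    revert r
    decide
  have h2 : br (1 : ZMod 2) + br (1 : ZMod 2) = 0 := by
    have := br_neg (F := ZMod 2) (a := 1) one_ne_zero
    have e : (-1 : ZMod 2) = 1 := by decide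
    rwa [e] at this
  induction s using Finset.induction_on with
  | empty => simp
  | insert a s ha ih =>
    rw [Finset.sum_insert ha, Finset.sum_insert ha, ih]
    unfold sp
    rw [hres]
    by_cases h1 : Odd (x a).valuation <;> by_cases h3 : Odd (∑ i ∈ s, (x i).valuation)
    · rw [if_pos h1, if_pos h3, if_neg, h2]
      rw [Int.not_odd_iff_even]
      exact h1.add_odd h3
    · rw [if_pos h1, if_neg h3, if_pos, add_zero]
      rw [Int.not_odd_iff_even] at h3
      exact h1.add_even h3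
    · rw [if_neg h1, if_pos h3, if_pos, zero_add]
      rw [Int.not_odd_iff_even] at h1
      exact h1.add_odd h3
    · rw [if_neg h1, if_neg h3, if_neg, add_zero]
      rw [Int.not_odd_iff_even] at h1 h3 ⊢
      exact h1.add h3

section Lattice

variable {n : ℕ} (M : Matrix (Fin n) (Fin n) ℤ) (hs : M.IsSymm) (hu : IsUnit M.det)
  (P : Matrix (Fin n) (Fin n) ℚ) (d : Fin n → ℚ) (hd : ∀ i, d i ≠ 0) (hP : P.det ≠ 0)
  (h : Pᵀ * M.map (Int.castRingHom ℚ) * P = diagonal d)

include hs hu hd hP h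

lemma Psi_class (p : ℕ) [hp : Fact p.Prime] : PsiHom p (∑ i, br (d i)) = 0 := by
  rw [map_sum]
  simp only [PsiHom_br]
  set c : ℚ →+* ℚ_[p] := Rat.castHom ℚ_[p] with hc
  have hcM : (M.map (Int.castRingHom ℚ)).map c = M.map (Int.castRingHom ℚ_[p]) := by
    ext i j; simp
  have hPp : (P.map c)ᵀ * M.map (Int.castRingHom ℚ_[p]) * P.map c = diagonal (fun i => (d i : ℚ_[p])) := by
    have e1 : (Pᵀ * M.map (Int.castRingHom ℚ) * P).map c = (diagonal d).map c := by rw [h]
    rw [Matrix.map_mul, Matrix.map_mul, hcM, diagonal_map (map_zero c)] at e1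
    exact e1
  have hPdet : (P.map c).det ≠ 0 := by
    have : (P.map c).det = c P.det := (RingHom.map_det c P).symm
    rw [this]
    exact (map_ne_zero c).mpr hP
  have hd' : ∀ i, (d i : ℚ_[p]) ≠ 0 := fun i => by exact_mod_cast hd i
  by_cases hp2 : p = 2
  · subst hp2
    rw [sp_two (fun i => (d i : ℚ_[2])) hd' Finset.univ, if_neg]
    rw [Int.not_odd_iff_even]
    have hprodval : ∀ s : Finset (Fin n), (∏ i ∈ s, (d i : ℚ_[2])).valuation =
        ∑ i ∈ s, ((d i : ℚ_[2])).valuation := by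
      intro s
      induction s using Finset.induction_on with
      | empty => simp
      | insert a s ha ih =>
        rw [Finset.prod_insert ha, Finset.sum_insert ha,
          Padic.valuation_mul (hd' a) (Finset.prod_ne_zero_iff.mpr (fun i _ => hd' i)), ih]
    rw [← hprodval]
    have hdet := congrArg Matrix.det hPp
    rw [det_mul, det_mul, det_transpose, det_diagonal] at hdet
    have hMdet : (M.map (Int.castRingHom ℚ_[2])).det = ((M.det : ℤ) : ℚ_[2]) := by
      exact (RingHom.map_det (Int.castRingHom ℚ_[2]) M).symm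
    rw [← hdet, hMdet]
    have hMu : ((M.det : ℤ) : ℚ_[2]) ≠ 0 := by exact_mod_cast hu.ne_zero
    have hMval : ((M.det : ℤ) : ℚ_[2]).valuation = 0 := by
      rcases Int.isUnit_iff.mp hu with h1 | h1 <;> rw [h1]
      · simp
      · apply val_of_norm_one
        simp
    rw [Padic.valuation_mul (mul_ne_zero hPdet hMu) hPdet, Padic.valuation_mul hPdet hMu, hMval,
      add_zero]
    exact ⟨_, rfl⟩
  · have h2u : IsUnit (2 : ℤ_[p]) := by
      rw [PadicInt.isUnit_iff]
      have h1 : ((2 : ℤ) : ℤ_[p]) = 2 := by norm_num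
      rw [← h1, PadicInt.norm_intCast_eq_one_iff]
      rw [Int.isCoprime_iff_gcd_eq_one]
      have : Nat.Coprime 2 p := (Nat.coprime_primes Nat.prime_two hp.out).mpr (Ne.symm hp2)
      exact this
    obtain ⟨Q, e, hQ, he, hQd⟩ := local_diag h2u n (Fin n) (by simp)
      (M.map (Int.castRingHom ℤ_[p])) (by
        rw [Matrix.IsSymm, ← transpose_map, hs])
      (by
        have : (M.map (Int.castRingHom ℤ_[p])).det = Int.castRingHom ℤ_[p] M.det :=
          (RingHom.map_det (Int.castRingHom ℤ_[p]) M).symm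
        rw [this]
        exact hu.map _)
    set g : ℤ_[p] →+* ℚ_[p] := PadicInt.Coe.ringHom with hg
    have hginj : Function.Injective g := Subtype.val_injective
    have hgM : (M.map (Int.castRingHom ℤ_[p])).map g = M.map (Int.castRingHom ℚ_[p]) := by
      ext i j; simp
    have hQp : (Q.map g)ᵀ * M.map (Int.castRingHom ℚ_[p]) * Q.map g = diagonal (fun i => g (e i)) := by
      have e1 : (Qᵀ * M.map (Int.castRingHom ℤ_[p]) * Q).map g = (diagonal e).map g := by rw [hQd]
      rw [Matrix.map_mul, Matrix.map_mul, hgM, diagonal_map (map_zero g)] at e1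
      exact e1
    have hQdet : (Q.map g).det ≠ 0 := by
      have : (Q.map g).det = g Q.det := (RingHom.map_det g Q).symm
      rw [this]
      exact (hQ.map g).ne_zero
    have hge : ∀ i, g (e i) ≠ 0 := fun i => ((he i).map g).ne_zero
    have hMsymm : (M.map (Int.castRingHom ℚ_[p])).IsSymm := by
      rw [Matrix.IsSymm, ← transpose_map, hs]
    have key := diag_class_eq (F := ℚ_[p]) (by norm_num) (M.map (Int.castRingHom ℚ_[p])) (P.map c)
      (Q.map g) hMsymm (fun i => (d i : ℚ_[p])) (fun i => g (e i)) hd' hge hPdet hQdet hPp hQp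
      (sp_WM (p := p))
    rw [key]
    apply Finset.sum_eq_zero
    intro i _
    have hnorm : ‖g (e i)‖ = 1 := by
      have := PadicInt.isUnit_iff.mp (he i)
      exact this
    unfold sp
    rw [val_of_norm_one hnorm, if_neg (by decide)]

lemma class_LL_one : ∑ i, br (d i) ∈ LL 1 := by
  obtain ⟨N, hN⟩ := sum_mem_LL d hd
  have key : ∀ k : ℕ, ∀ N : ℕ, N = k + 1 → ∑ i, br (d i) ∈ LL N → ∑ i, br (d i) ∈ LL 1 := by
    intro k
    induction k with
    | zero => intro N hN h1; rw [hN] at h1; exact h1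
    | succ k ih =>
      intro N hN h1
      apply ih (N - 1) (by omega)
      by_cases hpr : N.Prime
      · have : Fact N.Prime := ⟨hpr⟩
        exact descend N h1 (Psi_class M hs hu P d hd hP h N)
      · exact LL_not_prime hpr (by omega) h1
  exact key N (N + 1) rfl (LL_mono (Nat.le_succ N) hN)

end Lattice

/-- Sign. -/
noncomputable def sg (a : ℚ) : ℤ := if 0 < a then 1 else -1

lemma sg_WM : WM sg := by
  constructor
  · intro a b _ hb
    unfold sg
    have : 0 < b ^ 2 := by positivity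
    have h1 : 0 < a * b ^ 2 ↔ 0 < a := by
      constructor
      · intro h; exact (mul_pos_iff_of_pos_right this).mp h
      · intro h; exact mul_pos h this
    simp only [h1]
  · intro a b ha hb hab
    unfold sg
    rcases lt_or_gt_of_ne ha with h1 | h1 <;> rcases lt_or_gt_of_ne hb with h2 | h2
    · have h3 : a + b < 0 := by linarith
      have h4 : a * b * (a + b) < 0 := mul_neg_of_pos_of_neg (mul_pos_of_neg_of_neg h1 h2) h3
      rw [if_neg (not_lt.mpr h1.le), if_neg (not_lt.mpr h2.le), if_neg (not_lt.mpr h3.le),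
        if_neg (not_lt.mpr h4.le)]
    · rcases lt_or_gt_of_ne hab with h3 | h3
      · have h4 : 0 < a * b * (a + b) := mul_pos_of_neg_of_neg (mul_neg_of_neg_of_pos h1 h2) h3
        rw [if_neg (not_lt.mpr h1.le), if_pos h2, if_neg (not_lt.mpr h3.le), if_pos h4]
      · have h4 : a * b * (a + b) < 0 := mul_neg_of_neg_of_pos (mul_neg_of_neg_of_pos h1 h2) h3
        rw [if_neg (not_lt.mpr h1.le), if_pos h2, if_pos h3, if_neg (not_lt.mpr h4.le)]
        norm_num
    · rcases lt_or_gt_of_ne hab with h3 | h3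
      · have h4 : 0 < a * b * (a + b) := mul_pos_of_neg_of_neg (mul_neg_of_pos_of_neg h1 h2) h3
        rw [if_pos h1, if_neg (not_lt.mpr h2.le), if_neg (not_lt.mpr h3.le), if_pos h4]
        norm_num
      · have h4 : a * b * (a + b) < 0 := mul_neg_of_neg_of_pos (mul_neg_of_pos_of_neg h1 h2) h3
        rw [if_pos h1, if_neg (not_lt.mpr h2.le), if_pos h3, if_neg (not_lt.mpr h4.le)]
    · have h3 : 0 < a + b := by linarith
      have h4 : 0 < a * b * (a + b) := mul_pos (mul_pos h1 h2) h3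
      rw [if_pos h1, if_pos h2, if_pos h3, if_pos h4]

/-- The signature. -/
noncomputable def sgHom : WG ℚ →+ ℤ := wlift sg sg_WM (by
  intro a ha
  unfold sg
  rcases lt_or_gt_of_ne ha with h | h
  · rw [if_neg (not_lt.mpr h.le), if_pos (by linarith)]; norm_num
  · rw [if_pos h, if_neg (by linarith)]; norm_num)

lemma nsmul_neg_eq {A : Type*} [AddCommGroup A] (n : ℕ) (a : A) : n • (-a) = -(n • a) := by
  induction n with
  | zero => simp
  | succ n ih => rw [succ_nsmul, succ_nsmul, ih]; abel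

/-- Indefinite unimodular lattices are isotropic. -/
theorem exists_isotropic {n : ℕ} (M : Matrix (Fin n) (Fin n) ℤ) (hs : M.IsSymm)
    (hu : IsUnit M.det) (hpos : ∃ x : Fin n → ℤ, 0 < x ⬝ᵥ M *ᵥ x)
    (hneg : ∃ x : Fin n → ℤ, x ⬝ᵥ M *ᵥ x < 0) :
    ∃ x : Fin n → ℤ, x ≠ 0 ∧ x ⬝ᵥ M *ᵥ x = 0 := by
  set MQ := M.map (Int.castRingHom ℚ) with hMQ
  obtain ⟨P, d, hP, hd, hPd⟩ := local_diag (R := ℚ) (by norm_num) n (Fin n) (by simp) MQ (by
        rw [Matrix.IsSymm, hMQ, ← transpose_map, hs])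
      (by
        have : MQ.det = Int.castRingHom ℚ M.det := (RingHom.map_det (Int.castRingHom ℚ) M).symm
        rw [this]
        exact hu.map _)
  have hd0 : ∀ i, d i ≠ 0 := fun i => (hd i).ne_zero
  have hmem := class_LL_one M hs hu P d hd0 hP.ne_zero hPd
  obtain ⟨k, hk⟩ := LL_one hmem
  -- quadratic form in the diagonal basis
  have hform : ∀ y : Fin n → ℚ, (P *ᵥ y) ⬝ᵥ MQ *ᵥ (P *ᵥ y) = ∑ i, d i * y i * y i := by
    intro y
    rw [mulVec_mulVec, ← vecMul_transpose, ← dotProduct_mulVec, mulVec_mulVec, ← Matrix.mul_assoc,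
      hPd]
    simp only [dotProduct, mulVec_diagonal]
    apply Finset.sum_congr rfl
    intro i _
    ring
  have hcast : ∀ x : Fin n → ℤ, ((x ⬝ᵥ M *ᵥ x : ℤ) : ℚ) =
      (fun i => (x i : ℚ)) ⬝ᵥ MQ *ᵥ (fun i => (x i : ℚ)) := by
    intro x
    simp [dotProduct, mulVec, hMQ]
  have hPinv : ∀ x : Fin n → ℚ, P *ᵥ (P⁻¹ *ᵥ x) = x := by
    intro x
    rw [mulVec_mulVec, mul_nonsing_inv _ hP, one_mulVec]
  have hposd : ∃ i, 0 < d i := by
    obtain ⟨x, hx⟩ := hpos
    by_contra hno
    push Not at hno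
    have h1 : (0 : ℚ) < ((x ⬝ᵥ M *ᵥ x : ℤ) : ℚ) := by exact_mod_cast hx
    rw [hcast, ← hPinv (fun i => (x i : ℚ)), hform] at h1
    have h2 : ∑ i, d i * (P⁻¹ *ᵥ fun i => (x i : ℚ)) i * (P⁻¹ *ᵥ fun i => (x i : ℚ)) i ≤ 0 := by
      apply Finset.sum_nonpos
      intro i _
      have := mul_self_nonneg ((P⁻¹ *ᵥ fun i => (x i : ℚ)) i)
      have := hno i
      nlinarith
    linarith
  have hnegd : ∃ i, d i < 0 := by
    obtain ⟨x, hx⟩ := hneg
    by_contra hno
    push Not at hno
    have h1 : ((x ⬝ᵥ M *ᵥ x : ℤ) : ℚ) < 0 := by exact_mod_cast hx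
    rw [hcast, ← hPinv (fun i => (x i : ℚ)), hform] at h1
    have h2 : 0 ≤ ∑ i, d i * (P⁻¹ *ᵥ fun i => (x i : ℚ)) i * (P⁻¹ *ᵥ fun i => (x i : ℚ)) i := by
      apply Finset.sum_nonneg
      intro i _
      have := mul_self_nonneg ((P⁻¹ *ᵥ fun i => (x i : ℚ)) i)
      have := hno i
      nlinarith
    linarith
  -- |k| < n
  have hkval : k = ∑ i, sg (d i) := by
    have h1 := congrArg sgHom hk
    rw [map_sum, map_zsmul] at h1
    unfold sgHom at h1
    simp only [wlift_br] at h1
    rw [h1]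
    simp [sg]
  have hkn : k.natAbs < n := by
    obtain ⟨i, hi⟩ := hposd
    obtain ⟨j, hj⟩ := hnegd
    have hub : ∑ l, (1 - sg (d l)) > 0 := by
      apply Finset.sum_pos'
      · intro l _
        unfold sg
        split_ifs <;> norm_num
      · refine ⟨j, Finset.mem_univ _, ?_⟩
        unfold sg
        rw [if_neg (not_lt.mpr hj.le)]
        norm_num
    have hlb : ∑ l, (1 + sg (d l)) > 0 := by
      apply Finset.sum_pos'
      · intro l _
        unfold sg
        split_ifs <;> norm_num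
      · refine ⟨i, Finset.mem_univ _, ?_⟩
        unfold sg
        rw [if_pos hi]
        norm_num
    rw [Finset.sum_sub_distrib, ← hkval] at hub
    rw [Finset.sum_add_distrib, ← hkval] at hlb
    simp at hub hlb
    omega
  have hsum : ∃ ε : ℚ, ε ≠ 0 ∧ ∑ i, br (d i) = k.natAbs • br ε := by
    rcases le_or_gt 0 k with h0 | h0
    · refine ⟨1, one_ne_zero, ?_⟩
      rw [hk]
      conv_lhs => rw [← Int.natAbs_of_nonneg h0]
      rw [natCast_zsmul]
    · refine ⟨-1, by norm_num, ?_⟩
      rw [hk]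
      have h1 : k = -(k.natAbs : ℤ) := by omega
      have h2 : br (-1 : ℚ) = - br (1 : ℚ) := by
        have := br_neg (F := ℚ) (a := 1) one_ne_zero
        rw [eq_neg_iff_add_eq_zero, add_comm]
        exact this
      conv_lhs => rw [h1]
      rw [neg_zsmul, natCast_zsmul, h2, nsmul_neg_eq]
  obtain ⟨ε, hε, hsum⟩ := hsum
  obtain ⟨y, hy0, hy⟩ := sound d hd0 ε hε hsum hkn
  -- rational isotropic vector, clear denominators
  set x := P *ᵥ y with hx
  have hx0 : x ≠ 0 := by
    intro h0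
    apply hy0
    have : P⁻¹ *ᵥ x = y := by
      rw [hx, mulVec_mulVec, nonsing_inv_mul _ hP, one_mulVec]
    rw [← this, h0, mulVec_zero]
  have hxform : x ⬝ᵥ MQ *ᵥ x = 0 := by rw [hx, hform, hy]
  obtain ⟨N, hN0, hN⟩ : ∃ N : ℤ, N ≠ 0 ∧ ∀ i, ∃ z : ℤ, (z : ℚ) = N * x i := by
    refine ⟨∏ i, ((x i).den : ℤ), ?_, ?_⟩
    · apply Finset.prod_ne_zero_iff.mpr
      intro i _
      exact_mod_cast (x i).den_ne_zero
    · intro i
      rw [← Finset.mul_prod_erase _ _ (Finset.mem_univ i)]
      refine ⟨(x i).num * ∏ j ∈ Finset.univ.erase i, ((x j).den : ℤ), ?_⟩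
      have := Rat.mul_den_eq_num (x i)
      push_cast
      rw [← this]
      ring
  choose z hz using hN
  refine ⟨z, ?_, ?_⟩
  · intro h0
    apply hx0
    ext i
    have h1 := hz i
    rw [h0] at h1
    simp only [Pi.zero_apply, Int.cast_zero] at h1
    have : (N : ℚ) ≠ 0 := by exact_mod_cast hN0
    rcases mul_eq_zero.mp h1.symm with h2 | h2
    · exact absurd h2 this
    · exact h2
  · have h1 := hcast z
    have h2 : (fun i => (z i : ℚ)) = (N : ℚ) • x := by
      ext i; simp [hz]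
    rw [h2, mulVec_smul, dotProduct_smul, smul_dotProduct, hxform] at h1
    simp at h1
    exact_mod_cast h1

end Pool.Agent.Lib.MP_800ada_gt
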