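import Pool.Agent.Lib.MP_800ada_gt.ZDefs

/-!
# MP_800ada_gt: elementary reduction of integer vectors under `GL_n(ℤ)`
-/

namespace Pool.Agent.Lib.MP_800ada_gt

open Matrix

variable {ι : Type*} [Fintype ι] [DecidableEq ι]

/-- `P` acts trivially outside `S`. -/
def FixOut (S : Finset ι) (P : Matrix ι ι ℤ) : Prop :=
  ∀ k, k ∉ S → ∀ l, P k l = (1 : Matrix ι ι ℤ) k l ∧ P l k = (1 : Matrix ι ι ℤ) l k

lemma FixOut.one (S : Finset ι) : FixOut S (1 : Matrix ι ι ℤ) := fun _ _ _ => ⟨rfl, rfl⟩

lemma FixOut.mul {S : Finset ι} {P Q : Matrix ι ι ℤ} (hP : FixOut S P) (hQ : FixOut S Q) :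
    FixOut S (P * Q) := by
  intro k hk l
  constructor
  · rw [mul_apply]
    have : ∀ x, P k x * Q x l = (1 : Matrix ι ι ℤ) k x * Q x l := fun x => by rw [(hP k hk x).1]
    simp_rw [this]
    rw [← mul_apply, one_mul, (hQ k hk l).1]
  · rw [mul_apply]
    have : ∀ x, P l x * Q x k = P l x * (1 : Matrix ι ι ℤ) x k := fun x => by rw [(hQ k hk x).2]
    simp_rw [this]
    rw [← mul_apply, mul_one, (hP k hk l).2]

lemma FixOut.transpose {S : Finset ι} {P : Matrix ι ι ℤ} (hP : FixOut S P) :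
    FixOut S Pᵀ := by
  intro k hk l
  refine ⟨?_, ?_⟩
  · rw [transpose_apply, (hP k hk l).2, one_apply, one_apply]; simp [eq_comm]
  · rw [transpose_apply, (hP k hk l).1, one_apply, one_apply]; simp [eq_comm]

lemma FixOut.mulVec_single {S : Finset ι} {P : Matrix ι ι ℤ} (hP : FixOut S P) {k : ι}
    (hk : k ∉ S) : P *ᵥ Pi.single k 1 = Pi.single k 1 := by
  ext l
  rw [mulVec_single_one, col_apply, (hP k hk l).2, one_apply, Pi.single_apply]

lemma FixOut.mulVec_out {S : Finset ι} {P : Matrix ι ι ℤ} (hP : FixOut S P) {k : ι}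
    (hk : k ∉ S) (v : ι → ℤ) : (P *ᵥ v) k = v k := by
  have : ∀ x, P k x * v x = (1 : Matrix ι ι ℤ) k x * v x := fun x => by rw [(hP k hk x).1]
  rw [mulVec, dotProduct]
  simp_rw [this]
  change ((1 : Matrix ι ι ℤ) *ᵥ v) k = v k
  rw [one_mulVec]

lemma fixOut_transvection {S : Finset ι} {a b : ι} (ha : a ∈ S) (hb : b ∈ S) (c : ℤ) :
    FixOut S (transvection a b c) := by
  intro k hk l
  have h1 : a ≠ k := fun h => hk (h ▸ ha)
  have h2 : b ≠ k := fun h => hk (h ▸ hb)
  constructor
  · simp [transvection, Matrix.single_apply, h1]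
  · simp [transvection, Matrix.single_apply, h2]

lemma transvection_mulVec {a b : ι} (c : ℤ) (v : ι → ℤ) (k : ι) :
    (transvection a b c *ᵥ v) k = v k + if k = a then c * v b else 0 := by
  rw [transvection, add_mulVec, one_mulVec, Pi.add_apply]
  congr 1
  rw [mulVec, dotProduct, Finset.sum_eq_single b]
  · by_cases h : k = a
    · simp [h, Matrix.single_apply]
    · simp [h, Matrix.single_apply, Ne.symm h]
  · intro x _ hx
    simp [Matrix.single_apply, Ne.symm hx]
  · simp

/-- Lemma R: reduction of an integer vector by `GL_n(ℤ)` acting on the coordinates in `S`. -/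
theorem exists_reduce (S : Finset ι) {i : ι} (hi : i ∈ S) (v : ι → ℤ) :
    ∃ P : Matrix ι ι ℤ, IsUnit P.det ∧ FixOut S P ∧ ∃ c : ℤ, ∀ k ∈ S,
      (P *ᵥ v) k = if k = i then c else 0 := by
  induction hn : (∑ k ∈ S, (v k).natAbs) using Nat.strong_induction_on generalizing v with
  | _ n ih =>
    by_cases hpair : ∃ a ∈ S, ∃ b ∈ S, a ≠ b ∧ v a ≠ 0 ∧ v b ≠ 0
    · -- two nonzero coordinates
      obtain ⟨a, ha, b, hb, hab, hva, hvb, hle⟩ : ∃ a ∈ S, ∃ b ∈ S, a ≠ b ∧ v a ≠ 0 ∧ v b ≠ 0 ∧
          (v b).natAbs ≤ (v a).natAbs := by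
        obtain ⟨a, ha, b, hb, hab, hva, hvb⟩ := hpair
        rcases le_total (v b).natAbs (v a).natAbs with h | h
        · exact ⟨a, ha, b, hb, hab, hva, hvb, h⟩
        · exact ⟨b, hb, a, ha, hab.symm, hvb, hva, h⟩
      obtain ⟨c, hc⟩ : ∃ c : ℤ, (v a + c * v b).natAbs < (v a).natAbs := by
        rcases lt_or_gt_of_ne hva with h1 | h1 <;> rcases lt_or_gt_of_ne hvb with h2 | h2
        · exact ⟨-1, by omega⟩
        · exact ⟨1, by omega⟩
        · exact ⟨1, by omega⟩
        · exact ⟨-1, by omega⟩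
      have hdec : (∑ k ∈ S, ((transvection a b c *ᵥ v) k).natAbs) < n := by
        rw [← hn]
        apply Finset.sum_lt_sum
        · intro k _
          rw [transvection_mulVec]
          by_cases hk : k = a
          · subst hk; simp only [if_true]; exact hc.le
          · simp [hk]
        · refine ⟨a, ha, ?_⟩
          rw [transvection_mulVec]; simp only [if_true]; exact hc
      obtain ⟨P, hP, hf, c', hc'⟩ := ih _ hdec _ rfl
      refine ⟨P * transvection a b c, ?_, hf.mul (fixOut_transvection ha hb c), c', ?_⟩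
      · rw [det_mul, det_transvection_of_ne _ _ hab, mul_one]; exact hP
      · intro k hk
        rw [← mulVec_mulVec]; exact hc' k hk
    · push_neg at hpair
      by_cases h0 : ∃ a ∈ S, v a ≠ 0
      · obtain ⟨a, ha, hva⟩ := h0
        by_cases hai : a = i
        · subst hai
          refine ⟨1, by simp, FixOut.one S, v a, fun k hk => ?_⟩
          rw [one_mulVec]
          by_cases hk' : k = a
          · simp [hk']
          · simp only [hk', if_false]
            by_contra h
            exact h (hpair a ha k hk (Ne.symm hk') hva)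
        · -- move `a` to `i`
          have hvi : v i = 0 := hpair a ha i hi hai hva
          refine ⟨transvection a i (-1) * transvection i a 1, ?_,
            (fixOut_transvection ha hi _).mul (fixOut_transvection hi ha _), v a, fun k hk => ?_⟩
          · rw [det_mul, det_transvection_of_ne _ _ hai, det_transvection_of_ne _ _ (Ne.symm hai)]
            simp
          · rw [← mulVec_mulVec, transvection_mulVec, transvection_mulVec, transvection_mulVec]
            by_cases hk' : k = i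
            · subst hk'
              simp [Ne.symm hai, hvi]
            · by_cases hk2 : k = a
              · subst hk2
                simp [hai, hvi]
              · simp [hk', hk2, hpair a ha k hk (Ne.symm hk2) hva]
      · push_neg at h0
        refine ⟨1, by simp, FixOut.one S, 0, fun k hk => ?_⟩
        rw [one_mulVec, h0 k hk]; simp

/-- Lemma C. -/
theorem exists_content {i l : ι} (hil : i ≠ l) (s : ι → ℤ) (t : ℤ) :
    ∃ (y r : ι → ℤ) (g : ℤ), (∀ k, g ∣ s k) ∧ g ∣ t ∧ r ⬝ᵥ (s + t • y) = g := by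
  obtain ⟨P, hP, -, c, hc⟩ := exists_reduce Finset.univ (Finset.mem_univ i) s
  have hPi : IsUnit P := (isUnit_iff_isUnit_det P).mpr hP
  have hPP : P⁻¹ * P = 1 := nonsing_inv_mul P hP
  have hPP' : P * P⁻¹ = 1 := mul_nonsing_inv P hP
  have hPs : P *ᵥ s = c • Pi.single i 1 := by
    ext k
    rw [hc k (Finset.mem_univ k)]
    by_cases hk : k = i
    · subst hk; simp
    · simp [hk]
  have hs : s = c • (P⁻¹ *ᵥ Pi.single i 1) := by
    rw [← mulVec_smul, ← hPs, mulVec_mulVec, hPP, one_mulVec]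
  obtain ⟨u, v, huv⟩ : ∃ u v : ℤ, u * c + v * t = (Int.gcd c t : ℤ) :=
    ⟨Int.gcdA c t, Int.gcdB c t, by rw [Int.gcd_eq_gcd_ab]; ring⟩
  refine ⟨P⁻¹ *ᵥ Pi.single l 1, (u • Pi.single i 1 + v • Pi.single l 1) ᵥ* P, (Int.gcd c t : ℤ),
    fun k => ?_, Int.gcd_dvd_right .., ?_⟩
  · rw [hs]
    simp only [Pi.smul_apply, smul_eq_mul]
    exact Dvd.dvd.mul_right (Int.gcd_dvd_left ..) _
  · rw [← dotProduct_mulVec, mulVec_add, hPs, mulVec_smul, mulVec_mulVec, hPP', one_mulVec,
      ← huv]
    simp only [dotProduct_add, dotProduct_smul,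
      dotProduct_single_one, smul_eq_mul]
    simp only [Pi.add_apply, Pi.smul_apply, Pi.single_eq_same, smul_eq_mul,
      Pi.single_eq_of_ne (Ne.symm hil), Pi.single_eq_of_ne hil]
    ring

/-- A unimodular matrix with prescribed primitive column. -/
theorem exists_col (j : ι) (s r : ι → ℤ) (h : r ⬝ᵥ s = 1) :
    ∃ P : Matrix ι ι ℤ, IsUnit P.det ∧ P *ᵥ Pi.single j 1 = s := by
  obtain ⟨P, hP, -, c, hc⟩ := exists_reduce Finset.univ (Finset.mem_univ j) s
  have hPP : P⁻¹ * P = 1 := nonsing_inv_mul P hP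
  have hPs : P *ᵥ s = c • Pi.single j 1 := by
    ext k
    rw [hc k (Finset.mem_univ k)]
    by_cases hk : k = j
    · subst hk; simp
    · simp [hk]
  have hs : s = c • (P⁻¹ *ᵥ Pi.single j 1) := by
    rw [← mulVec_smul, ← hPs, mulVec_mulVec, hPP, one_mulVec]
  have hcu : IsUnit c := by
    rw [hs, dotProduct_smul, smul_eq_mul] at h
    exact IsUnit.of_mul_eq_one _ h
  refine ⟨c • P⁻¹, ?_, ?_⟩
  · rw [det_smul]
    refine (hcu.pow _).mul ?_
    rw [isUnit_nonsing_inv_det_iff]; exact hP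
  · rw [smul_mulVec]; exact hs.symm

/-- Basis lemma: `s` primitive, `M` unimodular, rank at least 3. -/
theorem exists_basis (M : Matrix ι ι ℤ) (hs : M.IsSymm) (hu : IsUnit M.det)
    (h3 : 3 ≤ Fintype.card ι) (s r : ι → ℤ) (h : r ⬝ᵥ s = 1) :
    ∃ (P : Matrix ι ι ℤ) (i j : ι), IsUnit P.det ∧ i ≠ j ∧ (Pᵀ * M * P) i j = 1 ∧
      P *ᵥ Pi.single j 1 = s := by
  obtain ⟨i, j, l, hij, hil, hjl⟩ := Fintype.two_lt_card_iff.mp h3
  obtain ⟨P1, hP1, hP1s⟩ := exists_col j s r h
  set N := P1ᵀ * M * P1 with hN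
  have hNu : IsUnit N.det := by
    rw [hN, det_mul, det_mul, det_transpose]
    exact (hP1.mul hu).mul hP1
  set v := N *ᵥ Pi.single j 1 with hv
  have hw : (Pi.single j 1 ᵥ* N⁻¹) ⬝ᵥ v = 1 := by
    rw [hv, ← dotProduct_mulVec, mulVec_mulVec, nonsing_inv_mul N hNu, one_mulVec]
    simp
  have hiS : i ∈ Finset.univ.erase j := by simp [hij]
  have hlS : l ∈ Finset.univ.erase j := by simp [Ne.symm hjl]
  have hjS : j ∉ Finset.univ.erase j := by simp
  obtain ⟨Q2, hQ2, hf2, c, hc⟩ := exists_reduce (Finset.univ.erase j) hiS v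
  obtain ⟨Q4, hQ4, hf4, c', hc'⟩ := exists_reduce (Finset.univ.erase j) hiS
    (transvection l j 1 *ᵥ (Q2 *ᵥ v))
  set v2 := Q2 *ᵥ v with hv2
  set v3 := transvection l j 1 *ᵥ v2 with hv3
  have hv3l : v3 l = v2 j := by
    rw [hv3, transvection_mulVec]
    have : v2 l = 0 := by rw [hc l hlS]; simp [Ne.symm hil]
    rw [this]; simp
  have hv3j : v3 j = v2 j := by
    rw [hv3, transvection_mulVec]; simp [hjl]
  -- divisibility
  have hPP : Q4⁻¹ * Q4 = 1 := nonsing_inv_mul Q4 hQ4
  have e1 : Q4 *ᵥ (v3 - v3 j • Pi.single j 1) = c' • Pi.single i 1 := by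
    rw [mulVec_sub, mulVec_smul, hf4.mulVec_single hjS]
    ext k
    simp only [Pi.sub_apply, Pi.smul_apply, smul_eq_mul, Pi.single_apply, mul_ite, mul_one,
      mul_zero]
    by_cases hk : k = j
    · subst hk
      rw [hf4.mulVec_out hjS]
      simp [Ne.symm hij]
    · rw [hc' k (by simp [hk])]
      simp [hk]
  have e2 : v3 - v3 j • Pi.single j 1 = c' • (Q4⁻¹ *ᵥ Pi.single i 1) := by
    rw [← mulVec_smul, ← e1, mulVec_mulVec, hPP, one_mulVec]
  have hdiv : ∀ k, c' ∣ v3 k := by
    intro k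
    by_cases hk : k = j
    · subst hk
      rw [hv3j, ← hv3l]
      have := congrFun e2 l
      simp only [Pi.sub_apply, Pi.smul_apply, smul_eq_mul, Pi.single_apply, mul_ite, mul_one,
        mul_zero, Ne.symm hjl, if_false, sub_zero] at this
      exact ⟨_, this⟩
    · have := congrFun e2 k
      simp only [Pi.sub_apply, Pi.smul_apply, smul_eq_mul, Pi.single_apply, mul_ite, mul_one,
        mul_zero, hk, if_false, sub_zero] at this
      exact ⟨_, this⟩
  choose z hz using hdiv
  have hz' : v3 = c' • z := by ext k; simp [hz k]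
  have hQ3 : IsUnit (transvection l j (1 : ℤ)).det := by
    rw [det_transvection_of_ne _ _ (Ne.symm hjl)]; exact isUnit_one
  have hv' : v = c' • (Q2⁻¹ *ᵥ ((transvection l j 1)⁻¹ *ᵥ z)) := by
    have e3 : (transvection l j 1)⁻¹ *ᵥ v3 = v2 := by
      rw [hv3, mulVec_mulVec, nonsing_inv_mul _ hQ3, one_mulVec]
    rw [← mulVec_smul, ← mulVec_smul, ← hz', e3, hv2, mulVec_mulVec, nonsing_inv_mul _ hQ2,
      one_mulVec]
  have hcu : IsUnit c' := by
    rw [hv', dotProduct_smul, smul_eq_mul] at hw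
    exact IsUnit.of_mul_eq_one _ hw
  have hcc : c' * c' = 1 := by
    rcases Int.isUnit_iff.mp hcu with h | h <;> rw [h] <;> norm_num
  set D : Matrix ι ι ℤ := diagonal (fun k => if k = i then c' else 1) with hD
  have hDu : IsUnit D.det := by
    rw [hD, det_diagonal]
    rw [Finset.prod_ite_eq' Finset.univ i (fun _ => c')]
    simpa using hcu
  have hfD : FixOut (Finset.univ.erase j) D := by
    intro k hk a
    have hk' : k = j := by simpa using hk
    subst hk'
    constructor
    · rw [hD, diagonal_apply, one_apply]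
      by_cases h : k = a <;> simp [h, Ne.symm hij]
      intro h'
      exact absurd (h.trans h').symm hij
    · rw [hD, diagonal_apply, one_apply]
      by_cases h : a = k <;> simp [h, Ne.symm hij]
  set T := D * (Q4 * (transvection l j 1 * Q2)) with hT
  have hfT : Tᵀ *ᵥ Pi.single j 1 = Pi.single j 1 := by
    have e4 : (transvection l j (1 : ℤ))ᵀ *ᵥ Pi.single j 1 = Pi.single j 1 := by
      rw [mulVec_single_one]
      ext k
      rw [col_apply, transpose_apply, transvection, Matrix.add_apply, one_apply, Matrix.single_apply,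
        Pi.single_apply]
      by_cases hk : k = j
      · subst hk; simp [Ne.symm hjl]
      · simp [hk, Ne.symm hjl, Ne.symm hk]
    rw [hT, transpose_mul, transpose_mul, transpose_mul, ← mulVec_mulVec, ← mulVec_mulVec,
      ← mulVec_mulVec, hfD.transpose.mulVec_single hjS, hf4.transpose.mulVec_single hjS, e4,
      hf2.transpose.mulVec_single hjS]
  have hTu : IsUnit T.det := by
    rw [hT, det_mul, det_mul, det_mul]
    exact hDu.mul (hQ4.mul (hQ3.mul hQ2))
  have hTv : (T *ᵥ v) i = 1 := by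
    rw [hT, ← mulVec_mulVec, ← mulVec_mulVec, ← mulVec_mulVec, hD, mulVec_diagonal, ← hv2,
      ← hv3, hc' i hiS]
    simpa using hcc
  refine ⟨P1 * Tᵀ, i, j, ?_, hij, ?_, ?_⟩
  · rw [det_mul, det_transpose]; exact hP1.mul hTu
  · have : (P1 * Tᵀ)ᵀ * M * (P1 * Tᵀ) = T * N * Tᵀ := by
      rw [hN, transpose_mul, transpose_transpose]; simp only [Matrix.mul_assoc]
    rw [this]
    have h2 : (T * N * Tᵀ) i j = ((T * N * Tᵀ) *ᵥ Pi.single j 1) i := by
      rw [mulVec_single_one, col_apply]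
    have h4 : (T * N * Tᵀ) *ᵥ Pi.single j 1 = T *ᵥ v := by
      rw [← mulVec_mulVec (Pi.single j 1) (T * N) Tᵀ, hfT, ← mulVec_mulVec]
    rw [h2, h4]
    exact hTv
  · rw [← mulVec_mulVec, hfT, hP1s]

end Pool.Agent.Lib.MP_800ada_gt
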