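import Pool.Agent.Lib.MP_800ada_gt.Z93b

/-!
# MP_800ada_gt: the odd step over `ℤ`
-/

namespace Pool.Agent.Lib.MP_800ada_gt

open Matrix

section
variable {ι : Type*} [Fintype ι] [DecidableEq ι]

/-- the vector `s + α w + m u`. -/
def mkv (s : ι → ℤ) (α m : ℤ) : ι ⊕ Fin 2 → ℤ := Sum.elim s ![α, m]

omit [Fintype ι] [DecidableEq ι] in
lemma mkv_eta (x : ι ⊕ Fin 2 → ℤ) :
    mkv (fun i => x (Sum.inl i)) (x (Sum.inr 0)) (x (Sum.inr 1)) = x := by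
  ext k
  rcases k with k | k
  · rfl
  · fin_cases k <;> rfl

lemma bilNM (M : Matrix ι ι ℤ) (s s' : ι → ℤ) (α m α' m' : ℤ) :
    mkv s α m ⬝ᵥ NM M *ᵥ mkv s' α' m' = s ⬝ᵥ M *ᵥ s' + α * m' + m * α' + m * m' := by
  have h1 : NM M *ᵥ mkv s' α' m' = Sum.elim (M *ᵥ s') ![m', α' + m'] := by
    rw [NM, mkv, fromBlocks_mulVec]
    congr 1
    · simp
    · ext k
      fin_cases k <;> simp [mulVec, dotProduct, Fin.sum_univ_two]
  rw [h1, mkv, sumElim_dotProduct_sumElim]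
  simp [dotProduct, Fin.sum_univ_two]
  ring

lemma iso_of_linear {κ : Type*} [Fintype κ] [DecidableEq κ] {N N' : Matrix κ κ ℤ}
    (hu : IsUnit N'.det) (f : (κ → ℤ) →ₗ[ℤ] (κ → ℤ))
    (h : ∀ x y, f x ⬝ᵥ N *ᵥ f y = x ⬝ᵥ N' *ᵥ y) :
    IsUnit (LinearMap.toMatrix' f).det ∧
      N' = (LinearMap.toMatrix' f)ᵀ * N * LinearMap.toMatrix' f := by
  have h2 : N' = (LinearMap.toMatrix' f)ᵀ * N * LinearMap.toMatrix' f := by
    ext i j
    rw [entry_eq, LinearMap.toMatrix'_mulVec, LinearMap.toMatrix'_mulVec, h, bil_single]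
  refine ⟨?_, h2⟩
  rw [h2, det_mul] at hu
  exact isUnit_of_mul_isUnit_right hu

lemma NM_det (M : Matrix ι ι ℤ) : (NM M).det = -M.det := by
  rw [NM, det_fromBlocks_zero₂₁, det_fin_two]
  simp

lemma NM_symm {M : Matrix ι ι ℤ} (hs : M.IsSymm) : (NM M).IsSymm := by
  rw [NM]
  apply Matrix.IsSymm.fromBlocks hs (by simp)
  ext i j
  fin_cases i <;> fin_cases j <;> rfl

lemma Xgood_pull {M : Matrix ι ι ℤ} (hu : IsUnit M.det) {x x' : ι ⊕ Fin 2 → ℤ}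
    (f : (ι ⊕ Fin 2 → ℤ) →ₗ[ℤ] (ι ⊕ Fin 2 → ℤ))
    (h : ∀ x y, f x ⬝ᵥ NM M *ᵥ f y = x ⬝ᵥ NM M *ᵥ y) (hx : Xgood M x) (hf : f x' = x) :
    Xgood M x' := by
  obtain ⟨Φ, d, hΦ, hd, hN, hΦx⟩ := hx
  obtain ⟨h1, h2⟩ := iso_of_linear (N' := NM M) (by rw [NM_det]; exact hu.neg) f h
  refine ⟨Φ * LinearMap.toMatrix' f, d, ?_, hd, ?_, ?_⟩
  · rw [det_mul]; exact hΦ.mul h1
  · rw [h2]
    conv_lhs => rw [hN]
    rw [transpose_mul]; simp only [Matrix.mul_assoc]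
  · rw [← mulVec_mulVec, LinearMap.toMatrix'_mulVec, hf, hΦx]

/-- Eichler transformation. -/
def eich (M : Matrix ι ι ℤ) (z : ι → ℤ) : (ι ⊕ Fin 2 → ℤ) →ₗ[ℤ] (ι ⊕ Fin 2 → ℤ) where
  toFun x := mkv (fun i => x (Sum.inl i) + 2 * x (Sum.inr 1) * z i)
    (x (Sum.inr 0) - 2 * ((fun i => x (Sum.inl i)) ⬝ᵥ M *ᵥ z) - 2 * (z ⬝ᵥ M *ᵥ z) * x (Sum.inr 1))
    (x (Sum.inr 1))
  map_add' x y := by
    have : (fun i => (x + y) (Sum.inl i)) = (fun i => x (Sum.inl i)) + fun i => y (Sum.inl i) :=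
      rfl
    ext k
    rcases k with k | k
    · simp only [mkv, Sum.elim_inl, Pi.add_apply]; ring
    · fin_cases k
      · simp only [mkv, this, add_dotProduct]; simp; ring
      · simp [mkv]
  map_smul' c x := by
    have : (fun i => (c • x) (Sum.inl i)) = c • (fun i => x (Sum.inl i)) :=
      rfl
    ext k
    rcases k with k | k
    · simp only [mkv, Sum.elim_inl, Pi.smul_apply, smul_eq_mul, RingHom.id_apply]; ring
    · fin_cases k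
      · simp only [mkv, this, smul_dotProduct]; simp; ring
      · simp [mkv]

lemma eich_mkv (M : Matrix ι ι ℤ) (z s : ι → ℤ) (α m : ℤ) :
    eich M z (mkv s α m) = mkv (s + (2 * m) • z)
      (α - 2 * (s ⬝ᵥ M *ᵥ z) - 2 * (z ⬝ᵥ M *ᵥ z) * m) m := rfl

lemma eich_iso {M : Matrix ι ι ℤ} (hs : M.IsSymm) (z : ι → ℤ) (x y : ι ⊕ Fin 2 → ℤ) :
    eich M z x ⬝ᵥ NM M *ᵥ eich M z y = x ⬝ᵥ NM M *ᵥ y := by
  rw [← mkv_eta x, ← mkv_eta y, eich_mkv, eich_mkv, bilNM, bilNM]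
  set s := fun i => x (Sum.inl i)
  set s' := fun i => y (Sum.inl i)
  simp only [add_dotProduct, mulVec_add, dotProduct_add, mulVec_smul, dotProduct_smul,
    smul_dotProduct, smul_eq_mul]
  rw [bil_symm hs z s']
  ring

lemma Xgood_eich {M : Matrix ι ι ℤ} (hs : M.IsSymm) (hu : IsUnit M.det) (z s : ι → ℤ) (α m : ℤ)
    (hx : Xgood M (mkv s α m)) :
    Xgood M (mkv (s + (2 * m) • z) (α - 2 * (s ⬝ᵥ M *ᵥ z) - 2 * (z ⬝ᵥ M *ᵥ z) * m) m) := by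
  refine Xgood_pull hu (eich M (-z)) (eich_iso hs _) hx ?_
  rw [eich_mkv]
  congr 1
  · ext i; simp
  · simp only [mulVec_neg, dotProduct_neg, neg_dotProduct, add_dotProduct, smul_dotProduct,
      smul_eq_mul]
    ring

/-- the reflection. -/
def tau : (ι ⊕ Fin 2 → ℤ) →ₗ[ℤ] (ι ⊕ Fin 2 → ℤ) where
  toFun x := mkv (fun i => x (Sum.inl i)) (-x (Sum.inr 0)) (x (Sum.inr 1) + 2 * x (Sum.inr 0))
  map_add' x y := by
    ext k
    rcases k with k | k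
    · simp [mkv]
    · fin_cases k <;> simp [mkv] <;> ring
  map_smul' c x := by
    ext k
    rcases k with k | k
    · simp [mkv]
    · fin_cases k <;> simp [mkv]; ring

lemma tau_mkv (s : ι → ℤ) (α m : ℤ) : tau (mkv s α m) = mkv s (-α) (m + 2 * α) := rfl

lemma tau_iso {M : Matrix ι ι ℤ} (x y : ι ⊕ Fin 2 → ℤ) :
    tau x ⬝ᵥ NM M *ᵥ tau y = x ⬝ᵥ NM M *ᵥ y := by
  rw [← mkv_eta x, ← mkv_eta y, tau_mkv, tau_mkv, bilNM, bilNM]
  ring

lemma Xgood_tau {M : Matrix ι ι ℤ} (hu : IsUnit M.det) (s : ι → ℤ) (α m : ℤ)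
    (hx : Xgood M (mkv s α m)) : Xgood M (mkv s (-α) (m + 2 * α)) := by
  refine Xgood_pull hu tau (tau_iso (M := M)) hx ?_
  rw [tau_mkv]
  congr 1 <;> ring

/-- primitivity and isotropy of good vectors. -/
lemma Xgood_prim {M : Matrix ι ι ℤ} {s : ι → ℤ} {α m : ℤ} (hx : Xgood M (mkv s α m)) :
    (∃ (r : ι → ℤ) (a b : ℤ), r ⬝ᵥ s + a * α + b * m = 1) ∧
      s ⬝ᵥ M *ᵥ s + 2 * α * m + m ^ 2 = 0 := by
  obtain ⟨Φ, d, hΦ, hd, hN, hΦx⟩ := hx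
  constructor
  · refine ⟨fun i => Φ (Sum.inr 0) (Sum.inl i), Φ (Sum.inr 0) (Sum.inr 0),
      Φ (Sum.inr 0) (Sum.inr 1), ?_⟩
    have := congrFun hΦx (Sum.inr 0)
    simp only [mulVec, dotProduct, Fintype.sum_sum_type, Fin.sum_univ_two, mkv, Sum.elim_inl,
      Sum.elim_inr, cons_val_zero, cons_val_one, Pi.single_eq_same] at this
    rw [← this, dotProduct]; ring
  · have h1 : mkv s α m ⬝ᵥ NM M *ᵥ mkv s α m = 0 := by
      rw [hN, Matrix.mul_assoc, ← mulVec_mulVec, dotProduct_mulVec, vecMul_transpose,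
        ← mulVec_mulVec, hΦx]
      have : (Pi.single (Sum.inr 0) 1 : ι ⊕ Fin 2 → ℤ) = mkv 0 1 0 := by
        ext k
        rcases k with k | k
        · simp [mkv]
        · fin_cases k <;> simp [mkv]
      rw [this, bilNM]; simp
    rw [bilNM] at h1
    linarith

end

end Pool.Agent.Lib.MP_800ada_gt
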